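import Pool.Agent.Run7.h840.IfaceA

/-!
# Piece A2 (helper690): the tight wheel
-/

set_option autoImplicit false
set_option linter.all false

namespace Run7.h840

open Complex

theorem om_eq : om = exp ((Real.pi / 3 : ℝ) * I) := by
  rw [exp_mul_I]
  apply Complex.ext
  · rw [← ofReal_cos, ← ofReal_sin, Real.cos_pi_div_three, Real.sin_pi_div_three]
    simp [om]
  · rw [← ofReal_cos, ← ofReal_sin, Real.cos_pi_div_three, Real.sin_pi_div_three]
    simp [om]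

theorem sqrt3_bd : (1.732 : ℝ) < Real.sqrt 3 ∧ Real.sqrt 3 < 1.7321 := by
  constructor
  · rw [Real.lt_sqrt (by norm_num)]
    norm_num
  · rw [Real.sqrt_lt' (by norm_num)]
    norm_num

theorem cos_minus {x : ℝ} (h0 : 0 ≤ x) (h1 : x ≤ 1/100) :
    1/2 + 0.85 * x ≤ Real.cos (Real.pi / 3 - x) := by
  rw [Real.cos_sub, Real.cos_pi_div_three, Real.sin_pi_div_three]
  have h2 : 1 - x ^ 2 / 2 ≤ Real.cos x := Real.one_sub_sq_div_two_le_cos
  have h3 : x - x ^ 3 / 4 ≤ Real.sin x := by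
    rcases eq_or_lt_of_le h0 with h | h
    · rw [← h]; simp
    · have h7 := Real.sin_gt_sub_cube h
      have h8 := pow_pos h 3
      linarith
  obtain ⟨h4, h5⟩ := sqrt3_bd
  have h6 : 0 ≤ x - x ^ 3 / 4 := by nlinarith [pow_nonneg h0 3, pow_nonneg h0 2]
  nlinarith [pow_nonneg h0 3, pow_nonneg h0 2, mul_nonneg h0 h0]

theorem cos_plus {x : ℝ} (h0 : 0 ≤ x) (h1 : x ≤ 1/100) :
    Real.cos (Real.pi / 3 + x) ≤ 1/2 - 0.85 * x := by
  rw [Real.cos_add, Real.cos_pi_div_three, Real.sin_pi_div_three]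
  have h2 : Real.cos x ≤ 1 := Real.cos_le_one x
  have h3 : x - x ^ 3 / 4 ≤ Real.sin x := by
    rcases eq_or_lt_of_le h0 with h | h
    · rw [← h]; simp
    · have h7 := Real.sin_gt_sub_cube h
      have h8 := pow_pos h 3
      linarith
  obtain ⟨h4, h5⟩ := sqrt3_bd
  have h6 : 0 ≤ x - x ^ 3 / 4 := by nlinarith [pow_nonneg h0 3, pow_nonneg h0 2]
  nlinarith [pow_nonneg h0 3, pow_nonneg h0 2, mul_nonneg h0 h0]

/-- an angle with small cosine is large -/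
theorem angle_large {α x : ℝ} (h0 : 0 ≤ x) (h1 : x ≤ 1/100) (h : Real.cos α < 1/2 + 0.85 * x) :
    Real.pi / 3 - x < |α| := by
  by_contra hcon
  push Not at hcon
  have h2 := cos_minus h0 h1
  have h3 : Real.cos (Real.pi / 3 - x) ≤ Real.cos |α| :=
    Real.cos_le_cos_of_nonneg_of_le_pi (abs_nonneg _) (by linarith [Real.pi_pos]) hcon
  rw [Real.cos_abs] at h3
  linarith

/-- an angle with large cosine is small -/
theorem angle_small {α x : ℝ} (h0 : 0 ≤ x) (h1 : x ≤ 1/100) (hα : |α| ≤ Real.pi)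
    (h : 1/2 - 0.85 * x ≤ Real.cos α) : |α| ≤ Real.pi / 3 + x := by
  by_contra hcon
  push Not at hcon
  have h2 := cos_plus h0 h1
  have h3 : Real.cos |α| < Real.cos (Real.pi / 3 + x) :=
    Real.cos_lt_cos_of_nonneg_of_le_pi (by linarith [Real.pi_pos]) hα hcon
  rw [Real.cos_abs] at h3
  linarith

theorem norm_sub_polar {z w : ℂ} {r s α : ℝ} (hz : ‖z‖ = r) (hr : r ≠ 0)
    (hw : w = ((s / r : ℝ) : ℂ) * exp (α * I) * z) :
    ‖z - w‖ ^ 2 = r ^ 2 + s ^ 2 - 2 * r * s * Real.cos α := by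
  have h1 : z - w = (1 - ((s / r : ℝ) : ℂ) * exp (α * I)) * z := by
    rw [hw]; ring
  rw [h1, norm_mul, mul_pow, hz]
  have h2 : ‖1 - ((s / r : ℝ) : ℂ) * exp (α * I)‖ ^ 2 = 1 - 2 * (s / r) * Real.cos α + (s / r) ^ 2 := by
    rw [← normSq_eq_norm_sq, normSq_apply]
    have e1 : (1 - ((s / r : ℝ) : ℂ) * exp (α * I)).re = 1 - s / r * Real.cos α := by
      rw [sub_re, one_re, re_ofReal_mul, exp_ofReal_mul_I_re]
    have e2 : (1 - ((s / r : ℝ) : ℂ) * exp (α * I)).im = - (s / r * Real.sin α) := by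
      rw [sub_im, one_im, im_ofReal_mul, exp_ofReal_mul_I_im]
      ring
    rw [e1, e2]
    have := Real.sin_sq_add_cos_sq α
    linear_combination (s / r) ^ 2 * this
  rw [h2]
  field_simp
  ring

theorem exp_sub_le (a b : ℝ) : ‖exp (a * I) - exp (b * I)‖ ≤ |a - b| := by
  have h1 : exp (a * I) - exp (b * I) = exp (b * I) * (exp (I * (a - b : ℝ)) - 1) := by
    rw [mul_sub, ← exp_add, mul_one]
    congr 2
    push_cast
    ring
  rw [h1, norm_mul, norm_exp_ofReal_mul_I, one_mul]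
  exact Real.norm_exp_I_mul_ofReal_sub_one_le

/-- the polar form of a sequence -/
structure Pol (z : ℕ → ℂ) (θ : ℕ → ℝ) : Prop where
  ne : ∀ k, z k ≠ 0
  step : ∀ k, z (k + 1) = ((‖z (k + 1)‖ / ‖z k‖ : ℝ) : ℂ) * exp (θ k * I) * z k
  bd : ∀ k, |θ k| ≤ Real.pi

theorem exists_pol {z : ℕ → ℂ} (hz : ∀ k, z k ≠ 0) : Pol z fun k => arg (z (k + 1) / z k) := by
  refine ⟨hz, fun k => ?_, fun k => abs_arg_le_pi _⟩
  have h1 := norm_mul_exp_arg_mul_I (z (k + 1) / z k)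
  rw [norm_div] at h1
  rw [h1, div_mul_cancel₀ _ (hz k)]

theorem Pol.conj {z : ℕ → ℂ} {θ : ℕ → ℝ} (h : Pol z θ) :
    Pol (fun k => (starRingEnd ℂ) (z k)) fun k => -θ k := by
  refine ⟨fun k => ?_, fun k => ?_, fun k => ?_⟩
  · exact (map_ne_zero _).2 (h.ne k)
  · have h1 := congrArg (starRingEnd ℂ) (h.step k)
    show (starRingEnd ℂ) (z (k + 1)) =
      ((‖(starRingEnd ℂ) (z (k + 1))‖ / ‖(starRingEnd ℂ) (z k)‖ : ℝ) : ℂ) *
        exp (((-θ k : ℝ) : ℂ) * I) * (starRingEnd ℂ) (z k)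
    rw [norm_conj, norm_conj, h1, map_mul, map_mul, conj_ofReal, ← exp_conj, map_mul, conj_ofReal,
      conj_I]
    congr 3
    push_cast
    ring
  · rw [abs_neg]
    exact h.bd k

section pol

variable {z : ℕ → ℂ} {θ : ℕ → ℝ} (h : Pol z θ)
include h

theorem Pol.nn (k : ℕ) : ‖z k‖ ≠ 0 := norm_ne_zero_iff.2 (h.ne k)

theorem Pol.add {j k l : ℕ} {α β : ℝ}
    (h1 : z k = ((‖z k‖ / ‖z j‖ : ℝ) : ℂ) * exp (α * I) * z j)
    (h2 : z l = ((‖z l‖ / ‖z k‖ : ℝ) : ℂ) * exp (β * I) * z k) :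
    z l = ((‖z l‖ / ‖z j‖ : ℝ) : ℂ) * exp ((α + β : ℝ) * I) * z j := by
  have e1 : exp (((α + β : ℝ) : ℂ) * I) = exp (α * I) * exp (β * I) := by
    rw [← exp_add]
    congr 1
    push_cast
    ring
  have e2 : ((‖z l‖ / ‖z j‖ : ℝ) : ℂ) = ((‖z l‖ / ‖z k‖ : ℝ) : ℂ) * ((‖z k‖ / ‖z j‖ : ℝ) : ℂ) := by
    rw [← ofReal_mul]
    congr 1
    have := h.nn k
    have := h.nn j
    field_simp
  calc z l = ((‖z l‖ / ‖z k‖ : ℝ) : ℂ) * exp (β * I) * z k := h2
    _ = ((‖z l‖ / ‖z k‖ : ℝ) : ℂ) * exp (β * I) *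
        (((‖z k‖ / ‖z j‖ : ℝ) : ℂ) * exp (α * I) * z j) := by rw [← h1]
    _ = _ := by rw [e1, e2]; ring

theorem Pol.two (k : ℕ) :
    z (k + 2) = ((‖z (k + 2)‖ / ‖z k‖ : ℝ) : ℂ) * exp ((θ k + θ (k + 1) : ℝ) * I) * z k :=
  h.add (h.step k) (h.step (k + 1))

theorem Pol.three (k : ℕ) :
    z (k + 3) = ((‖z (k + 3)‖ / ‖z k‖ : ℝ) : ℂ) *
      exp ((θ k + θ (k + 1) + θ (k + 2) : ℝ) * I) * z k :=
  h.add (h.two k) (h.step (k + 2))

theorem Pol.six (k : ℕ) :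
    z (k + 6) = ((‖z (k + 6)‖ / ‖z k‖ : ℝ) : ℂ) *
      exp (((θ k + θ (k + 1)) + (θ (k + 2) + θ (k + 3)) + (θ (k + 4) + θ (k + 5)) : ℝ) * I) * z k :=
  h.add (h.add (h.two k) (h.two (k + 2))) (h.two (k + 4))

end pol

theorem wheel_pos {D : ℝ} (hD : 0 ≤ D) (hD2 : D ≤ 1/1000) {z : ℕ → ℂ} {θ : ℕ → ℝ} (h : Pol z θ)
    (hper : ∀ k, z (k + 6) = z k) (hr : ∀ k, |‖z k‖ - 1| ≤ D) (h1 : ∀ k, ‖z k - z (k + 1)‖ ≤ 1)
    (h2 : ∀ k, 1 < ‖z k - z (k + 2)‖) (h3 : ∀ k, 1 < ‖z k - z (k + 3)‖)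
    (hpos : 0 < θ 0 + θ 1) : ∀ k, ‖z (k + 1) - om * z k‖ ≤ 20 * D := by
  have hr1 : ∀ k, 1 - D ≤ ‖z k‖ := fun k => by linarith [(abs_le.1 (hr k)).1]
  have hr2 : ∀ k, ‖z k‖ ≤ 1 + D := fun k => by linarith [(abs_le.1 (hr k)).2]
  have hpi := Real.pi_gt_d2
  have hpi2 := Real.pi_lt_d2
  -- upper bound of the cosine
  have hup : ∀ (r s α : ℝ), 1 - D ≤ r → r ≤ 1 + D → 1 - D ≤ s → s ≤ 1 + D →
      1 < r ^ 2 + s ^ 2 - 2 * r * s * Real.cos α → Real.cos α < 1/2 + 0.85 * (1.3 * D) := by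
    intro r s α a1 a2 a3 a4 a5
    by_contra hcon
    push Not at hcon
    have b1 : (1 - D) * (1 - D) ≤ r * s := mul_le_mul a1 a3 (by linarith) (by linarith)
    have b2 : (r - s) ^ 2 ≤ 4 * D ^ 2 := by
      have : |r - s| ≤ 2 * D := by rw [abs_le]; constructor <;> linarith
      calc (r - s) ^ 2 = |r - s| ^ 2 := (sq_abs _).symm
        _ ≤ (2 * D) ^ 2 := by gcongr
        _ = 4 * D ^ 2 := by ring
    have b3 : r * s ≤ (1 + D) * (1 + D) := mul_le_mul a2 a4 (by linarith) (by linarith)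
    have b4 : 2 * (r * s) * (1/2 + 0.85 * (1.3 * D)) ≤ 2 * (r * s) * Real.cos α := by
      apply mul_le_mul_of_nonneg_left hcon
      nlinarith
    nlinarith [mul_nonneg hD hD, mul_nonneg (mul_nonneg hD hD) hD]
  have hlow : ∀ (r s α : ℝ), 1 - D ≤ r → r ≤ 1 + D → 1 - D ≤ s → s ≤ 1 + D →
      r ^ 2 + s ^ 2 - 2 * r * s * Real.cos α ≤ 1 → 1/2 - 0.85 * (1.2 * D) ≤ Real.cos α := by
    intro r s α a1 a2 a3 a4 a5
    by_contra hcon
    push Not at hcon
    have b1 : (1 - D) * (1 - D) ≤ r * s := mul_le_mul a1 a3 (by linarith) (by linarith)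
    have b2 : 0 ≤ (r - s) ^ 2 := sq_nonneg _
    have b4 : 2 * (r * s) * Real.cos α ≤ 2 * (r * s) * (1/2 - 0.85 * (1.2 * D)) := by
      apply mul_le_mul_of_nonneg_left hcon.le
      nlinarith
    have b5 : 0 < 2 * (r * s) := by nlinarith
    have b6 : 2 * (r * s) * Real.cos α < 2 * (r * s) * (1/2 - 0.85 * (1.2 * D)) :=
      mul_lt_mul_of_pos_left hcon b5
    have b7 : (1 - D) * (1 - D) * (1 + 2 * (0.85 * (1.2 * D))) ≤ r * s * (1 + 2 * (0.85 * (1.2 * D))) := by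
      apply mul_le_mul_of_nonneg_right b1
      nlinarith
    nlinarith [mul_nonneg hD hD, mul_nonneg (mul_nonneg hD hD) hD]
  have hθ : ∀ k, |θ k| ≤ Real.pi / 3 + 1.2 * D := by
    intro k
    apply angle_small (by linarith) (by linarith) (h.bd k)
    apply hlow ‖z k‖ ‖z (k + 1)‖ _ (hr1 _) (hr2 _) (hr1 _) (hr2 _)
    rw [← norm_sub_polar rfl (h.nn k) (h.step k)]
    have := h1 k
    nlinarith [norm_nonneg (z k - z (k + 1))]
  have hT : ∀ k, Real.pi / 3 - 1.3 * D < |θ k + θ (k + 1)| := by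
    intro k
    apply angle_large (by linarith) (by linarith)
    apply hup ‖z k‖ ‖z (k + 2)‖ _ (hr1 _) (hr2 _) (hr1 _) (hr2 _)
    rw [← norm_sub_polar rfl (h.nn k) (h.two k)]
    have := h2 k
    nlinarith [norm_nonneg (z k - z (k + 2))]
  have hU : ∀ k, Real.pi / 3 - 1.3 * D < |θ k + θ (k + 1) + θ (k + 2)| := by
    intro k
    apply angle_large (by linarith) (by linarith)
    apply hup ‖z k‖ ‖z (k + 3)‖ _ (hr1 _) (hr2 _) (hr1 _) (hr2 _)
    rw [← norm_sub_polar rfl (h.nn k) (h.three k)]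
    have := h3 k
    nlinarith [norm_nonneg (z k - z (k + 3))]
  -- the signs
  have hsg : ∀ k, 0 < θ k + θ (k + 1) := by
    intro k
    induction k with
    | zero => exact hpos
    | succ k ih =>
      by_contra hcon
      push Not at hcon
      have a1 := hT k
      have a2 := hT (k + 1)
      rw [abs_of_pos ih] at a1
      rw [abs_of_nonpos hcon] at a2
      have a3 := abs_le.1 (hθ k)
      have a4 := abs_le.1 (hθ (k + 2))
      have a5 := hU k
      have a6 : |θ k + θ (k + 1) + θ (k + 2)| ≤ 2.5 * D := by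
        rw [abs_le]
        constructor
        · linarith [a4.1]
        · linarith [a3.2]
      linarith
  have hS : ∀ k, (θ k + θ (k + 1)) + (θ (k + 2) + θ (k + 3)) + (θ (k + 4) + θ (k + 5)) = 2 * Real.pi := by
    intro k
    have e1 := h.six k
    rw [hper k, div_self (h.nn k), ofReal_one, one_mul] at e1
    have e2 : exp (((θ k + θ (k + 1) + (θ (k + 2) + θ (k + 3)) + (θ (k + 4) + θ (k + 5)) : ℝ) : ℂ) * I) = 1 := by
      apply mul_right_cancel₀ (h.ne k)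
      rw [one_mul]
      exact e1.symm
    obtain ⟨n, hn⟩ := exp_eq_one_iff.1 e2
    have e3 : (θ k + θ (k + 1) + (θ (k + 2) + θ (k + 3)) + (θ (k + 4) + θ (k + 5)) : ℝ) = n * (2 * Real.pi) := by
      have h5 : ((θ k + θ (k + 1) + (θ (k + 2) + θ (k + 3)) + (θ (k + 4) + θ (k + 5)) : ℝ) : ℂ) * I =
          ((n * (2 * Real.pi) : ℝ) : ℂ) * I := by
        rw [hn]
        push_cast
        ring
      exact_mod_cast mul_right_cancel₀ I_ne_zero h5
    have b : ∀ j, θ j ≤ Real.pi / 3 + 1.2 * D := fun j => (abs_le.1 (hθ j)).2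
    have t0 := hT k
    have t2 := hT (k + 2)
    have t4 := hT (k + 4)
    rw [abs_of_pos (hsg _)] at t0 t2 t4
    have hn1 : (0:ℝ) < n := by
      by_contra hcon
      push Not at hcon
      have : (n:ℝ) * (2 * Real.pi) ≤ 0 := mul_nonpos_of_nonpos_of_nonneg hcon (by linarith)
      linarith
    have hn2 : (n:ℝ) < 2 := by
      by_contra hcon
      push Not at hcon
      have : 2 * (2 * Real.pi) ≤ (n:ℝ) * (2 * Real.pi) := mul_le_mul_of_nonneg_right hcon (by linarith)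
      linarith [b k, b (k+1), b (k+2), b (k+3), b (k+4), b (k+5)]
    have hn3 : n = 1 := by
      have h6 : 0 < n := by exact_mod_cast hn1
      have h7 : n < 2 := by exact_mod_cast hn2
      omega
    rw [e3, hn3]
    push_cast
    ring
  intro k
  have b : ∀ j, θ j ≤ Real.pi / 3 + 1.2 * D := fun j => (abs_le.1 (hθ j)).2
  have c1 : |θ k - Real.pi / 3| ≤ 6 * D := by
    rw [abs_le]
    constructor
    · have := hS k
      linarith [b (k+1), b (k+2), b (k+3), b (k+4), b (k+5)]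
    · linarith [b k]
  have e1 : z (k + 1) - om * z k = (((‖z (k + 1)‖ - ‖z k‖) / ‖z k‖ : ℝ) : ℂ) * exp (θ k * I) * z k +
      (exp (θ k * I) - exp ((Real.pi / 3 : ℝ) * I)) * z k := by
    have e3 : (((‖z (k + 1)‖ - ‖z k‖) / ‖z k‖ : ℝ) : ℂ) = ((‖z (k + 1)‖ / ‖z k‖ : ℝ) : ℂ) - 1 := by
      rw [← ofReal_one, ← ofReal_sub]
      congr 1
      have := h.nn k
      field_simp
    have e2 := h.step k
    rw [e3, om_eq]
    linear_combination e2
  rw [e1]
  refine (norm_add_le _ _).trans ?_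
  rw [norm_mul, norm_mul, norm_exp_ofReal_mul_I, mul_one, norm_mul, norm_real, Real.norm_eq_abs, abs_div,
    abs_norm, div_mul_cancel₀ _ (h.nn k)]
  have c2 : |‖z (k + 1)‖ - ‖z k‖| ≤ 2 * D := by
    rw [abs_le]
    constructor <;> linarith [hr1 k, hr2 k, hr1 (k+1), hr2 (k+1)]
  have c3 : ‖exp (θ k * I) - exp ((Real.pi / 3 : ℝ) * I)‖ * ‖z k‖ ≤ (6 * D) * (1 + D) :=
    mul_le_mul ((exp_sub_le _ _).trans c1) (hr2 k) (norm_nonneg _) (by linarith)
  nlinarith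

/-- A2 -/
theorem wheel : S_wheel := by
  intro D hD hD2 c ρ hper hr h1 h2 h3
  set z : ℕ → ℂ := fun k => ρ k - c with hz
  have hz' : ∀ j k, z j - z k = ρ j - ρ k := by
    intro j k
    simp only [hz]
    ring
  have hne : ∀ k, z k ≠ 0 := by
    intro k hk
    have h4 := hr k
    have h5 : ρ k - c = 0 := hk
    rw [h5, norm_zero, zero_sub, abs_neg, abs_one] at h4
    linarith
  have hP := exists_pol hne
  set θ : ℕ → ℝ := fun k => arg (z (k + 1) / z k) with hθ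
  have k1 : ∀ k, z (k + 6) = z k := fun k => by simp only [hz]; rw [hper]
  have k2 : ∀ k, ‖z k - z (k + 1)‖ ≤ 1 := fun k => by rw [hz']; exact h1 k
  have k3 : ∀ k, 1 < ‖z k - z (k + 2)‖ := fun k => by rw [hz']; exact h2 k
  have k4 : ∀ k, 1 < ‖z k - z (k + 3)‖ := fun k => by rw [hz']; exact h3 k
  rcases lt_trichotomy 0 (θ 0 + θ 1) with hp | hp | hp
  · exact ⟨om, Or.inl rfl, fun k => wheel_pos hD hD2 hP k1 hr k2 k3 k4 hp k⟩
  · -- impossible
    exfalso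
    have e1 := norm_sub_polar rfl (hP.nn 0) (hP.two 0)
    have e2 : θ 0 + θ (0 + 1) = 0 := hp.symm
    rw [e2, Real.cos_zero] at e1
    have e3 := k3 0
    have a1 := abs_le.1 (hr 0)
    have a2 := abs_le.1 (hr (0 + 2))
    have e4 : ‖z 0 - z (0 + 2)‖ ^ 2 = (‖z 0‖ - ‖z (0 + 2)‖) ^ 2 := by
      rw [e1]; ring
    have e5 : |‖z 0‖ - ‖z (0 + 2)‖| ≤ 1 := by
      rw [abs_le]
      constructor
      · show -1 ≤ ‖ρ 0 - c‖ - ‖ρ (0 + 2) - c‖
        linarith [a1.1, a2.2]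
      · show ‖ρ 0 - c‖ - ‖ρ (0 + 2) - c‖ ≤ 1
        linarith [a1.2, a2.1]
    have e6 : (‖z 0‖ - ‖z (0 + 2)‖) ^ 2 ≤ 1 := by
      rw [← sq_abs]
      nlinarith [abs_nonneg (‖z 0‖ - ‖z (0 + 2)‖)]
    nlinarith
  · refine ⟨(starRingEnd ℂ) om, Or.inr rfl, ?_⟩
    have hc : ∀ a b : ℂ, ‖(starRingEnd ℂ) a - (starRingEnd ℂ) b‖ = ‖a - b‖ := by
      intro a b
      rw [← map_sub, norm_conj]
    have h5 := wheel_pos hD hD2 hP.conj (fun k => by rw [k1]) (fun k => by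
      rw [norm_conj]; exact hr k) (fun k => by rw [hc]; exact k2 k) (fun k => by rw [hc]; exact k3 k)
      (fun k => by rw [hc]; exact k4 k) (by
        show 0 < -θ 0 + -θ 1
        linarith)
    intro k
    have h6 := h5 k
    have h7 : (starRingEnd ℂ) (z (k + 1)) - om * (starRingEnd ℂ) (z k) =
        (starRingEnd ℂ) (z (k + 1) - (starRingEnd ℂ) om * z k) := by
      rw [map_sub (starRingEnd ℂ) (z (k + 1)) _, map_mul, conj_conj]
    rw [h7, norm_conj] at h6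
    exact h6

end Run7.h840
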