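import Pool.Agent.Run7.h690.UD.A2

/-!
# Piece A4 (helper690): squaring
-/

set_option autoImplicit false
set_option linter.all false

namespace Run7.h840

open Complex

theorem dt_abs (x y : ℂ) : |dt x y| ≤ ‖x‖ * ‖y‖ := by
  have h1 : dt x y = ((starRingEnd ℂ) x * y).re := by
    simp [dt]
  rw [h1]
  refine (abs_re_le_norm _).trans ?_
  rw [norm_mul, norm_conj]

theorem dt_add_left (x y z : ℂ) : dt (x + y) z = dt x z + dt y z := by
  simp only [dt, add_re, add_im]; ring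

theorem dt_neg_left (x z : ℂ) : dt (-x) z = - dt x z := by
  simp only [dt, neg_re, neg_im]; ring

theorem dt_sub_left (x y z : ℂ) : dt (x - y) z = dt x z - dt y z := by
  simp only [dt, sub_re, sub_im]; ring

theorem normsq_sub_dt (x y : ℂ) : ‖x - y‖ ^ 2 = ‖x‖ ^ 2 - 2 * dt x y + ‖y‖ ^ 2 := by
  rw [← normSq_eq_norm_sq, ← normSq_eq_norm_sq, ← normSq_eq_norm_sq, normSq_apply, normSq_apply,
    normSq_apply, dt, sub_re, sub_im]
  ring

/-- what we need to know about the sixth root of unity -/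
structure Six (σ : ℂ) : Prop where
  re : σ.re = 1 / 2
  im : σ.im ^ 2 = 3 / 4
  nrm : ‖σ‖ = 1
  cube : σ ^ 3 = -1

theorem six_of {σ : ℂ} (h : σ = om ∨ σ = (starRingEnd ℂ) om) : Six σ := by
  have h3 : Real.sqrt 3 ^ 2 = 3 := Real.sq_sqrt (by norm_num)
  have hre : σ.re = 1 / 2 := by
    rcases h with h | h <;> rw [h] <;> simp [om]
  have him : σ.im ^ 2 = 3 / 4 := by
    rcases h with h | h <;> rw [h] <;> simp only [om, conj_im] <;> nlinarith
  refine ⟨hre, him, ?_, ?_⟩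
  · have h1 : ‖σ‖ ^ 2 = 1 := by
      rw [← normSq_eq_norm_sq, normSq_apply]
      rw [hre]
      nlinarith
    nlinarith [norm_nonneg σ]
  · apply Complex.ext
    · have : (σ ^ 3).re = σ.re ^ 3 - 3 * σ.re * σ.im ^ 2 := by
        simp only [pow_succ, pow_zero, one_mul, mul_re, mul_im]; ring
      rw [this, hre, him]
      simp
      norm_num
    · have : (σ ^ 3).im = 3 * σ.re ^ 2 * σ.im - σ.im * σ.im ^ 2 := by
        simp only [pow_succ, pow_zero, one_mul, mul_re, mul_im]; ring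
      rw [this, hre, him]
      simp
      ring

theorem per6 {a : ℕ → ℂ} (h : ∀ k, a (k + 6) = a k) (k : ℕ) : a k = a (k % 6) := by
  have h1 : ∀ n m, a (m + 6 * n) = a m := by
    intro n
    induction n with
    | zero => intro m; rfl
    | succ n ih =>
      intro m
      have : m + 6 * (n + 1) = (m + 6 * n) + 6 := by ring
      rw [this, h, ih]
  have h2 := h1 (k / 6) (k % 6)
  rw [Nat.mod_add_div] at h2
  exact h2

section three

variable {ρ : ℕ → ℂ} {σ : ℂ} {E : ℝ} (hσ : Six σ) (h : ∀ k, ‖ρ (k + 1) - σ * ρ k‖ ≤ E)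
include hσ h

theorem two_err (k : ℕ) : ‖ρ (k + 2) - σ ^ 2 * ρ k‖ ≤ 2 * E := by
  have h1 : ρ (k + 2) - σ ^ 2 * ρ k = (ρ (k + 1 + 1) - σ * ρ (k + 1)) + σ * (ρ (k + 1) - σ * ρ k) := by
    ring
  rw [h1]
  refine (norm_add_le _ _).trans ?_
  rw [norm_mul, hσ.nrm, one_mul]
  linarith [h (k + 1), h k]

theorem three_err (k : ℕ) : ‖ρ (k + 3) + ρ k‖ ≤ 3 * E := by
  have h1 : ρ (k + 3) + ρ k = (ρ (k + 2 + 1) - σ * ρ (k + 2)) + σ * (ρ (k + 2) - σ ^ 2 * ρ k) := by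
    have := hσ.cube
    have h2 : σ * (ρ (k + 2) - σ ^ 2 * ρ k) = σ * ρ (k + 2) - σ ^ 3 * ρ k := by ring
    rw [h2, this]
    ring
  rw [h1]
  refine (norm_add_le _ _).trans ?_
  rw [norm_mul, hσ.nrm, one_mul]
  linarith [h (k + 2), two_err hσ h k]

end three

/-- A4 -/
theorem square (hW : S_wheel) : S_square := by
  intro s hs hs2 p a m hper h1 h2 h3 h4 hm
  set ρ : ℕ → ℂ := fun k => a k - p with hρ
  -- step 1
  have hlow : ∀ k, 1 - s ≤ ‖ρ k‖ := by
    have key : ∀ k j, j < 3 → 1 < ‖a k - m j‖ → 1 - s ≤ ‖ρ k‖ := by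
      intro k j hj hk
      have e1 : a k - m j = (a k - p) - (m j - p) := by ring
      have e2 := norm_sub_le (a k - p) (m j - p)
      rw [← e1] at e2
      have e3 := (hm j hj).1
      show 1 - s ≤ ‖a k - p‖
      linarith
    intro k
    have hk : ρ k = ρ (k % 6) := by
      show a k - p = a (k % 6) - p
      rw [← per6 hper k]
    rw [hk]
    have h6 : k % 6 < 6 := Nat.mod_lt _ (by norm_num)
    rcases Nat.lt_or_ge (k % 6) 3 with h7 | h7
    · exact key _ _ h7 (hm _ h7).2.1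
    · have h8 : k % 6 - 3 < 3 := by omega
      have h9 := (hm _ h8).2.2
      have h10 : k % 6 - 3 + 3 = k % 6 := by omega
      rw [h10] at h9
      exact key _ _ h8 h9
  have hD : ∀ k, |‖a k - p‖ - 1| ≤ s := by
    intro k
    have e1 : 1 - s ≤ ‖a k - p‖ := hlow k
    have e2 := h1 k
    rw [abs_le]
    constructor <;> linarith
  obtain ⟨σ, hσ1, hσ2⟩ := hW s hs hs2 p a hper hD h2 h3 h4
  have hσ := six_of hσ1
  have hst : ∀ k, ‖ρ (k + 1) - σ * ρ k‖ ≤ 20 * s := hσ2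
  have h30 := three_err hσ hst
  -- step 3
  have hc : ∀ k, 1 - 122 * s ^ 2 ≤ ‖ρ k‖ ^ 2 := by
    have key : ∀ j, j < 3 → 1 - 122 * s ^ 2 ≤ ‖ρ j‖ ^ 2 ∧ 1 - 122 * s ^ 2 ≤ ‖ρ (j + 3)‖ ^ 2 := by
      intro j hj
      obtain ⟨b1, b2, b3⟩ := hm j hj
      set v := m j - p with hv
      have e1 : a j - m j = ρ j - v := by simp only [hρ, hv]; ring
      have e2 : a (j + 3) - m j = ρ (j + 3) - v := by simp only [hρ, hv]; ring
      rw [e1] at b2
      rw [e2] at b3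
      have c1 := normsq_sub_dt (ρ j) v
      have c2 := normsq_sub_dt (ρ (j + 3)) v
      have c3 : 1 < ‖ρ j - v‖ ^ 2 := by nlinarith
      have c4 : 1 < ‖ρ (j + 3) - v‖ ^ 2 := by nlinarith
      have c5 := dt_abs (ρ (j + 3) + ρ j) v
      rw [dt_add_left] at c5
      have c6 : ‖ρ (j + 3) + ρ j‖ * ‖v‖ ≤ (3 * (20 * s)) * s :=
        mul_le_mul (h30 j) b1 (norm_nonneg _) (by linarith)
      have c7 := (abs_le.1 (c5.trans c6)).1
      have c8 : ‖v‖ ^ 2 ≤ s ^ 2 := by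
        have := norm_nonneg v
        nlinarith
      have d1 : ‖ρ j‖ ≤ 1 := h1 j
      have d2 : ‖ρ (j + 3)‖ ≤ 1 := h1 (j + 3)
      have d3 : ‖ρ j‖ ^ 2 ≤ 1 := by nlinarith [norm_nonneg (ρ j)]
      have d4 : ‖ρ (j + 3)‖ ^ 2 ≤ 1 := by nlinarith [norm_nonneg (ρ (j + 3))]
      constructor <;> nlinarith
    intro k
    have hk : ρ k = ρ (k % 6) := by
      show a k - p = a (k % 6) - p
      rw [← per6 hper k]
    rw [hk]
    have h6 : k % 6 < 6 := Nat.mod_lt _ (by norm_num)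
    rcases Nat.lt_or_ge (k % 6) 3 with h7 | h7
    · exact (key _ h7).1
    · have h8 : k % 6 - 3 < 3 := by omega
      have h9 := (key _ h8).2
      have h10 : k % 6 - 3 + 3 = k % 6 := by omega
      rw [h10] at h9
      exact h9
  refine ⟨fun k => ?_, fun q hq => ?_⟩
  · have e1 := hc k
    have e2 : ‖ρ k‖ ≤ 1 := h1 k
    have e3 : ‖ρ k‖ ^ 2 ≤ ‖ρ k‖ := by nlinarith [norm_nonneg (ρ k)]
    show 1 - 200 * s ^ 2 ≤ ‖ρ k‖
    nlinarith
  · by_contra hcon
    push Not at hcon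
    set z := q - p with hz
    have hZ : 0 ≤ ‖z‖ := norm_nonneg z
    have e0 : ∀ k, 2 * dt (ρ k) z ≥ - (122 * s ^ 2) := by
      intro k
      have e1 : a k - q = ρ k - z := by simp only [hρ, hz]; ring
      have e2 := hq k
      rw [e1] at e2
      have e3 := normsq_sub_dt (ρ k) z
      have e4 : ‖ρ k - z‖ ^ 2 ≤ 1 := by nlinarith [norm_nonneg (ρ k - z)]
      have e5 := hc k
      nlinarith
    have f0 := e0 0
    have f3 := e0 (0 + 3)
    have f1 := e0 1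
    have f4 := e0 (1 + 3)
    have g0 := dt_abs (ρ (0 + 3) + ρ 0) z
    have g1 := dt_abs (ρ (1 + 3) + ρ 1) z
    rw [dt_add_left] at g0 g1
    have g2 : ‖ρ (0 + 3) + ρ 0‖ * ‖z‖ ≤ (3 * (20 * s)) * ‖z‖ := mul_le_mul_of_nonneg_right (h30 0) hZ
    have g3 : ‖ρ (1 + 3) + ρ 1‖ * ‖z‖ ≤ (3 * (20 * s)) * ‖z‖ := mul_le_mul_of_nonneg_right (h30 1) hZ
    have g4 := abs_le.1 (g0.trans g2)
    have g5 := abs_le.1 (g1.trans g3)
    have g6 : s * ‖z‖ ≤ 1/1000 * ‖z‖ := mul_le_mul_of_nonneg_right hs2 hZ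
    have k0 : |dt (ρ 0) z| ≤ 0.365 * ‖z‖ := by
      rw [abs_le]
      constructor <;> linarith [g4.1, g4.2]
    have k1 : |dt (ρ 1) z| ≤ 0.365 * ‖z‖ := by
      rw [abs_le]
      constructor <;> linarith [g5.1, g5.2]
    -- the product
    set w := (starRingEnd ℂ) (ρ 0) * z with hw
    have w1 : ‖w‖ = ‖ρ 0‖ * ‖z‖ := by rw [hw, norm_mul, norm_conj]
    have w2 : 0.999 * ‖z‖ ≤ ‖w‖ := by
      rw [w1]
      apply mul_le_mul_of_nonneg_right _ hZ
      linarith [hlow 0]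
    have w3 : dt (ρ 0) z = w.re := by simp [dt, hw]
    have w4 : dt (σ * ρ 0) z = 1/2 * w.re + σ.im * w.im := by
      have : dt (σ * ρ 0) z = σ.re * w.re + σ.im * w.im := by
        simp only [dt, hw, mul_re, mul_im, conj_re, conj_im]; ring
      rw [this, hσ.re]
    have w5 := dt_abs (ρ (0 + 1) - σ * ρ 0) z
    rw [dt_sub_left] at w5
    have w6 : ‖ρ (0 + 1) - σ * ρ 0‖ * ‖z‖ ≤ (20 * s) * ‖z‖ := mul_le_mul_of_nonneg_right (hst 0) hZ
    have w7 := abs_le.1 (w5.trans w6)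
    rw [w4] at w7
    rw [w3] at k0
    have k0' := abs_le.1 k0
    have k1' := abs_le.1 k1
    rw [show (0:ℕ) + 1 = 1 from rfl] at w7
    have w8 : |σ.im * w.im| ≤ 0.5685 * ‖z‖ := by
      rw [abs_le]
      constructor <;> linarith [w7.1, w7.2, k0'.1, k0'.2, k1'.1, k1'.2]
    have w9 : 3 / 4 * w.im ^ 2 ≤ (0.5685 * ‖z‖) ^ 2 := by
      have x1 : |σ.im * w.im| ^ 2 ≤ (0.5685 * ‖z‖) ^ 2 := pow_le_pow_left₀ (abs_nonneg _) w8 2
      rw [sq_abs, mul_pow, hσ.im] at x1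
      exact x1
    have w10 : w.re ^ 2 ≤ (0.365 * ‖z‖) ^ 2 := by
      rw [← sq_abs w.re]
      exact pow_le_pow_left₀ (abs_nonneg _) k0 2
    have w11 : ‖w‖ ^ 2 = w.re ^ 2 + w.im ^ 2 := by
      rw [← normSq_eq_norm_sq, normSq_apply]; ring
    have w12 : (0.999 * ‖z‖) ^ 2 ≤ ‖w‖ ^ 2 := pow_le_pow_left₀ (by positivity) w2 2
    have w13 : 0 < ‖z‖ := lt_of_le_of_lt (by positivity) hcon
    have w14 : 0 < ‖z‖ ^ 2 := pow_pos w13 2
    rw [w11] at w12
    rw [mul_pow] at w9 w10 w12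
    norm_num at w9 w10 w12
    linarith

end Run7.h840
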