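import Pool.Agent.Run7.h690.UD.A4

/-!
# Piece A5 (helper690): thresholds
-/

set_option autoImplicit false
set_option linter.all false

namespace Run7.h840

open Complex

theorem dt_conj {σ r z : ℂ} : dt (σ * r) z =
    σ.re * ((starRingEnd ℂ) r * z).re + σ.im * ((starRingEnd ℂ) r * z).im := by
  simp only [dt, mul_re, mul_im, conj_re, conj_im]; ring

/-- the final computation of A5 in real numbers: `a + b i = w = conj r * v`, `c + d i = u = conj r * τ`,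
`g = σ.im` -/
theorem thresh_real {s a b c d g : ℝ} (hs : 0 < s) (hs2 : s ≤ 1/100000) (hg : g ^ 2 = 3 / 4)
    (h1 : a ^ 2 + b ^ 2 ≥ (0.9999 * s) ^ 2) (h2 : |a| ≤ 0.62 * s ^ 2)
    (h3 : -(201 * s ^ 2) ≤ g * b) (h4 : 0.499 ≤ g * d) (h5 : |c| ≤ 1.01) :
    0.57 * s ≤ a * c + b * d := by
  have hs3 : s ^ 2 ≤ 1/100000 * s := by nlinarith
  have h6 : a ^ 2 ≤ (0.62 * s ^ 2) ^ 2 := by
    rw [← sq_abs a]
    exact pow_le_pow_left₀ (abs_nonneg _) h2 2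
  have h7 : (0.62 * s ^ 2) ^ 2 ≤ (0.0001 * s) ^ 2 := by
    apply pow_le_pow_left₀ (by positivity)
    linarith
  have h8 : (0.999 * s) ^ 2 ≤ b ^ 2 := by
    have : 0 < s ^ 2 := pow_pos hs 2
    rw [mul_pow] at h1 h7 ⊢
    norm_num at h1 h7 ⊢
    linarith
  have h9 : (0.865 * s) ^ 2 ≤ (g * b) ^ 2 := by
    rw [mul_pow g, hg]
    have : 0 < s ^ 2 := pow_pos hs 2
    rw [mul_pow] at h8 ⊢
    norm_num at h8 ⊢
    linarith
  have h10 : 0.865 * s ≤ |g * b| := by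
    rw [← sq_abs (g * b)] at h9
    exact le_of_sq_le_sq h9 (abs_nonneg _)
  have h11 : 0.865 * s ≤ g * b := by
    rcases le_abs.1 h10 with h | h
    · exact h
    · exfalso
      linarith
  have h12 : |a * c| ≤ 0.0001 * s := by
    rw [abs_mul]
    have x1 : |a| * |c| ≤ (0.62 * s ^ 2) * 1.01 := mul_le_mul h2 h5 (abs_nonneg _) (by positivity)
    linarith
  have h13 := (abs_le.1 h12).1
  have h14 : 0.865 * s * 0.499 ≤ (g * b) * (g * d) := mul_le_mul h11 h4 (by norm_num) (by linarith)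
  have h15 : (g * b) * (g * d) = 3 / 4 * (b * d) := by
    calc (g * b) * (g * d) = g ^ 2 * (b * d) := by ring
      _ = _ := by rw [hg]
  rw [h15] at h14
  linarith

/-- A5 -/
theorem thresh (hW : S_wheel) (hS : S_square) : S_thresh := by
  intro s hs hs2 p a m hper h1 h2 h3 h4 hm j hj hmj hmj1 t T ht1 ht2 htp htm htT
  have hA4 := hS s hs.le (by linarith) p a m hper h1 h2 h3 h4 hm
  have hs3 : s ^ 2 ≤ 1/100000 * s := by nlinarith
  have hs0 : 0 < s ^ 2 := pow_pos hs 2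
  set ρ : ℕ → ℂ := fun k => a k - p with hρ
  have hlow : ∀ k, 1 - 200 * s ^ 2 ≤ ‖ρ k‖ := hA4.1
  have hup : ∀ k, ‖ρ k‖ ≤ 1 := h1
  have hD : ∀ k, |‖a k - p‖ - 1| ≤ 200 * s ^ 2 := by
    intro k
    have e1 : 1 - 200 * s ^ 2 ≤ ‖a k - p‖ := hlow k
    have e2 := h1 k
    rw [abs_le]
    constructor <;> linarith
  obtain ⟨σ, hσ1, hσ2⟩ := hW (200 * s ^ 2) (by positivity) (by linarith) p a hper hD h2 h3 h4
  have hσ := six_of hσ1
  have hst : ∀ k, ‖ρ (k + 1) - σ * ρ k‖ ≤ 20 * (200 * s ^ 2) := hσ2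
  have e30 := three_err hσ hst j
  have e20 := two_err hσ hst j
  have e10 := hst j
  by_contra hcon
  push Not at hcon
  -- norms of squares
  have hsq : ∀ k, 1 - 400 * s ^ 2 ≤ ‖ρ k‖ ^ 2 := by
    intro k
    have x1 : (1 - 200 * s ^ 2) ^ 2 ≤ ‖ρ k‖ ^ 2 := by
      apply pow_le_pow_left₀ _ (hlow k)
      linarith
    nlinarith [sq_nonneg (200 * s ^ 2)]
  have hsq1 : ∀ k, ‖ρ k‖ ^ 2 ≤ 1 := by
    intro k
    have := hup k
    exact pow_le_one₀ (norm_nonneg _) this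
  set v := m j - p with hv
  set τ := t - p with hτ
  set w := (starRingEnd ℂ) (ρ j) * v with hw
  set u := (starRingEnd ℂ) (ρ j) * τ with hu
  have hwn : ‖w‖ = ‖ρ j‖ * s := by rw [hw, norm_mul, norm_conj, hmj]
  have hτ1 : ‖τ‖ ≤ 1 + s / 10 := by
    have e1 : τ = (t - T) + (T - p) := by rw [hτ]; ring
    rw [e1]
    refine (norm_add_le _ _).trans ?_
    linarith
  have hτ2 : 1 < ‖τ‖ := htp
  have hτ3 : ‖τ‖ ≤ 1.01 := by linarith
  have hun : ‖u‖ ≤ 1.01 := by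
    rw [hu, norm_mul, norm_conj]
    calc ‖ρ j‖ * ‖τ‖ ≤ 1 * 1.01 := mul_le_mul (hup j) hτ3 (norm_nonneg _) (by norm_num)
      _ = 1.01 := by norm_num
  obtain ⟨b1, b2, b3⟩ := hm j hj
  have n0 : ‖v‖ = s := hmj
  -- j
  have f1 : w.re ≤ 0.62 * s ^ 2 := by
    have e1 : a j - m j = ρ j - v := by simp only [hρ, hv]; ring
    rw [e1] at b2
    have c1 := normsq_sub_dt (ρ j) v
    have c3 : 1 < ‖ρ j - v‖ ^ 2 := one_lt_pow₀ b2 two_ne_zero
    have c4 : dt (ρ j) v = w.re := by simp [dt, hw]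
    rw [c1, c4, n0] at c3
    linarith [hsq1 j]
  -- j + 3
  have f2 : - (0.62 * s ^ 2) ≤ w.re := by
    have e1 : a (j + 3) - m j = ρ (j + 3) - v := by simp only [hρ, hv]; ring
    rw [e1] at b3
    have c1 := normsq_sub_dt (ρ (j + 3)) v
    have c3 : 1 < ‖ρ (j + 3) - v‖ ^ 2 := one_lt_pow₀ b3 two_ne_zero
    have c4 : dt (ρ j) v = w.re := by simp [dt, hw]
    have c5 := dt_abs (ρ (j + 3) + ρ j) v
    rw [dt_add_left, c4, n0] at c5
    have c6 : ‖ρ (j + 3) + ρ j‖ * s ≤ (0.12 * s) * s := by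
      apply mul_le_mul_of_nonneg_right _ hs.le
      linarith
    have c7 := (abs_le.1 (c5.trans c6)).1
    rw [c1, n0] at c3
    have c8 := hsq1 (j + 3)
    have c9 : (0.12 * s) * s = 0.12 * s ^ 2 := by ring
    rw [c9] at c7
    linarith
  have f3 : |w.re| ≤ 0.62 * s ^ 2 := abs_le.2 ⟨f2, f1⟩
  -- j + 1
  have f4 : -(201 * s ^ 2) ≤ σ.im * w.im := by
    have e1 : m j - a (j + 1) = -(ρ (j + 1) - v) := by simp only [hρ, hv]; ring
    rw [e1, norm_neg] at hmj1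
    have c1 := normsq_sub_dt (ρ (j + 1)) v
    have c3 : ‖ρ (j + 1) - v‖ ^ 2 ≤ 1 := pow_le_one₀ (norm_nonneg _) hmj1
    have c5 := dt_abs (ρ (j + 1) - σ * ρ j) v
    rw [dt_sub_left, dt_conj, n0, hσ.re] at c5
    have c6 : ‖ρ (j + 1) - σ * ρ j‖ * s ≤ (0.04 * s) * s := by
      apply mul_le_mul_of_nonneg_right _ hs.le
      linarith
    have c7 := (abs_le.1 (c5.trans c6)).2
    rw [c1, n0] at c3
    have c8 := hsq (j + 1)
    have c9 : (0.04 * s) * s = 0.04 * s ^ 2 := by ring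
    rw [c9] at c7
    show -(201 * s ^ 2) ≤ σ.im * ((starRingEnd ℂ) (ρ j) * v).im
    have f1' : ((starRingEnd ℂ) (ρ j) * v).re ≤ 0.62 * s ^ 2 := f1
    linarith
  -- tau
  have g1 : 1/2 - 200 * s ^ 2 ≤ dt (ρ (j + 1)) τ := by
    have e1 : t - a (j + 1) = -(ρ (j + 1) - τ) := by simp only [hρ, hτ]; ring
    rw [e1, norm_neg] at ht1
    have c1 := normsq_sub_dt (ρ (j + 1)) τ
    have c3 : ‖ρ (j + 1) - τ‖ ^ 2 ≤ 1 := pow_le_one₀ (norm_nonneg _) ht1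
    have c4 := hsq (j + 1)
    have c5 : 1 < ‖τ‖ ^ 2 := one_lt_pow₀ hτ2 two_ne_zero
    linarith
  have g2 : 1/2 - 200 * s ^ 2 ≤ dt (ρ (j + 2)) τ := by
    have e1 : t - a (j + 2) = -(ρ (j + 2) - τ) := by simp only [hρ, hτ]; ring
    rw [e1, norm_neg] at ht2
    have c1 := normsq_sub_dt (ρ (j + 2)) τ
    have c3 : ‖ρ (j + 2) - τ‖ ^ 2 ≤ 1 := pow_le_one₀ (norm_nonneg _) ht2
    have c4 := hsq (j + 2)
    have c5 : 1 < ‖τ‖ ^ 2 := one_lt_pow₀ hτ2 two_ne_zero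
    linarith
  have g3 : 0.499 ≤ σ.im * u.im := by
    have c5 := dt_abs (ρ (j + 1) - σ * ρ j) τ
    have c6 := dt_abs (ρ (j + 2) - σ ^ 2 * ρ j) τ
    rw [dt_sub_left, dt_conj] at c5 c6
    have d1 : (σ ^ 2).re = -(1/2) := by
      have : (σ ^ 2).re = σ.re ^ 2 - σ.im ^ 2 := by
        simp only [pow_two, mul_re]
      rw [this, hσ.im, hσ.re]; norm_num
    have d2 : (σ ^ 2).im = σ.im := by
      have : (σ ^ 2).im = 2 * σ.re * σ.im := by
        simp only [pow_two, mul_im]; ring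
      rw [this, hσ.re]; ring
    rw [hσ.re] at c5
    rw [d1, d2] at c6
    have c7 : ‖ρ (j + 1) - σ * ρ j‖ * ‖τ‖ ≤ (0.0001) * 1.01 := by
      apply mul_le_mul _ hτ3 (norm_nonneg _) (by norm_num)
      linarith
    have c8 : ‖ρ (j + 2) - σ ^ 2 * ρ j‖ * ‖τ‖ ≤ (0.0001) * 1.01 := by
      apply mul_le_mul _ hτ3 (norm_nonneg _) (by norm_num)
      linarith
    have c9 := (abs_le.1 (c5.trans c7)).2
    have c10 := (abs_le.1 (c6.trans c8)).2
    show 0.499 ≤ σ.im * ((starRingEnd ℂ) (ρ j) * τ).im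
    linarith
  have g4 : |u.re| ≤ 1.01 := (abs_re_le_norm _).trans hun
  have g5 : w.re ^ 2 + w.im ^ 2 ≥ (0.9999 * s) ^ 2 := by
    have x1 : w.re ^ 2 + w.im ^ 2 = ‖w‖ ^ 2 := by
      rw [← normSq_eq_norm_sq, normSq_apply]; ring
    rw [x1, hwn]
    apply pow_le_pow_left₀ (by positivity)
    apply mul_le_mul_of_nonneg_right _ hs.le
    linarith [hlow j]
  have g6 := thresh_real hs hs2 hσ.im g5 f3 f4 g3 g4
  have g7 : w.re * u.re + w.im * u.im = ‖ρ j‖ ^ 2 * dt v τ := by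
    rw [← normSq_eq_norm_sq, normSq_apply]
    simp only [dt, hw, hu, mul_re, mul_im, conj_re, conj_im]
    ring
  rw [g7] at g6
  have g8 : 0 < dt v τ := by
    by_contra hc
    push Not at hc
    have : ‖ρ j‖ ^ 2 * dt v τ ≤ 0 := mul_nonpos_of_nonneg_of_nonpos (sq_nonneg _) hc
    linarith
  have g9 : ‖ρ j‖ ^ 2 * dt v τ ≤ 1 * dt v τ := mul_le_mul_of_nonneg_right (hsq1 j) g8.le
  have e1 : t - m j = τ - v := by simp only [hτ, hv]; ring
  rw [e1] at htm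
  have c1 := normsq_sub_dt τ v
  have c2 : dt τ v = dt v τ := by simp only [dt]; ring
  have c3 : 1 < ‖τ - v‖ ^ 2 := one_lt_pow₀ htm two_ne_zero
  have c4 : ‖τ‖ ^ 2 ≤ (1 + s / 10) ^ 2 := pow_le_pow_left₀ (norm_nonneg _) hτ1 2
  rw [c1, c2, n0] at c3
  nlinarith

end Run7.h840
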