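import Pool.Agent.Run7.h840.IfaceB
import Pool.Agent.Run7.h690.UD.A5

/-!
# Piece B1 (helper690): the spine
-/

set_option autoImplicit false
set_option linter.all false

namespace Run7.h840

open Complex

theorem tight_abs {P : Vx → ℂ} {c : Bool → Vx} {x : Vx} {E : ℝ} (h : Tight P c x)
    (hE : ‖P (c true) - P (c false)‖ ≤ E) : |‖P x - P (c true)‖ - 1| ≤ E := by
  obtain ⟨b, h1, h2⟩ := h
  have e1 := norm_sub_le_norm_sub_add_norm_sub (P (c true)) (P (c false)) (P x)
  have e2 := norm_sub_le_norm_sub_add_norm_sub (P (c false)) (P (c true)) (P x)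
  rw [norm_sub_rev (P (c false)) (P (c true))] at e2
  rw [norm_sub_rev, abs_le]
  cases b
  · simp only [Bool.not_false] at h2
    constructor <;> linarith [norm_nonneg (P (c true) - P (c false))]
  · simp only [Bool.not_true] at h2
    constructor <;> linarith [norm_nonneg (P (c true) - P (c false))]

theorem rims_per (y : Vx) (r : ℕ → Vx) (k : ℕ) : rims y r (k + 6) = rims y r k := by
  simp [rims, Nat.add_mod_right]

/-- two vertices which complete the same wheel are close -/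
theorem transfer (hW : S_wheel) {P : Vx → ℂ} {c : Bool → Vx} {y y' : Vx} {r : ℕ → Vx} {E : ℝ}
    (h : Wheel P c y r) (h' : Wheel P c y' r) (hE : ‖P (c true) - P (c false)‖ ≤ E)
    (hE2 : E ≤ 1 / 1000) : ‖P y - P y'‖ ≤ 40 * E := by
  have hE0 : 0 ≤ E := (norm_nonneg _).trans hE
  obtain ⟨σ, hσ, g⟩ := hW E hE0 hE2 (P (c true)) (fun k => P (rims y r k))
    (fun k => by simp only [rims_per]) (fun k => tight_abs (h.1 k) hE) h.2.1 h.2.2.1 h.2.2.2
  obtain ⟨σ', hσ', g'⟩ := hW E hE0 hE2 (P (c true)) (fun k => P (rims y' r k))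
    (fun k => by simp only [rims_per]) (fun k => tight_abs (h'.1 k) hE) h'.2.1 h'.2.2.1 h'.2.2.2
  have q0 : rims y r 0 = y := rfl
  have q1 : rims y r 1 = r 1 := rfl
  have q2 : rims y r 2 = r 2 := rfl
  have q0' : rims y' r 0 = y' := rfl
  have q1' : rims y' r 1 = r 1 := rfl
  have q2' : rims y' r 2 = r 2 := rfl
  have g0 := g 0
  have g1 := g 1
  have g0' := g' 0
  have g1' := g' 1
  have hr := tight_abs (h.1 1) hE
  simp only [zero_add, Nat.reduceAdd, q0, q1, q2, q0', q1', q2'] at g0 g1 g0' g1' hr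
  set C := P (c true) with hC
  have hr2 : 0.999 ≤ ‖P (r 1) - C‖ := by linarith [(abs_le.1 hr).1]
  have hss : ‖σ - σ'‖ * ‖P (r 1) - C‖ ≤ 40 * E := by
    rw [← norm_mul]
    have e1 : (σ - σ') * (P (r 1) - C) =
        ((P (r 2) - C) - σ' * (P (r 1) - C)) - ((P (r 2) - C) - σ * (P (r 1) - C)) := by ring
    rw [e1]
    refine (norm_sub_le _ _).trans ?_
    linarith
  have hss2 : ‖σ - σ'‖ ≤ 0.05 := by
    nlinarith [norm_nonneg (σ - σ'), norm_nonneg (P (r 1) - C)]
  have heq : σ = σ' := by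
    have h3 := sqrt3_bd.1
    rcases hσ with h1 | h1 <;> rcases hσ' with h2 | h2
    · rw [h1, h2]
    · exfalso
      have e1 : (σ - σ').im = Real.sqrt 3 := by
        rw [h1, h2]
        simp [om]
      have e2 := (abs_im_le_norm (σ - σ')).trans hss2
      rw [e1] at e2
      linarith [(abs_le.1 e2).2]
    · exfalso
      have e1 : (σ - σ').im = - Real.sqrt 3 := by
        rw [h1, h2]
        simp [om]
        ring
      have e2 := (abs_im_le_norm (σ - σ')).trans hss2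
      rw [e1] at e2
      linarith [(abs_le.1 e2).1]
    · rw [h1, h2]
  have hn : ‖σ‖ = 1 := (six_of hσ).nrm
  rw [← heq] at g0'
  have e1 : σ * (P y - P y') =
      ((P (r 1) - C) - σ * (P y' - C)) - ((P (r 1) - C) - σ * (P y - C)) := by ring
  have e2 : ‖P y - P y'‖ = ‖σ * (P y - P y')‖ := by rw [norm_mul, hn, one_mul]
  rw [e2, e1]
  refine (norm_sub_le _ _).trans ?_
  linarith

/-- the diameter of a cluster is at most `E` -/
def DB (P : Vx → ℂ) (i : ℕ) (E : ℝ) : Prop := ∀ x y, Cl i x → Cl i y → ‖P x - P y‖ ≤ E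

theorem DB.thk {P : Vx → ℂ} {i : ℕ} {E : ℝ} (h : DB P i E) : thk P 0 i ≤ E :=
  h _ _ (Or.inl ⟨true, rfl⟩) (Or.inl ⟨false, rfl⟩)

section facts

variable {σ : ℕ → ℕ → Bool} {mB nL : ℕ} {P : Vx → ℂ} (F : Facts σ mB nL P)
include F

theorem DB_step (hW : S_wheel) {i : ℕ} (hi : i < iendOf mB nL) {E : ℝ} (hE : thk P 0 (i + 1) ≤ E)
    (hE2 : E ≤ 1 / 1000) : DB P i (40 * E) := by
  intro x y hx hy
  exact transfer hW (F.whB i hi x hx) (F.whB i hi y hy) hE hE2

theorem DB_end (hR : S_ring) : DB P (iendOf mB nL) (5 / 10 ^ 12) := by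
  intro x y hx hy
  have hMR : 20 ≤ MR := by norm_num [MR]
  have hM0 : 0 < 6 * MR := by norm_num [MR]
  have h := hR MR hMR (fun i => P (.w (i % (6 * MR)))) (fun i => by simp only [Nat.add_mod_right])
    (fun i d h1 h2 => F.ring1 i d h1 h2) (P x) (P y)
    (fun i => F.ring2 _ (Nat.mod_lt _ hM0) x hx) (fun i => F.ring2 _ (Nat.mod_lt _ hM0) y hy)
  refine h.trans ?_
  rw [MR]
  norm_num

/-- the squaring step, sharp form -/
theorem thk_sq (hS : S_square) {i : ℕ} (hi : i ≤ iendOf mB nL) (hi2 : i % 4 = 2) {s : ℝ}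
    (hs : ∀ j < 3, ‖P (.m i j) - P (.g 0 i true)‖ ≤ s) (hs2 : s ≤ 1 / 1000) :
    thk P 0 i ≤ 200 * s ^ 2 := by
  have hs0 : 0 ≤ s := (norm_nonneg _).trans (hs 0 (by norm_num))
  have h := (hS s hs0 hs2 (P (.g 0 i true)) (fun k => P (.a i (k % 6))) (fun j => P (.m i j))
    (fun k => by simp only [Nat.add_mod_right])
    (fun k => F.sqa i hi hi2 _ (Nat.mod_lt _ (by norm_num)) true)
    (fun k => F.sqb i hi hi2 k) (fun k => F.sqc i hi hi2 k) (fun k => F.sqd i hi hi2 k)
    (fun j hj => ?_)).2 (P (.g 0 i false)) (fun k => F.sqa i hi hi2 _ (Nat.mod_lt _ (by norm_num)) false)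
  · rw [thk, norm_sub_rev]
    exact h
  · have h1 : j % 6 = j := Nat.mod_eq_of_lt (by omega)
    have h2 : (j + 3) % 6 = j + 3 := Nat.mod_eq_of_lt (by omega)
    have h3 := F.sqm i hi hi2 j hj
    simp only [h1, h2]
    exact ⟨hs j hj, h3.1, h3.2.1⟩

theorem DB_block (hW : S_wheel) (hS : S_square) {i : ℕ} (hi : i + 4 ≤ iendOf mB nL) (hi2 : i % 4 = 2)
    {E : ℝ} (hE0 : 0 ≤ E) (hE : DB P (i + 4) E) (hE2 : 512000000 * E ≤ 1 / 100) :
    DB P i (512000000 * E ^ 2) := by
  have h4 : thk P 0 (i + 4) ≤ 200 * E ^ 2 := by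
    apply thk_sq F hS hi (by omega)
    · intro j hj
      exact hE _ _ (Or.inr ⟨by omega, j, hj, rfl⟩) (Or.inl ⟨true, rfl⟩)
    · linarith
  have hE3 : 512000000 * E ^ 2 ≤ 1 / 1000 := by nlinarith
  have h3 := DB_step F hW (i := i + 3) (by omega) h4 (by linarith)
  have h2 := DB_step F hW (i := i + 2) (by omega) h3.thk (by linarith [sq_nonneg E])
  have h1 := DB_step F hW (i := i + 1) (by omega) h2.thk (by linarith [sq_nonneg E])
  have h0 := DB_step F hW (i := i) (by omega) h1.thk (by linarith [sq_nonneg E])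
  have e : 40 * (40 * (40 * (40 * (200 * E ^ 2)))) = 512000000 * E ^ 2 := by ring
  rw [e] at h0
  exact h0

theorem DB_iter (hR : S_ring) (hW : S_wheel) (hS : S_square) (n : ℕ) :
    ∀ i, i + 4 * n = iendOf mB nL → ∃ E, 0 ≤ E ∧ DB P i E ∧ 512000000 * E ≤ (1 / 100) ^ (2 ^ n) := by
  induction n with
  | zero =>
    intro i hi
    have h1 : i = iendOf mB nL := by omega
    rw [h1]
    exact ⟨5 / 10 ^ 12, by positivity, DB_end F hR, by norm_num⟩
  | succ n ih =>
    intro i hi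
    obtain ⟨E, h0, h1, h2⟩ := ih (i + 4) (by omega)
    have hi2 : i % 4 = 2 := by
      have : iendOf mB nL % 4 = 2 := by
        rw [iendOf]
        omega
      omega
    have h3 : (1 / 100 : ℝ) ^ (2 ^ n) ≤ 1 / 100 := by
      calc (1 / 100 : ℝ) ^ (2 ^ n) ≤ (1 / 100) ^ 1 :=
            pow_le_pow_of_le_one (by norm_num) (by norm_num) Nat.one_le_two_pow
        _ = 1 / 100 := pow_one _
    refine ⟨512000000 * E ^ 2, by positivity, DB_block F hW hS (by omega) hi2 h0 h1 (h2.trans h3), ?_⟩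
    calc 512000000 * (512000000 * E ^ 2) = (512000000 * E) ^ 2 := by ring
      _ ≤ ((1 / 100) ^ (2 ^ n)) ^ 2 := pow_le_pow_left₀ (by positivity) h2 2
      _ = (1 / 100) ^ (2 ^ (n + 1)) := by rw [← pow_mul, pow_succ]

end facts

/-- B1 -/
theorem B1 (hR : S_ring) (hW : S_wheel) (hS : S_square) (hT : S_thresh) : S_B1 := by
  intro σ mB nL P F p hp
  set N := mB + nL + 1 with hN
  have hm := F.hm
  have hn := F.hn
  set i := 4 * p + 2 with hi
  have hi4 : i % 4 = 2 := by omega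
  have hir : i ≤ irOf mB := by
    rw [irOf]; omega
  have hie : i ≤ iendOf mB nL := by
    rw [iendOf]; omega
  obtain ⟨E, hE0, hE1, hE2⟩ := DB_iter F hR hW hS (mB + nXof mB nL - 1 - p) i (by
    rw [iendOf]
    omega)
  -- the size of `E`
  have hE3 : E ≤ (1 / 10) ^ (150 * N) := by
    have a1 : 75 * N ≤ 2 ^ (mB + nXof mB nL - 1 - p) := by
      have a2 : 100 * N ≤ mB + nXof mB nL - 1 - p := by
        rw [nXof]
        omega
      calc 75 * N ≤ mB + nXof mB nL - 1 - p := by omega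
        _ ≤ 2 ^ (mB + nXof mB nL - 1 - p) := Nat.lt_two_pow_self.le
    have a3 : (1 / 100 : ℝ) ^ (2 ^ (mB + nXof mB nL - 1 - p)) ≤ (1 / 100) ^ (75 * N) :=
      pow_le_pow_of_le_one (by norm_num) (by norm_num) a1
    have a4 : (1 / 100 : ℝ) ^ (75 * N) = (1 / 10) ^ (150 * N) := by
      rw [show (1 / 100 : ℝ) = (1 / 10) ^ 2 by norm_num, ← pow_mul]
      congr 1
      ring
    linarith
  -- the number `s`
  obtain ⟨s, j0, hj0, hs1, hs2⟩ : ∃ s : ℝ, ∃ j0 < 3, ‖P (.m i j0) - P (.g 0 i true)‖ = s ∧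
      ∀ j < 3, ‖P (.m i j) - P (.g 0 i true)‖ ≤ s := by
    obtain ⟨j0, hj0, hmax⟩ := Finset.exists_max_image (Finset.range 3)
      (fun j => ‖P (.m i j) - P (.g 0 i true)‖) ⟨0, by simp⟩
    exact ⟨_, j0, Finset.mem_range.1 hj0, rfl, fun j hj => hmax j (Finset.mem_range.2 hj)⟩
  have hs0 : 0 < s := by
    have b1 := (F.sqm i hie hi4 0 (by norm_num)).1
    have b2 := F.sqa i hie hi4 0 (by norm_num) true
    have b3 := norm_sub_le_norm_sub_add_norm_sub (P (.a i 0)) (P (.g 0 i true)) (P (.m i 0))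
    have b4 := hs2 0 (by norm_num)
    rw [norm_sub_rev] at b4
    linarith
  have hsE : s ≤ E := by
    rw [← hs1]
    exact hE1 _ _ (Or.inr ⟨hi4, j0, hj0, rfl⟩) (Or.inl ⟨true, rfl⟩)
  have hs3 : s ≤ (1 / 10) ^ (150 * N) := hsE.trans hE3
  have hN3 : 3 ≤ N := by omega
  -- all powers are small
  have hsmall : ∀ q : ℕ, q ≤ 50 * N → 40 ^ q * 200 * s ^ 2 ≤ 1 / 1000 := by
    intro q hq
    have c1 : (40 : ℝ) ^ q ≤ 10 ^ (100 * N) := by
      calc (40 : ℝ) ^ q ≤ 40 ^ (50 * N) := pow_le_pow_right₀ (by norm_num) hq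
        _ ≤ (10 ^ 2) ^ (50 * N) := pow_le_pow_left₀ (by norm_num) (by norm_num) _
        _ = 10 ^ (100 * N) := by rw [← pow_mul]; congr 1; ring
    have c2 : s ^ 2 ≤ (1 / 10) ^ (150 * N) * (1 / 10) ^ (150 * N) := by
      rw [pow_two]
      exact mul_le_mul hs3 hs3 hs0.le (by positivity)
    have c3 : (10 : ℝ) ^ (100 * N) * (1 / 10) ^ (150 * N) ≤ 1 := by
      calc (10 : ℝ) ^ (100 * N) * (1 / 10) ^ (150 * N) ≤ (10 : ℝ) ^ (150 * N) * (1 / 10) ^ (150 * N) := by
            apply mul_le_mul_of_nonneg_right _ (by positivity)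
            exact pow_le_pow_right₀ (by norm_num) (by omega)
        _ = 1 := by rw [← mul_pow]; norm_num
    have c4 : (1 / 10 : ℝ) ^ (150 * N) ≤ (1 / 10) ^ 10 :=
      pow_le_pow_of_le_one (by norm_num) (by norm_num) (by omega)
    calc 40 ^ q * 200 * s ^ 2 ≤ 10 ^ (100 * N) * 200 * ((1 / 10) ^ (150 * N) * (1 / 10) ^ (150 * N)) := by
          gcongr
      _ = ((10 : ℝ) ^ (100 * N) * (1 / 10) ^ (150 * N)) * (200 * (1 / 10) ^ (150 * N)) := by ring
      _ ≤ 1 * (200 * (1 / 10) ^ 10) := by gcongr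
      _ ≤ 1 / 1000 := by norm_num
  have hs10 : s ≤ (1 / 10) ^ 10 := by
    refine hs3.trans ?_
    exact pow_le_pow_of_le_one (by norm_num) (by norm_num) (by omega)
  have hs1000 : s ≤ 1 / 1000 := hs10.trans (by norm_num)
  have hs100000 : s ≤ 1 / 100000 := hs10.trans (by norm_num)
  have hbase : thk P 0 i ≤ 200 * s ^ 2 := thk_sq F hS hie hi4 hs2 hs1000
  -- bottom spine
  have hbot : ∀ q, q ≤ i → thk P 0 (i - q) ≤ 40 ^ q * 200 * s ^ 2 := by
    intro q
    induction q with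
    | zero =>
      intro _
      rw [Nat.sub_zero, pow_zero, one_mul]
      exact hbase
    | succ q ih =>
      intro hq
      have d1 := ih (by omega)
      have d2 : i - q = (i - (q + 1)) + 1 := by omega
      rw [d2] at d1
      have d3 := DB_step F hW (i := i - (q + 1)) (by omega) d1 (hsmall q (by omega))
      refine d3.thk.trans (le_of_eq ?_)
      rw [pow_succ]
      ring
  have hpow : ∀ a b : ℕ, a ≤ b → (40 : ℝ) ^ a * 200 * s ^ 2 ≤ 40 ^ b * 200 * s ^ 2 := by
    intro a b hab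
    have := pow_le_pow_right₀ (show (1 : ℝ) ≤ 40 by norm_num) hab
    gcongr
  have hbot2 : ∀ i' ≤ i, thk P 0 i' ≤ 40 ^ i * 200 * s ^ 2 := by
    intro i' hi'
    have := hbot (i - i') (by omega)
    rw [show i - (i - i') = i' by omega] at this
    exact this.trans (hpow _ _ (by omega))
  -- left spine
  have hleft : ∀ l, l < 8 * nL → thk P l 0 ≤ 40 ^ (i + l) * 200 * s ^ 2 := by
    intro l
    induction l with
    | zero =>
      intro _
      exact hbot2 0 (by omega)
    | succ l ih =>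
      intro hl
      have d1 := ih (by omega)
      have d2 := transfer hW (F.whK l true hl) (F.whK l false hl) d1 (hsmall _ (by omega))
      refine d2.trans (le_of_eq ?_)
      rw [← add_assoc, pow_succ]
      ring
  refine ⟨s, hs0, hs3, hbot2, hleft, ?_⟩
  -- the threshold
  have h1 : ∀ j, j < 3 → j % 6 = j := fun j hj => Nat.mod_eq_of_lt (by omega)
  have h2 : ∀ j, j < 3 → (j + 3) % 6 = j + 3 := fun j hj => Nat.mod_eq_of_lt (by omega)
  have h3 : (j0 + 1) % 6 = j0 + 1 := Nat.mod_eq_of_lt (by omega)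
  have h4 : (j0 + 2) % 6 = j0 + 2 := Nat.mod_eq_of_lt (by omega)
  have ht := F.thr i hir hi4 j0 hj0
  exact hT s hs0 hs100000 (P (.g 0 i true)) (fun k => P (.a i (k % 6))) (fun j => P (.m i j))
    (fun k => by simp only [Nat.add_mod_right])
    (fun k => F.sqa i hie hi4 _ (Nat.mod_lt _ (by norm_num)) true)
    (fun k => F.sqb i hie hi4 k) (fun k => F.sqc i hie hi4 k) (fun k => F.sqd i hie hi4 k)
    (fun j hj => by
      have h5 := F.sqm i hie hi4 j hj
      simp only [h1 j hj, h2 j hj]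
      exact ⟨hs2 j hj, h5.1, h5.2.1⟩)
    j0 hj0 hs1 (by simp only [h3]; exact (F.sqm i hie hi4 j0 hj0).2.2)
    (P (.t i j0)) (P (.gp 0 i true))
    (by simp only [h3]; exact ht.1) (by simp only [h4]; exact ht.2.1) ht.2.2.1 ht.2.2.2.1 ht.2.2.2.2

end Run7.h840
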