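import Pool.Agent.Run7.h690.UD.B1

/-!
# Piece B3 (helper690): the primed nodes
-/

set_option autoImplicit false
set_option linter.all false

namespace Run7.h840

open Complex

theorem Six.sq_re {σ : ℂ} (h : Six σ) : (σ ^ 2).re = -(1/2) := by
  have : (σ ^ 2).re = σ.re ^ 2 - σ.im ^ 2 := by
    simp only [pow_two, mul_re]
  rw [this, h.im, h.re]; norm_num

theorem Six.sq_im {σ : ℂ} (h : Six σ) : (σ ^ 2).im = σ.im := by
  have : (σ ^ 2).im = 2 * σ.re * σ.im := by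
    simp only [pow_two, mul_im]; ring
  rw [this, h.re]; ring

theorem pow_err {ρ : ℕ → ℂ} {σ : ℂ} (hσ : ‖σ‖ = 1) {E : ℝ} (h : ∀ k, ‖ρ (k + 1) - σ * ρ k‖ ≤ E)
    (k : ℕ) : ‖ρ k - σ ^ k * ρ 0‖ ≤ k * E := by
  induction k with
  | zero => simp
  | succ k ih =>
    have e1 : ρ (k + 1) - σ ^ (k + 1) * ρ 0 =
        (ρ (k + 1) - σ * ρ k) + σ * (ρ k - σ ^ k * ρ 0) := by ring
    rw [e1]
    refine (norm_add_le _ _).trans ?_
    rw [norm_mul, hσ, one_mul]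
    push_cast
    linarith [h k]

/-- real computation -/
theorem b3_real {b1 b2 q n r : ℝ} (hq : q ^ 2 = 3 / 4) (hn0 : 0 ≤ n) (hn : n ≤ 1)
    (h2 : n - 1 / 10 ^ 4 ≤ b1 - 2 * (q * b2)) (hr1 : r ≤ 1 + 1 / 10 ^ 4) (hr0 : 0 ≤ r)
    (hb : b1 ^ 2 + b2 ^ 2 = r * n) : -0.55 ≤ b1 := by
  by_contra hcon
  push Not at hcon
  set t := -b1 with ht
  have t1 : 0.55 < t := by rw [ht]; linarith
  have hb1 : b1 ^ 2 = t ^ 2 := by rw [ht]; ring
  have k1 : n + t - 1 / 10 ^ 4 ≤ -(2 * (q * b2)) := by rw [ht]; linarith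
  have k2 : (n + t - 1 / 10 ^ 4) ^ 2 ≤ (-(2 * (q * b2))) ^ 2 := by
    apply pow_le_pow_left₀ _ k1
    linarith
  have k3 : (-(2 * (q * b2))) ^ 2 = 3 * b2 ^ 2 := by
    have : (-(2 * (q * b2))) ^ 2 = 4 * (q ^ 2 * b2 ^ 2) := by ring
    rw [this, hq]; ring
  have k4 : r * n ≤ n + 1 / 10 ^ 4 := by nlinarith
  have k5 : b2 ^ 2 ≤ n + 1 / 10 ^ 4 - t ^ 2 := by linarith
  rw [k3] at k2
  have k6 : t ^ 2 ≤ 1.1 := by nlinarith [sq_nonneg b2]
  have k7 : t ≤ 1.1 := by nlinarith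
  have k8 : (n + t - 1 / 10 ^ 4) ^ 2 ≥ (n + t) ^ 2 - 1 / 10 ^ 3 := by nlinarith
  have k9 : 0 ≤ (n - (3 - 2 * t) / 2) ^ 2 := sq_nonneg _
  nlinarith

/-- the two members of the primed pair are close -/
theorem primed_thin (hC : S_twocircle) {E : ℝ} (hE0 : 0 ≤ E) (hE : E ≤ 1 / 10 ^ 8)
    {σ T a b x y ρ2 ρ4 ρ5 : ℂ} (hσ : Six σ)
    (hr : |‖a - T‖ - 1| ≤ E) (hn4 : |‖ρ4 - T‖ - 1| ≤ E) (hn5 : |‖ρ5 - T‖ - 1| ≤ E)
    (h2 : ‖(ρ2 - T) - σ ^ 2 * (a - T)‖ ≤ 100 * E)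
    (h4 : ‖(ρ4 - T) - σ ^ 4 * (a - T)‖ ≤ 100 * E)
    (h5 : ‖(ρ5 - T) - σ ^ 5 * (a - T)‖ ≤ 100 * E)
    (hB : ‖b - T‖ ≤ 1) (hB4 : ‖b - ρ4‖ ≤ 1) (hB5 : ‖b - ρ5‖ ≤ 1) (hBa : 1 < ‖b - a‖)
    (hxa : |‖x - a‖ - 1| ≤ 40 * E) (hxb : |‖x - b‖ - 1| ≤ 40 * E)
    (hya : |‖y - a‖ - 1| ≤ 40 * E) (hyb : |‖y - b‖ - 1| ≤ 40 * E)
    (hx2 : ‖x - ρ2‖ ≤ 1) (hy2 : ‖y - ρ2‖ ≤ 1) : ‖x - y‖ ≤ 400 * E := by
  set r := a - T with hrdef
  set B := b - T with hBdef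
  set B' := (starRingEnd ℂ) r * B with hB'
  set b1 := B'.re with hb1
  set b2 := B'.im with hb2
  set q := σ.im with hq
  have hq2 : q ^ 2 = 3 / 4 := hσ.im
  have hr1 := abs_le.1 hr
  have hr0 : 0 ≤ ‖r‖ := norm_nonneg _
  have hrsq1 : ‖r‖ ^ 2 ≤ 1 + 1 / 10 ^ 4 := by nlinarith
  have hrsq2 : 1 - 1 / 10 ^ 4 ≤ ‖r‖ ^ 2 := by nlinarith
  have hBn0 : 0 ≤ ‖B‖ := norm_nonneg _
  have hBn1 : ‖B‖ ^ 2 ≤ 1 := pow_le_one₀ hBn0 hB
  have hbb : b1 ^ 2 + b2 ^ 2 = ‖r‖ ^ 2 * ‖B‖ ^ 2 := by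
    have e1 : b1 ^ 2 + b2 ^ 2 = ‖B'‖ ^ 2 := by
      rw [← normSq_eq_norm_sq, normSq_apply]; ring
    rw [e1, hB', norm_mul, norm_conj, mul_pow]
  -- dt r B
  have d0 : dt r B = b1 := by
    simp [dt, hb1, hB']
  have d1 : dt (σ * r) B = 1/2 * b1 + q * b2 := by rw [dt_conj, hσ.re]
  have d2 : dt (σ ^ 2 * r) B = -(1/2) * b1 + q * b2 := by rw [dt_conj, hσ.sq_re, hσ.sq_im]
  have d4 : dt (σ ^ 4 * r) B = -(1/2 * b1 + q * b2) := by
    have : σ ^ 4 * r = - (σ * r) := by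
      have := hσ.cube
      linear_combination (σ * r) * this
    rw [this, dt_neg_left, d1]
  have d5 : dt (σ ^ 5 * r) B = -(-(1/2) * b1 + q * b2) := by
    have : σ ^ 5 * r = - (σ ^ 2 * r) := by
      have := hσ.cube
      linear_combination (σ ^ 2 * r) * this
    rw [this, dt_neg_left, d2]
  -- (i), (ii)
  have key : ∀ (ρ τ : ℂ), |‖ρ - T‖ - 1| ≤ E → ‖(ρ - T) - τ * r‖ ≤ 100 * E → ‖b - ρ‖ ≤ 1 →
      ‖B‖ ^ 2 - 1 / 10 ^ 5 ≤ 2 * dt (τ * r) B := by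
    intro ρ τ g1 g2 g3
    have e1 : b - ρ = -((ρ - T) - B) := by rw [hBdef]; ring
    rw [e1, norm_neg] at g3
    have e2 := normsq_sub_dt (ρ - T) B
    have e3 : ‖(ρ - T) - B‖ ^ 2 ≤ 1 := pow_le_one₀ (norm_nonneg _) g3
    have e4 := dt_abs ((ρ - T) - τ * r) B
    rw [dt_sub_left] at e4
    have e5 : ‖(ρ - T) - τ * r‖ * ‖B‖ ≤ (100 * E) * 1 :=
      mul_le_mul g2 hB (norm_nonneg _) (by linarith)
    have e6 := (abs_le.1 (e4.trans e5)).2
    have e7 := (abs_le.1 g1).1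
    have e8 : 1 - 2 * E ≤ ‖ρ - T‖ ^ 2 := by nlinarith [norm_nonneg (ρ - T)]
    linarith
  have f4 := key ρ4 (σ ^ 4) hn4 h4 hB4
  have f5 := key ρ5 (σ ^ 5) hn5 h5 hB5
  rw [d4] at f4
  rw [d5] at f5
  have hb1' : -0.55 ≤ b1 := b3_real hq2 (sq_nonneg ‖B‖) hBn1 (by linarith) hrsq1 (sq_nonneg _) hbb
  have hqb : - (1 / 10 ^ 5) ≤ -(2 * (q * b2)) := by nlinarith [sq_nonneg ‖B‖]
  -- distance of a and b
  have hab : ‖a - b‖ ^ 2 ≤ 3.11 := by
    have e1 : a - b = r - B := by rw [hrdef, hBdef]; ring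
    rw [e1, normsq_sub_dt, d0]
    linarith
  have hab1 : ‖a - b‖ ≤ 9 / 5 := by
    by_contra hc
    push Not at hc
    nlinarith
  have hab2 : 1 < ‖a - b‖ := by rw [norm_sub_rev]; exact hBa
  rcases hC (40 * E) (by linarith) (by linarith) a b x y (by linarith) hab1 hxa hxb hya hyb with h | h
  · linarith
  · exfalso
    have e1 : ‖(r + B) - 2 * (ρ2 - T)‖ ≤ 2.1 := by
      have e2 : (r + B) - 2 * (ρ2 - T) = ((x - ρ2) + (y - ρ2)) - (x + y - a - b) := by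
        rw [hrdef, hBdef]; ring
      rw [e2]
      refine (norm_sub_le _ _).trans ?_
      have e3 := norm_add_le (x - ρ2) (y - ρ2)
      linarith
    have e2 : ‖(r + B) - 2 * (σ ^ 2 * r)‖ ≤ 2.11 := by
      have e3 : (r + B) - 2 * (σ ^ 2 * r) =
          ((r + B) - 2 * (ρ2 - T)) + 2 * ((ρ2 - T) - σ ^ 2 * r) := by ring
      rw [e3]
      refine (norm_add_le _ _).trans ?_
      rw [norm_mul]
      have : ‖(2 : ℂ)‖ = 2 := by simp
      rw [this]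
      linarith
    have e3 : ‖(starRingEnd ℂ) r * ((r + B) - 2 * (σ ^ 2 * r))‖ ^ 2 ≤ 4.5 := by
      rw [norm_mul, norm_conj, mul_pow]
      have e4 : ‖(r + B) - 2 * (σ ^ 2 * r)‖ ^ 2 ≤ 2.11 ^ 2 := pow_le_pow_left₀ (norm_nonneg _) e2 2
      have e5 : ‖r‖ ^ 2 * ‖(r + B) - 2 * (σ ^ 2 * r)‖ ^ 2 ≤ (1 + 1 / 10 ^ 4) * 2.11 ^ 2 :=
        mul_le_mul hrsq1 e4 (sq_nonneg _) (by norm_num)
      refine e5.trans (by norm_num)
    set R := ‖r‖ ^ 2 with hR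
    have e6 : (starRingEnd ℂ) r * ((r + B) - 2 * (σ ^ 2 * r)) =
        ((R : ℝ) : ℂ) + B' - 2 * σ ^ 2 * ((R : ℝ) : ℂ) := by
      have e7 : (starRingEnd ℂ) r * r = ((R : ℝ) : ℂ) := by
        rw [mul_comm, mul_conj, normSq_eq_norm_sq]
      rw [← e7, hB']
      ring
    rw [e6, ← normSq_eq_norm_sq, normSq_apply] at e3
    have r1 : (((R : ℝ) : ℂ) + B' - 2 * σ ^ 2 * ((R : ℝ) : ℂ)).re = 2 * R + b1 := by
      have : (((R : ℝ) : ℂ) + B' - 2 * σ ^ 2 * ((R : ℝ) : ℂ)).re = R + b1 - 2 * (σ ^ 2).re * R := by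
        simp [hb1]
      rw [this, hσ.sq_re]; ring
    have r2 : (((R : ℝ) : ℂ) + B' - 2 * σ ^ 2 * ((R : ℝ) : ℂ)).im = b2 - 2 * q * R := by
      have : (((R : ℝ) : ℂ) + B' - 2 * σ ^ 2 * ((R : ℝ) : ℂ)).im = b2 - 2 * (σ ^ 2).im * R := by
        simp [hb2]
      rw [this, hσ.sq_im]
    rw [r1, r2] at e3
    have t1 : (1.44 : ℝ) * 1.44 ≤ (2 * R + b1) * (2 * R + b1) :=
      mul_le_mul (by linarith) (by linarith) (by norm_num) (by linarith)
    have t2 : (b2 - 2 * q * R) * (b2 - 2 * q * R) = b2 ^ 2 + 2 * R * (-(2 * (q * b2))) + 4 * q ^ 2 * R ^ 2 := by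
      ring
    rw [t2, hq2] at e3
    have t3 : -(1 / 10 ^ 4) ≤ 2 * R * (-(2 * (q * b2))) := by
      have : 2 * R * (-(1 / 10 ^ 5)) ≤ 2 * R * (-(2 * (q * b2))) :=
        mul_le_mul_of_nonneg_left hqb (by positivity)
      linarith
    have t4 : (0.99 : ℝ) ≤ R ^ 2 := by nlinarith
    nlinarith [sq_nonneg b2]

section facts

variable {σ : ℕ → ℕ → Bool} {mB nL : ℕ} {P : Vx → ℂ} (F : Facts σ mB nL P)
include F

/-- the primed pair at the bottom is thin -/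
theorem primed0 (hC : S_twocircle) (hW : S_wheel) {p : ℕ} (hp : p < mB) {E : ℝ} (hE0 : 0 ≤ E)
    (hE : E ≤ 1 / 10 ^ 8) (hthk : ∀ l < 8 * nL, ∀ i ≤ 4 * p + 2, thk P l i ≤ E) :
    ‖P (.gp 0 (4 * p + 2) true) - P (.gp 0 (4 * p + 2) false)‖ ≤ 400 * E := by
  have hm := F.hm
  have hn := F.hn
  have hir : 4 * p + 2 ≤ irOf mB := by
    rw [irOf]; omega
  have h4 : (4 * p + 2) % 4 = 2 := by omega
  have e1 : 4 * p + 2 - 1 = 4 * p + 1 := rfl
  have e2 : 4 * p + 2 - 2 = 4 * p := rfl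
  -- the pair `h`
  have hh : ‖P (.h (4 * p) true) - P (.h (4 * p) false)‖ ≤ 40 * E :=
    transfer hW (F.whH (4 * p) true (by omega) hir) (F.whH (4 * p) false (by omega) hir)
      (hthk 2 (by omega) (4 * p) (by omega)) (by linarith)
  -- the wheel
  have hwh := F.whB (4 * p + 1) (by rw [iendOf, nXof]; omega) (.g 0 (4 * p + 1) true)
    (Or.inl ⟨true, rfl⟩)
  have ht2 := hthk 0 (by omega) (4 * p + 2) le_rfl
  obtain ⟨τ, hτ, g⟩ := hW E hE0 (by linarith) (P (.g 0 (4 * p + 2) true))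
    (fun k => P (rims (.g 0 (4 * p + 1) true) (.bd (4 * p + 2)) k))
    (fun k => by simp only [rims_per]) (fun k => tight_abs (hwh.1 k) ht2)
    hwh.2.1 hwh.2.2.1 hwh.2.2.2
  have hσ := six_of hτ
  have g' := pow_err (ρ := fun k => P (rims (.g 0 (4 * p + 1) true) (.bd (4 * p + 2)) k) -
    P (.g 0 (4 * p + 2) true)) hσ.nrm g
  have g2 := g' 2
  have g4 := g' 4
  have g5 := g' 5
  have q0 : rims (.g 0 (4 * p + 1) true) (.bd (4 * p + 2)) 0 = .g 0 (4 * p + 1) true := rfl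
  have q2 : rims (.g 0 (4 * p + 1) true) (.bd (4 * p + 2)) 2 = .bd (4 * p + 2) 2 := rfl
  have q4 : rims (.g 0 (4 * p + 1) true) (.bd (4 * p + 2)) 4 = .bd (4 * p + 2) 4 := rfl
  have q5 : rims (.g 0 (4 * p + 1) true) (.bd (4 * p + 2)) 5 = .bd (4 * p + 2) 5 := rfl
  have t0 := tight_abs (hwh.1 0) ht2
  have t4 := tight_abs (hwh.1 4) ht2
  have t5 := tight_abs (hwh.1 5) ht2
  simp only [q0, q2, q4, q5] at g2 g4 g5 t0 t4 t5
  push_cast at g2 g4 g5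
  obtain ⟨p1, p2, p3, p4⟩ := F.pr1 (4 * p + 2) h4 hir
  simp only [e1, e2] at p1 p2 p3 p4
  have ht1 := hthk 0 (by omega) (4 * p + 1) (by omega)
  have hH : ∀ b, |‖P (.gp 0 (4 * p + 2) b) - P (.g 0 (4 * p + 1) true)‖ - 1| ≤ 40 * E := by
    intro b
    exact (tight_abs (F.prH (4 * p + 2) b h4 hir) ht1).trans (by linarith)
  have hh' : ∀ b, |‖P (.gp 0 (4 * p + 2) b) - P (.h (4 * p) true)‖ - 1| ≤ 40 * E := by
    intro b
    exact tight_abs (F.prh (4 * p + 2) b h4 hir) hh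
  exact primed_thin hC hE0 hE hσ t0 t4 t5 (g2.trans (by linarith)) (g4.trans (by linarith))
    (g5.trans (by linarith)) p1 p2 p3 p4 (hH true) (hh' true) (hH false) (hh' false)
    (F.pr2 _ true h4 hir) (F.pr2 _ false h4 hir)

end facts

/-- B3 -/
theorem B3 (hCell : S_cell) (hC : S_twocircle) (hW : S_wheel) : S_B3 := by
  intro σ mB nL P F p hp E hE0 hE hthk
  have hm := F.hm
  have hn := F.hn
  have hir : 4 * p + 2 ≤ irOf mB := by
    rw [irOf]; omega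
  have h4 : (4 * p + 2) % 4 = 2 := by omega
  have e1 : 4 * p + 2 - 1 = 4 * p + 1 := rfl
  have hpow : ∀ l, l < 8 * nL → (20 : ℝ) ^ l * (400 * E) ≤ 1 / 1000 := by
    intro l hl
    have a1 : (20 : ℝ) ^ l ≤ 100 ^ (8 * nL) := by
      calc (20 : ℝ) ^ l ≤ 100 ^ l := pow_le_pow_left₀ (by norm_num) (by norm_num) _
        _ ≤ 100 ^ (8 * nL) := pow_le_pow_right₀ (by norm_num) hl.le
    have a2 : (20 : ℝ) ^ l * E ≤ 100 ^ (8 * nL) * E := mul_le_mul_of_nonneg_right a1 hE0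
    linarith
  have hE1 : E ≤ 1 / 10 ^ 8 := by
    have a1 : (1 : ℝ) ≤ 100 ^ (8 * nL) := one_le_pow₀ (by norm_num)
    nlinarith
  -- sides next to the column `i - 1`
  have hside : ∀ l, l < 8 * nL → ∀ b,
      |‖P (.gp l (4 * p + 2) b) - P (.g l (4 * p + 1) true)‖ - 1| ≤ E := by
    intro l hl b
    have ht := hthk l hl (4 * p + 1) (by omega)
    rcases Nat.eq_zero_or_pos l with h | h
    · subst h
      exact tight_abs (F.prH (4 * p + 2) b h4 hir) ht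
    · exact tight_abs (F.prR l (4 * p + 2) b h4 hir h hl) ht
  -- one step
  have hstep : ∀ l, l + 1 < 8 * nL → ∀ τ : ℝ, E ≤ τ → τ ≤ 1 / 1000 →
      ‖P (.gp l (4 * p + 2) true) - P (.gp l (4 * p + 2) false)‖ ≤ τ → ∀ b,
      ‖P (.gp (l + 1) (4 * p + 2) b) - (P (.gp l (4 * p + 2) true) + P (.g (l + 1) (4 * p + 1) true) -
        P (.g l (4 * p + 1) true))‖ ≤ 10 * τ := by
    intro l hl τ hτ hτ2 hth b
    have d1 := F.prd1 l (4 * p + 2) h4 hir hl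
    have d2 := F.prd2 l (4 * p + 2) b h4 hir hl
    simp only [e1] at d1 d2
    rw [norm_sub_rev] at d2
    exact hCell τ (hE0.trans hτ) hτ2 _ _ _ _ d1 d2
      ((hside l (by omega) true).trans hτ)
      ((tight_abs (F.colT l (4 * p + 1) true hl (by omega)) (hthk l (by omega) _ (by omega))).trans hτ)
      (tight_abs (F.prC l (4 * p + 2) b h4 hir hl) hth)
      ((hside (l + 1) hl b).trans hτ)
  -- thickness
  have hT : ∀ l, l < 8 * nL →
      ‖P (.gp l (4 * p + 2) true) - P (.gp l (4 * p + 2) false)‖ ≤ 20 ^ l * (400 * E) := by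
    intro l
    induction l with
    | zero =>
      intro _
      rw [pow_zero, one_mul]
      exact primed0 F hC hW hp hE0 hE1 hthk
    | succ l ih =>
      intro hl
      have hEτ : E ≤ 20 ^ l * (400 * E) := by
        have : (1 : ℝ) ≤ 20 ^ l := one_le_pow₀ (by norm_num)
        nlinarith
      have s1 := hstep l hl _ hEτ (hpow l (by omega)) (ih (by omega)) true
      have s2 := hstep l hl _ hEτ (hpow l (by omega)) (ih (by omega)) false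
      rw [norm_sub_rev] at s2
      refine (norm_sub_le_norm_sub_add_norm_sub _ _ _).trans ((add_le_add s1 s2).trans (le_of_eq ?_))
      rw [pow_succ]
      ring
  intro l
  induction l with
  | zero =>
    intro _
    have : P (.gp 0 (4 * p + 2) true) - (P (.gp 0 (4 * p + 2) true) +
      P (.g 0 (4 * p + 1) true) - P (.g 0 (4 * p + 1) true)) = 0 := by ring
    rw [this, norm_zero]
    positivity
  | succ l ih =>
    intro hl
    have hEτ : E ≤ 20 ^ l * (400 * E) := by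
      have : (1 : ℝ) ≤ 20 ^ l := one_le_pow₀ (by norm_num)
      nlinarith
    have s1 := hstep l hl _ hEτ (hpow l (by omega)) (hT l (by omega)) true
    have s2 := ih (by omega)
    have e3 : P (.gp (l + 1) (4 * p + 2) true) - (P (.gp 0 (4 * p + 2) true) +
        P (.g (l + 1) (4 * p + 1) true) - P (.g 0 (4 * p + 1) true)) =
        (P (.gp (l + 1) (4 * p + 2) true) - (P (.gp l (4 * p + 2) true) +
          P (.g (l + 1) (4 * p + 1) true) - P (.g l (4 * p + 1) true))) +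
        (P (.gp l (4 * p + 2) true) - (P (.gp 0 (4 * p + 2) true) +
          P (.g l (4 * p + 1) true) - P (.g 0 (4 * p + 1) true))) := by ring
    rw [e3]
    refine (norm_add_le _ _).trans ((add_le_add s1 s2).trans ?_)
    have a1 : (20 : ℝ) ^ l ≤ 100 ^ l := pow_le_pow_left₀ (by norm_num) (by norm_num) _
    have a2 : (20 : ℝ) ^ l * E ≤ 100 ^ l * E := mul_le_mul_of_nonneg_right a1 hE0
    have a3 : 0 ≤ (100 : ℝ) ^ l * E := by positivity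
    rw [pow_succ, pow_succ, pow_succ]
    nlinarith

end Run7.h840
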