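import Pool.Agent.Run7.h840.IfaceC

/-!
# Tools for the pieces C5 (helper690): first order comparison of distances
-/

set_option autoImplicit false
set_option linter.all false

namespace Run7.h690.UD

open Complex Run7.h840

theorem dt_abs' (x y : ℂ) : |dt x y| ≤ ‖x‖ * ‖y‖ := by
  have h1 : dt x y = ((starRingEnd ℂ) x * y).re := by
    simp [dt]
  rw [h1]
  refine (abs_re_le_norm _).trans ?_
  rw [norm_mul, norm_conj]

theorem normsq_add (x y : ℂ) : ‖x + y‖ ^ 2 = ‖x‖ ^ 2 + 2 * dt x y + ‖y‖ ^ 2 := by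
  rw [← normSq_eq_norm_sq, ← normSq_eq_norm_sq, ← normSq_eq_norm_sq, normSq_apply, normSq_apply,
    normSq_apply, dt, add_re, add_im]
  ring

theorem dt_add_right (x y z : ℂ) : dt x (y + z) = dt x y + dt x z := by
  simp only [dt, add_re, add_im]; ring

theorem dt_sub_right (x y z : ℂ) : dt x (y - z) = dt x y - dt x z := by
  simp only [dt, sub_re, sub_im]; ring

theorem dt_sub_left' (x y z : ℂ) : dt (x - y) z = dt x z - dt y z := by
  simp only [dt, sub_re, sub_im]; ring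

theorem dt_neg_right (x y : ℂ) : dt x (-y) = -dt x y := by
  simp only [dt, neg_re, neg_im]; ring

theorem dt_smul_right (x y : ℂ) (s : ℝ) : dt x ((s : ℂ) * y) = s * dt x y := by
  simp only [dt, re_ofReal_mul, im_ofReal_mul]; ring

/-- first order comparison -/
theorem fo {x y U d r : ℂ} {s : ℝ} {v : Bool} (hxy : y - x = U + ((s : ℂ) * d + r)) (hU : ‖U‖ = 1)
    (hs : 0 < s) (hs1 : s ≤ 1 / 10 ^ 4) (hd : ‖d‖ ≤ 12) (hr : ‖r‖ ≤ s / 1000)
    (h1 : v = true → dt U d ≤ -(1 / 60)) (h2 : v = false → 1 / 60 ≤ dt U d) :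
    v = true ↔ ‖x - y‖ ≤ 1 := by
  rw [norm_sub_rev, hxy]
  have e1 := normsq_add U ((s : ℂ) * d + r)
  rw [hU, dt_add_right, dt_smul_right] at e1
  have e2 := dt_abs' U r
  rw [hU, one_mul] at e2
  have e3 := abs_le.1 (e2.trans hr)
  have e4 : ‖(s : ℂ) * d + r‖ ≤ 12.001 * s := by
    refine (norm_add_le _ _).trans ?_
    rw [norm_mul, norm_real, Real.norm_eq_abs, abs_of_pos hs]
    nlinarith
  have e5 : ‖(s : ℂ) * d + r‖ ^ 2 ≤ (12.001 * s) ^ 2 := pow_le_pow_left₀ (norm_nonneg _) e4 2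
  have e6 : 0 ≤ ‖(s : ℂ) * d + r‖ ^ 2 := sq_nonneg _
  constructor
  · intro hv
    have h3 := h1 hv
    have h4 : s * dt U d ≤ s * (-(1 / 60)) := mul_le_mul_of_nonneg_left h3 hs.le
    have h5 : ‖U + ((s : ℂ) * d + r)‖ ^ 2 ≤ 1 := by
      have h6 : (12.001 * s) ^ 2 ≤ 0.015 * s := by nlinarith
      nlinarith
    nlinarith [norm_nonneg (U + ((s : ℂ) * d + r))]
  · intro hle
    by_contra hv
    have h3 := h2 (by simpa using hv)
    have h4 : s * (1 / 60) ≤ s * dt U d := mul_le_mul_of_nonneg_left h3 hs.le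
    have h5 : ‖U + ((s : ℂ) * d + r)‖ ^ 2 ≤ 1 := pow_le_one₀ (norm_nonneg _) hle
    nlinarith

theorem cS_vm (a : V2) : cS (vm S2 a) = cu a := by
  apply Complex.ext
  · simp only [cS, cu, vm, SS, S1, S2]
    push_cast
    ring
  · simp only [cS, cu, vm, SS, S1, S2]
    push_cast
    ring

theorem cS_vs (a b : V2) : cS (vs a b) = cS a - cS b := by
  apply Complex.ext
  · simp only [cS, vs, sub_re]
    push_cast
    ring
  · simp only [cS, vs, sub_im]
    push_cast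
    ring

theorem cS_va (a b : V2) : cS (va a b) = cS a + cS b := by
  apply Complex.ext
  · simp only [cS, va, add_re]
    push_cast
    ring
  · simp only [cS, va, add_im]
    push_cast
    ring

theorem cu_vn (a : V2) : cu (vn a) = -cu a := by
  apply Complex.ext
  · simp only [cu, vn, neg_re]
    push_cast
    ring
  · simp only [cu, vn, neg_im]
    push_cast
    ring

theorem cu_vs (a b : V2) : cu (vs a b) = cu a - cu b := by
  apply Complex.ext
  · simp only [cu, vs, sub_re]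
    push_cast
    ring
  · simp only [cu, vs, sub_im]
    push_cast
    ring

theorem cu_va (a b : V2) : cu (va a b) = cu a + cu b := by
  apply Complex.ext
  · simp only [cu, va, add_re]
    push_cast
    ring
  · simp only [cu, va, add_im]
    push_cast
    ring

theorem cu_rot (a : V2) : cu (rot a) = I * cu a := by
  apply Complex.ext
  · simp [cu, rot]
    ring
  · simp [cu, rot]

theorem cS_rot (a : V2) : cS (rot a) = I * cS a := by
  apply Complex.ext
  · simp [cS, rot]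
    ring
  · simp [cS, rot]

theorem dt_cu (a b : V2) : dt (cu a) (cu b) = (idot a b : ℝ) / (S1 : ℝ) ^ 2 := by
  simp only [dt, cu, idot, S1]
  push_cast
  ring

theorem dt_cu_cS (a b : V2) : dt (cu a) (cS b) = (idot a b : ℝ) / ((S1 : ℝ) * SS) := by
  simp only [dt, cu, cS, idot, S1, SS]
  push_cast
  ring

theorem norm_cu_sq (a : V2) : ‖cu a‖ ^ 2 = (nsq a : ℝ) / (S1 : ℝ) ^ 2 := by
  rw [← normSq_eq_norm_sq, normSq_apply]
  simp only [cu, nsq, S1]
  push_cast
  ring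

theorem norm_cS_sq (a : V2) : ‖cS a‖ ^ 2 = (nsq a : ℝ) / (SS : ℝ) ^ 2 := by
  rw [← normSq_eq_norm_sq, normSq_apply]
  simp only [cS, nsq, SS]
  push_cast
  ring

/-- upper bound of a norm by an integer inequality -/
theorem norm_cu_le {a : V2} (h : 100 * nsq a ≤ 121 * S1 ^ 2) : ‖cu a‖ ≤ 1.1 := by
  have h1 := norm_cu_sq a
  have h2 : (0 : ℝ) < (S1 : ℝ) ^ 2 := by norm_num [S1]
  have h3 : (100 : ℝ) * (nsq a : ℝ) ≤ 121 * (S1 : ℝ) ^ 2 := by exact_mod_cast h
  have h4 : ‖cu a‖ ^ 2 ≤ 1.21 := by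
    rw [h1, div_le_iff₀ h2]
    linarith
  by_contra hc
  push Not at hc
  nlinarith

theorem norm_cS_le {a : V2} (h : 100 * nsq a ≤ 121 * SS ^ 2) : ‖cS a‖ ≤ 1.1 := by
  have h1 := norm_cS_sq a
  have h2 : (0 : ℝ) < (SS : ℝ) ^ 2 := by norm_num [SS]
  have h3 : (100 : ℝ) * (nsq a : ℝ) ≤ 121 * (SS : ℝ) ^ 2 := by exact_mod_cast h
  have h4 : ‖cS a‖ ^ 2 ≤ 1.21 := by
    rw [h1, div_le_iff₀ h2]
    linarith
  by_contra hc
  push Not at hc
  nlinarith

theorem NX_succ (i : ℕ) : vs (NX (i + 1)) (NX i) = vm S2 (stX i) := by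
  obtain ⟨t, r, hr, rfl⟩ : ∃ t r, r < 4 ∧ i = 4 * t + r := ⟨i / 4, i % 4, Nat.mod_lt _ (by norm_num), by omega⟩
  interval_cases r
  · have h1 : (4 * t + 0 + 1) / 4 = t := by omega
    have h2 : (4 * t + 0) / 4 = t := by omega
    have h3 : (4 * t + 0 + 1) % 4 = 1 := by omega
    have h4 : (4 * t + 0) % 4 = 0 := by omega
    simp only [NX, stX, h1, h2, h3, h4, Xo, vs, va, vm]
    ext <;> ring
  · have h1 : (4 * t + 1 + 1) / 4 = t := by omega
    have h2 : (4 * t + 1) / 4 = t := by omega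
    have h3 : (4 * t + 1 + 1) % 4 = 2 := by omega
    have h4 : (4 * t + 1) % 4 = 1 := by omega
    simp only [NX, stX, h1, h2, h3, h4, Xo, vs, va, vm]
    ext <;> ring
  · have h1 : (4 * t + 2 + 1) / 4 = t := by omega
    have h2 : (4 * t + 2) / 4 = t := by omega
    have h3 : (4 * t + 2 + 1) % 4 = 3 := by omega
    have h4 : (4 * t + 2) % 4 = 2 := by omega
    simp only [NX, stX, h1, h2, h3, h4, Xo, vs, va, vm]
    ext <;> ring
  · have h1 : (4 * t + 3 + 1) / 4 = t + 1 := by omega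
    have h2 : (4 * t + 3) / 4 = t := by omega
    have h3 : (4 * t + 3 + 1) % 4 = 0 := by omega
    have h4 : (4 * t + 3) % 4 = 3 := by omega
    simp only [NX, stX, h1, h2, h3, h4, Xo, vs, va, vm, Pc]
    push_cast
    ext <;> ring

theorem NY_succ (l : ℕ) : vs (NY (l + 1)) (NY l) = vm S2 (stY l) := by
  obtain ⟨t, r, hr, rfl⟩ : ∃ t r, r < 8 ∧ l = 8 * t + r := ⟨l / 8, l % 8, Nat.mod_lt _ (by norm_num), by omega⟩
  interval_cases r
  · have h1 : (8 * t + 0 + 1) / 8 = t := by omega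
    have h2 : (8 * t + 0) / 8 = t := by omega
    have h3 : (8 * t + 0 + 1) % 8 = 1 := by omega
    have h4 : (8 * t + 0) % 8 = 0 := by omega
    simp only [NY, stY, h1, h2, h3, h4, Yo, vs, va, vm, vn]
    ext <;> ring
  · have h1 : (8 * t + 1 + 1) / 8 = t := by omega
    have h2 : (8 * t + 1) / 8 = t := by omega
    have h3 : (8 * t + 1 + 1) % 8 = 2 := by omega
    have h4 : (8 * t + 1) % 8 = 1 := by omega
    simp only [NY, stY, h1, h2, h3, h4, Yo, vs, va, vm, vn]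
    ext <;> ring
  · have h1 : (8 * t + 2 + 1) / 8 = t := by omega
    have h2 : (8 * t + 2) / 8 = t := by omega
    have h3 : (8 * t + 2 + 1) % 8 = 3 := by omega
    have h4 : (8 * t + 2) % 8 = 2 := by omega
    simp only [NY, stY, h1, h2, h3, h4, Yo, vs, va, vm, vn]
    ext <;> ring
  · have h1 : (8 * t + 3 + 1) / 8 = t := by omega
    have h2 : (8 * t + 3) / 8 = t := by omega
    have h3 : (8 * t + 3 + 1) % 8 = 4 := by omega
    have h4 : (8 * t + 3) % 8 = 3 := by omega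
    simp only [NY, stY, h1, h2, h3, h4, Yo, vs, va, vm, vn]
    ext <;> ring
  · have h1 : (8 * t + 4 + 1) / 8 = t := by omega
    have h2 : (8 * t + 4) / 8 = t := by omega
    have h3 : (8 * t + 4 + 1) % 8 = 5 := by omega
    have h4 : (8 * t + 4) % 8 = 4 := by omega
    simp only [NY, stY, h1, h2, h3, h4, Yo, vs, va, vm, vn]
    ext <;> ring
  · have h1 : (8 * t + 5 + 1) / 8 = t := by omega
    have h2 : (8 * t + 5) / 8 = t := by omega
    have h3 : (8 * t + 5 + 1) % 8 = 6 := by omega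
    have h4 : (8 * t + 5) % 8 = 5 := by omega
    simp only [NY, stY, h1, h2, h3, h4, Yo, vs, va, vm, vn]
    ext <;> ring
  · have h1 : (8 * t + 6 + 1) / 8 = t := by omega
    have h2 : (8 * t + 6) / 8 = t := by omega
    have h3 : (8 * t + 6 + 1) % 8 = 7 := by omega
    have h4 : (8 * t + 6) % 8 = 6 := by omega
    simp only [NY, stY, h1, h2, h3, h4, Yo, vs, va, vm, vn]
    ext <;> ring
  · have h1 : (8 * t + 7 + 1) / 8 = t + 1 := by omega
    have h2 : (8 * t + 7) / 8 = t := by omega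
    have h3 : (8 * t + 7 + 1) % 8 = 0 := by omega
    have h4 : (8 * t + 7) % 8 = 7 := by omega
    simp only [NY, stY, h1, h2, h3, h4, Yo, vs, va, vm, vn, Pr]
    push_cast
    ext <;> ring

/-- `X` steps have eight, `Y` steps sixteen nominal values -/
theorem stX_mod (i : ℕ) : stX i = stX (i % 4) := by
  simp [stX]

theorem stY_mod (l : ℕ) : stY l = stY (l % 8) := by
  simp [stY]

section cfg

variable {σ : ℕ → ℕ → Bool} {mB nL : ℕ} {q : Par} (C : Cfg σ mB nL q)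
include C

theorem dX_close (i : ℕ) : ‖(q.X (i + 1) - q.X i) - cu (stX i)‖ ≤ 2 / 10 ^ 6 := by
  have h1 : cu (stX i) = cS (NX (i + 1)) - cS (NX i) := by
    rw [← cS_vs, NX_succ, cS_vm]
  have h2 : (q.X (i + 1) - q.X i) - cu (stX i) =
      (q.X (i + 1) - cS (NX (i + 1))) - (q.X i - cS (NX i)) := by
    rw [h1]; ring
  rw [h2]
  refine (norm_sub_le _ _).trans ?_
  have := C.Xc (i + 1)
  have := C.Xc i
  linarith

theorem dY_close (l : ℕ) : ‖(q.Y (l + 1) - q.Y l) - cu (stY l)‖ ≤ 2 / 10 ^ 6 := by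
  have h1 : cu (stY l) = cS (NY (l + 1)) - cS (NY l) := by
    rw [← cS_vs, NY_succ, cS_vm]
  have h2 : (q.Y (l + 1) - q.Y l) - cu (stY l) =
      (q.Y (l + 1) - cS (NY (l + 1))) - (q.Y l - cS (NY l)) := by
    rw [h1]; ring
  rw [h2]
  refine (norm_sub_le _ _).trans ?_
  have := C.Yc (l + 1)
  have := C.Yc l
  linarith

theorem e_le (n : ℕ) : q.e n ≤ 1 / 10 ^ 20 := by
  induction n with
  | zero => exact C.e0
  | succ n ih =>
    have h1 := C.es n
    have h2 := C.epos n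
    have h3 : q.e n ^ 4 ≤ (1 / 10 ^ 20) ^ 4 := pow_le_pow_left₀ h2.le ih 4
    have h4 : (1 / 10 ^ 20 : ℝ) ^ 4 / 10 ^ 6 ≤ 1 / 10 ^ 20 := by norm_num
    calc q.e (n + 1) ≤ q.e n ^ 4 / 10 ^ 6 := h1
      _ ≤ (1 / 10 ^ 20) ^ 4 / 10 ^ 6 := by gcongr
      _ ≤ _ := h4

theorem e_dec (n : ℕ) : q.e (n + 1) ≤ q.e n := by
  have h1 := C.es n
  have h2 := C.epos n
  have h3 := e_le C n
  have h4 : q.e n ^ 4 ≤ q.e n ^ 1 := pow_le_pow_of_le_one h2.le (h3.trans (by norm_num)) (by norm_num)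
  rw [pow_one] at h4
  have h5 : 0 ≤ q.e n ^ 4 := by positivity
  linarith

theorem e_lt {n m : ℕ} (h : n < m) : q.e m ≤ q.e n ^ 4 / 10 ^ 6 := by
  induction m with
  | zero => omega
  | succ m ih =>
    rcases Nat.lt_or_ge n m with h1 | h1
    · exact (e_dec C m).trans (ih h1)
    · have : n = m := by omega
      subst this
      exact C.es n

/-- comparison with the square -/
theorem e_sq {n m : ℕ} (h : n < m) : q.e m ≤ q.e n ^ 2 / 10 ^ 40 := by
  have h1 := e_lt C h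
  have h2 := C.epos n
  have h3 := e_le C n
  have h4 : q.e n ^ 2 ≤ (1 / 10 ^ 20) ^ 2 := pow_le_pow_left₀ h2.le h3 2
  have h5 : q.e n ^ 4 = q.e n ^ 2 * q.e n ^ 2 := by ring
  have h6 : q.e n ^ 2 * q.e n ^ 2 ≤ q.e n ^ 2 * (1 / 10 ^ 20) ^ 2 :=
    mul_le_mul_of_nonneg_left h4 (by positivity)
  have h7 : (1 / 10 ^ 20 : ℝ) ^ 2 = 1 / 10 ^ 40 := by norm_num
  rw [h7] at h6
  have h8 : 0 ≤ q.e n ^ 2 := by positivity
  rw [h5] at h1
  have h9 : q.e n ^ 2 * q.e n ^ 2 / 10 ^ 6 ≤ q.e n ^ 2 * q.e n ^ 2 :=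
    div_le_self (by positivity) (by norm_num)
  linarith

theorem e_small {n m : ℕ} (h : n < m) : q.e m ≤ q.e n / 10 ^ 50 := by
  have h1 := e_sq C h
  have h2 := C.epos n
  have h3 := e_le C n
  have h4 : q.e n ^ 2 ≤ q.e n * (1 / 10 ^ 20) := by
    rw [pow_two]
    exact mul_le_mul_of_nonneg_left h3 h2.le
  have h5 : q.e n ^ 2 / 10 ^ 40 ≤ q.e n * (1 / 10 ^ 20) / 10 ^ 40 := by gcongr
  have h6 : q.e n * (1 / 10 ^ 20) / 10 ^ 40 ≤ q.e n / 10 ^ 50 := by
    have : q.e n * (1 / 10 ^ 20) / 10 ^ 40 = q.e n / 10 ^ 60 := by ring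
    rw [this]
    apply div_le_div_of_nonneg_left h2.le (by positivity) (by norm_num)
  linarith

theorem ge_pos (l i : ℕ) : 0 < q.ge l i := by
  rw [Par.ge]
  split_ifs
  · have := C.epos (q.iend - i)
    positivity
  · exact C.epos _

theorem ge_le (l i : ℕ) : q.ge l i ≤ q.e (q.rk l i) := by
  rw [Par.ge]
  split_ifs with h
  · have h1 := C.epos (q.iend - i)
    have h2 := e_le C (q.iend - i)
    have h3 : q.rk l i = q.iend - i := by
      rw [Par.rk, if_pos h.1]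
    rw [h3]
    have h4 : q.e (q.iend - i) ^ 2 ≤ q.e (q.iend - i) * 1 := by
      rw [pow_two]
      apply mul_le_mul_of_nonneg_left _ h1.le
      exact h2.trans (by norm_num)
    have h5 : 0 ≤ q.e (q.iend - i) ^ 2 := by positivity
    linarith
  · exact le_rfl

theorem ge_dom {l i m : ℕ} (h : q.rk l i < m) : q.e m ≤ q.ge l i / 10 ^ 6 := by
  rw [Par.ge]
  split_ifs with h0
  · have h3 : q.rk l i = q.iend - i := by
      rw [Par.rk, if_pos h0.1]
    rw [h3] at h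
    have h1 := e_sq C h
    have h2 : 0 ≤ q.e (q.iend - i) ^ 2 := by positivity
    linarith
  · have h1 := e_small C h
    have h2 := C.epos (q.rk l i)
    linarith

theorem ge_small (l i : ℕ) : q.ge l i ≤ 1 / 10 ^ 20 := (ge_le C l i).trans (e_le C _)

end cfg

theorem norm_nu : ‖cu nui‖ ≤ 1.1 := norm_cu_le (by decide)

theorem norm_sg (b : Bool) : ‖Par.sg b‖ = 1 := by
  cases b <;> simp [Par.sg]

/-- the real sign -/
noncomputable def sr (b : Bool) : ℝ := if b then 1 else -1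

theorem sg_eq (b : Bool) : Par.sg b = ((sr b : ℝ) : ℂ) := by
  cases b <;> simp [Par.sg, sr]

theorem norm_off (b : Bool) {s : ℝ} (hs : 0 ≤ s) : ‖Par.sg b * (s : ℂ) * cu nui‖ ≤ 1.1 * s := by
  rw [norm_mul, norm_mul, norm_sg, one_mul, norm_real, Real.norm_eq_abs, abs_of_nonneg hs]
  have := norm_nu
  nlinarith

/-- signs of dot products from nominal values -/
theorem dot_lo {U d d0 : ℂ} {a : V2} (hU1 : ‖U‖ = 1) (hU : ‖U - cu a‖ ≤ 2 / 10 ^ 5)
    (hd : ‖d - d0‖ ≤ 1 / 10 ^ 4) (hd0 : ‖d0‖ ≤ 12) (h : 1 / 50 ≤ dt (cu a) d0) : 1 / 60 ≤ dt U d := by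
  have h1 := dt_abs' U (d - d0)
  have h2 := dt_abs' (U - cu a) d0
  rw [hU1, one_mul] at h1
  have h3 : ‖U - cu a‖ * ‖d0‖ ≤ (2 / 10 ^ 5) * 12 :=
    mul_le_mul hU hd0 (norm_nonneg _) (by norm_num)
  have h4 := (abs_le.1 (h1.trans hd)).1
  have h5 := (abs_le.1 (h2.trans h3)).1
  rw [dt_sub_right] at h4
  rw [dt_sub_left'] at h5
  linarith

theorem dot_hi {U d d0 : ℂ} {a : V2} (hU1 : ‖U‖ = 1) (hU : ‖U - cu a‖ ≤ 2 / 10 ^ 5)
    (hd : ‖d - d0‖ ≤ 1 / 10 ^ 4) (hd0 : ‖d0‖ ≤ 12) (h : dt (cu a) d0 ≤ -(1 / 50)) :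
    dt U d ≤ -(1 / 60) := by
  have h1 := dt_abs' U (d - d0)
  have h2 := dt_abs' (U - cu a) d0
  rw [hU1, one_mul] at h1
  have h3 : ‖U - cu a‖ * ‖d0‖ ≤ (2 / 10 ^ 5) * 12 :=
    mul_le_mul hU hd0 (norm_nonneg _) (by norm_num)
  have h4 := (abs_le.1 (h1.trans hd)).2
  have h5 := (abs_le.1 (h2.trans h3)).2
  rw [dt_sub_right] at h4
  rw [dt_sub_left'] at h5
  linarith

/-- the dominant term is the offset of `x`, a member of a pair -/
theorem pol_case {x y U r : ℂ} {u : V2} {b : Bool} {s : ℝ}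
    (hxy : y - x = U + (-(Par.sg b * (s : ℂ) * cu nui) + r)) (hU : ‖U‖ = 1)
    (hUu : ‖U - cu u‖ ≤ 2 / 10 ^ 5) (hm : S1 ^ 2 ≤ 50 * |idot u nui|) (hs : 0 < s)
    (hs1 : s ≤ 1 / 10 ^ 4) (hr : ‖r‖ ≤ s / 1000) : pol b u = true ↔ ‖x - y‖ ≤ 1 := by
  have h2 : (0 : ℝ) < (S1 : ℝ) ^ 2 := by norm_num [S1]
  have hnn : ‖cu nui‖ ≤ 12 := norm_nu.trans (by norm_num)
  -- the dot product with `cu nui`
  have hpos : 0 < idot u nui → 1 / 60 ≤ dt U (cu nui) := by
    intro h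
    refine dot_lo hU hUu (by simp) hnn ?_
    rw [dt_cu, div_le_div_iff₀ (by norm_num) h2]
    rw [abs_of_pos h] at hm
    have : ((S1 : ℝ)) ^ 2 ≤ 50 * (idot u nui : ℝ) := by exact_mod_cast hm
    linarith
  have hneg : ¬ 0 < idot u nui → dt U (cu nui) ≤ -(1 / 60) := by
    intro h
    refine dot_hi hU hUu (by simp) hnn ?_
    rw [abs_of_nonpos (not_lt.1 h)] at hm
    have h3 : ((S1 : ℝ)) ^ 2 ≤ 50 * (-(idot u nui : ℝ)) := by exact_mod_cast hm
    rw [dt_cu, ← neg_div, div_le_div_iff₀ h2 (by norm_num)]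
    linarith
  refine fo (d := -(Par.sg b * cu nui)) (r := r) (s := s) ?_ hU hs hs1 ?_ hr ?_ ?_
  · rw [hxy]; ring
  · rw [norm_neg, norm_mul, norm_sg, one_mul]
    exact hnn
  · intro hv
    rw [dt_neg_right, sg_eq, dt_smul_right]
    rw [pol, beq_iff_eq] at hv
    cases b
    · have h3 : ¬ 0 < idot u nui := by simpa using hv.symm
      have := hneg h3
      simp only [sr]
      norm_num
      linarith
    · have h3 : 0 < idot u nui := by simpa using hv.symm
      have := hpos h3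
      simp only [sr]
      norm_num
      linarith
  · intro hv
    rw [dt_neg_right, sg_eq, dt_smul_right]
    rw [pol] at hv
    cases b
    · have h3 : 0 < idot u nui := by simpa using hv
      have := hpos h3
      simp only [sr]
      norm_num
      linarith
    · have h3 : ¬ 0 < idot u nui := by simpa using hv
      have := hneg h3
      simp only [sr]
      norm_num
      linarith

theorem norm_cu_le2 {a : V2} (h : 1000000 * nsq a ≤ 1002001 * S1 ^ 2) : ‖cu a‖ ≤ 1.001 := by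
  have h1 := norm_cu_sq a
  have h2 : (0 : ℝ) < (S1 : ℝ) ^ 2 := by norm_num [S1]
  have h3 : (1000000 : ℝ) * (nsq a : ℝ) ≤ 1002001 * (S1 : ℝ) ^ 2 := by exact_mod_cast h
  have h4 : ‖cu a‖ ^ 2 ≤ 1.002001 := by
    rw [h1, div_le_iff₀ h2]
    linarith
  by_contra hc
  push Not at hc
  nlinarith

theorem norm_cS_le2 {a : V2} (h : 1000000 * nsq a ≤ 1002001 * SS ^ 2) : ‖cS a‖ ≤ 1.001 := by
  have h1 := norm_cS_sq a
  have h2 : (0 : ℝ) < (SS : ℝ) ^ 2 := by norm_num [SS]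
  have h3 : (1000000 : ℝ) * (nsq a : ℝ) ≤ 1002001 * (SS : ℝ) ^ 2 := by exact_mod_cast h
  have h4 : ‖cS a‖ ^ 2 ≤ 1.002001 := by
    rw [h1, div_le_iff₀ h2]
    linarith
  by_contra hc
  push Not at hc
  nlinarith

/-- a given dominant direction -/
theorem dir_case {x y U d d0 r : ℂ} {u : V2} {v : Bool} {s : ℝ} (hxy : y - x = U + ((s : ℂ) * d + r))
    (hU : ‖U‖ = 1) (hUu : ‖U - cu u‖ ≤ 2 / 10 ^ 5) (hd : ‖d - d0‖ ≤ 1 / 10 ^ 4) (hd0 : ‖d0‖ ≤ 11.9)
    (hs : 0 < s) (hs1 : s ≤ 1 / 10 ^ 4) (hr : ‖r‖ ≤ s / 1000)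
    (h1 : v = true → dt (cu u) d0 ≤ -(1 / 50)) (h2 : v = false → 1 / 50 ≤ dt (cu u) d0) :
    v = true ↔ ‖x - y‖ ≤ 1 := by
  refine fo hxy hU hs hs1 ?_ hr (fun h => dot_hi hU hUu hd (by linarith) (h1 h))
    (fun h => dot_lo hU hUu hd (by linarith) (h2 h))
  have e1 : d = d0 + (d - d0) := by ring
  rw [e1]
  refine (norm_add_le _ _).trans ?_
  have : (1 : ℝ) / 10 ^ 4 ≤ 0.1 := by norm_num
  linarith

/-- the approximate sixth roots of unity as complex numbers -/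
noncomputable def cw (k : ℕ) : ℂ := ⟨((omi k).1 : ℝ) / S2, ((omi k).2 : ℝ) / S2⟩

theorem cS_rt (a : V2) (k : ℕ) : cS (rt a k) = cu a * cw k := by
  apply Complex.ext
  · simp only [cS, cu, cw, rt, mul_re, SS, S1, S2]
    push_cast
    ring
  · simp only [cS, cu, cw, rt, mul_im, SS, S1, S2]
    push_cast
    ring

theorem om_sq : om ^ 2 = om - 1 := by
  have h3 : Real.sqrt 3 ^ 2 = 3 := Real.sq_sqrt (by norm_num)
  apply Complex.ext
  · simp only [om, pow_two, mul_re, sub_re, one_re]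
    nlinarith
  · simp only [om, pow_two, mul_im, sub_im, one_im]
    ring

theorem om_cube : om ^ 3 = -1 := by
  have := om_sq
  calc om ^ 3 = om * om ^ 2 := by ring
    _ = om * (om - 1) := by rw [this]
    _ = om ^ 2 - om := by ring
    _ = -1 := by rw [this]; ring

theorem norm_om : ‖om‖ = 1 := by
  have h3 : Real.sqrt 3 ^ 2 = 3 := Real.sq_sqrt (by norm_num)
  have h1 : ‖om‖ ^ 2 = 1 := by
    rw [← normSq_eq_norm_sq, normSq_apply]
    simp only [om]
    nlinarith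
  nlinarith [norm_nonneg om]

theorem om_close : ‖om - cw 1‖ ≤ 1 / 10 ^ 7 := by
  have h1 : (1.7320508 : ℝ) < Real.sqrt 3 := by
    rw [Real.lt_sqrt (by norm_num)]; norm_num
  have h2 : Real.sqrt 3 < 1.73205082 := by
    rw [Real.sqrt_lt' (by norm_num)]; norm_num
  have e1 : om - cw 1 = ((Real.sqrt 3 / 2 - 0.8660254 : ℝ) : ℂ) * I := by
    apply Complex.ext
    · simp [om, cw, omi, S2]
      norm_num
    · simp [om, cw, omi, S2]
      norm_num
  rw [e1, norm_mul, norm_I, mul_one, norm_real, Real.norm_eq_abs, abs_le]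
  constructor <;> linarith

theorem omk_close {k : ℕ} (hk : k < 6) : ‖om ^ k - cw k‖ ≤ 1 / 10 ^ 7 := by
  have h := om_close
  interval_cases k
  · have : om ^ 0 - cw 0 = 0 := by
      apply Complex.ext <;> simp [cw, omi, S2]
    rw [this, norm_zero]
    norm_num
  · rw [pow_one]
    exact h
  · have : om ^ 2 - cw 2 = om - cw 1 := by
      rw [om_sq]
      apply Complex.ext <;> simp [cw, omi, S2] <;> norm_num <;> ring
    rw [this]
    exact h
  · have : om ^ 3 - cw 3 = 0 := by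
      rw [om_cube]
      apply Complex.ext <;> simp [cw, omi, S2]
    rw [this, norm_zero]
    norm_num
  · have : om ^ 4 - cw 4 = -(om - cw 1) := by
      have e : om ^ 4 = -om := by
        have := om_cube
        linear_combination om * this
      rw [e]
      apply Complex.ext <;> simp [cw, omi, S2] <;> norm_num <;> ring
    rw [this, norm_neg]
    exact h
  · have : om ^ 5 - cw 5 = -(om - cw 1) := by
      have e : om ^ 5 = 1 - om := by
        have := om_cube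
        have h2 := om_sq
        linear_combination om ^ 2 * this - h2
      rw [e]
      apply Complex.ext <;> simp [cw, omi, S2] <;> norm_num <;> ring
    rw [this, norm_neg]
    exact h

theorem rt_close {a : V2} (ha : ‖cu a‖ ≤ 1.1) {k : ℕ} (hk : k < 6) :
    ‖cu a * om ^ k - cS (rt a k)‖ ≤ 1 / 10 ^ 6 := by
  rw [cS_rt, ← mul_sub, norm_mul]
  have h1 := omk_close hk
  have h2 : ‖cu a‖ * ‖om ^ k - cw k‖ ≤ 1.1 * (1 / 10 ^ 7) :=
    mul_le_mul ha h1 (norm_nonneg _) (by norm_num)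
  refine h2.trans (by norm_num)

theorem norm_psi : ‖cu psii‖ ≤ 1.001 := norm_cu_le2 (by decide)

/-- the direction of the satellites -/
theorem mdir_close {j : ℕ} (hj : j < 3) : ‖I * cu psii * om ^ j - cS (mdir j)‖ ≤ 1 / 10 ^ 6 := by
  rw [mdir, cS_rot]
  have e1 : I * cu psii * om ^ j - I * cS (rt psii j) = I * (cu psii * om ^ j - cS (rt psii j)) := by ring
  rw [e1, norm_mul, norm_I, one_mul]
  exact rt_close (norm_psi.trans (by norm_num)) (by omega)

theorem norm_mdir (j : ℕ) : ‖I * cu psii * om ^ j‖ ≤ 1.001 := by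
  rw [norm_mul, norm_mul, norm_I, one_mul, norm_pow, norm_om, one_pow, mul_one]
  exact norm_psi

section cfg

variable {σ : ℕ → ℕ → Bool} {mB nL : ℕ} {q : Par} (C : Cfg σ mB nL q)
include C

/-- the main direction of the displacement of the primed nodes -/
theorem vp_close {i : ℕ} (hi : i % 4 = 2) :
    ‖10 * (I * (q.X (i - 1) - q.X i)) - 10 * cu vpi‖ ≤ 2 / 10 ^ 5 := by
  obtain ⟨i, rfl⟩ : ∃ i', i = i' + 1 := ⟨i - 1, by omega⟩
  have h1 := dX_close C i
  have h2 : stX i = vn c2i := by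
    have : i % 4 = 1 := by omega
    rw [stX, this]
    decide
  rw [Nat.add_sub_cancel]
  have e1 : 10 * (I * (q.X i - q.X (i + 1))) - 10 * cu vpi =
      -(10 * I * ((q.X (i + 1) - q.X i) - cu (stX i))) := by
    rw [h2, cu_vn, vpi, cu_rot]
    ring
  rw [e1, norm_neg, norm_mul, norm_mul, norm_I, mul_one]
  have : ‖(10 : ℂ)‖ = 10 := by simp
  rw [this]
  linarith

theorem norm_step {i : ℕ} (hi : 1 ≤ i) : ‖q.X (i - 1) - q.X i‖ = 1 := by
  obtain ⟨i, rfl⟩ : ∃ i', i = i' + 1 := ⟨i - 1, by omega⟩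
  rw [Nat.add_sub_cancel, norm_sub_rev]
  exact C.Xu i

theorem vpo_eq (i : ℕ) : q.vpo i = ((q.e (q.iend - i) : ℝ) : ℂ) * (10 * (I * (q.X (i - 1) - q.X i))) +
    (q.X (i - 1) - q.X i) * (1 - ((Real.sqrt (1 - 100 * q.e (q.iend - i) ^ 2) : ℝ) : ℂ)) := by
  rw [Par.vpo]
  ring

theorem vpo_rest {i : ℕ} (hi : 1 ≤ i) : ‖(q.X (i - 1) - q.X i) *
    (1 - ((Real.sqrt (1 - 100 * q.e (q.iend - i) ^ 2) : ℝ) : ℂ))‖ ≤ q.e (q.iend - i) / 10 ^ 10 := by
  rw [norm_mul, norm_step C hi, one_mul]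
  set e := q.e (q.iend - i) with he
  have h1 : 0 < e := C.epos _
  have h2 : e ≤ 1 / 10 ^ 20 := e_le C _
  have h3 : 0 ≤ 1 - 100 * e ^ 2 := by nlinarith
  have h4 : Real.sqrt (1 - 100 * e ^ 2) ≤ 1 := by
    rw [Real.sqrt_le_one]
    nlinarith [sq_nonneg e]
  have h5 : 1 - 100 * e ^ 2 ≤ Real.sqrt (1 - 100 * e ^ 2) := by
    apply Real.le_sqrt_of_sq_le
    nlinarith [sq_nonneg e]
  rw [← ofReal_one, ← ofReal_sub, norm_real, Real.norm_eq_abs, abs_of_nonneg (by linarith)]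
  have h6 : e ^ 2 ≤ e * (1 / 10 ^ 20) := by
    rw [pow_two]
    exact mul_le_mul_of_nonneg_left h2 h1.le
  have h7 : 100 * (e * (1 / 10 ^ 20)) ≤ e / 10 ^ 10 := by
    have : 100 * (e * (1 / 10 ^ 20)) = e * (1 / 10 ^ 18) := by ring
    rw [this]
    have : e / 10 ^ 10 = e * (1 / 10 ^ 10) := by ring
    rw [this]
    apply mul_le_mul_of_nonneg_left _ h1.le
    norm_num
  linarith

theorem norm_vpo {i : ℕ} (hi : 1 ≤ i) : ‖q.vpo i‖ ≤ 11 * q.e (q.iend - i) := by
  rw [vpo_eq C i]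
  refine (norm_add_le _ _).trans ?_
  have h1 := vpo_rest C hi
  have h2 := C.epos (q.iend - i)
  rw [norm_mul, norm_real, Real.norm_eq_abs, abs_of_pos h2, norm_mul, norm_mul, norm_I,
    norm_step C hi]
  have : ‖(10 : ℂ)‖ = 10 := by simp
  rw [this]
  have : q.e (q.iend - i) / 10 ^ 10 ≤ q.e (q.iend - i) := div_le_self h2.le (by norm_num)
  linarith

/-- the exact unit vector from `X (i-1)` to the centre of the primed nodes -/
theorem unit_vpo {i : ℕ} (hi : 1 ≤ i) : ‖q.X i + q.vpo i - q.X (i - 1)‖ = 1 := by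
  set e := q.e (q.iend - i) with he
  have h1 : 0 < e := C.epos _
  have h2 : e ≤ 1 / 10 ^ 20 := e_le C _
  have h3 : 0 ≤ 1 - 100 * e ^ 2 := by nlinarith
  have e1 : q.X i + q.vpo i - q.X (i - 1) = (q.X (i - 1) - q.X i) *
      (-((Real.sqrt (1 - 100 * e ^ 2) : ℝ) : ℂ) + 10 * (e : ℂ) * I) := by
    rw [Par.vpo]
    ring
  rw [e1, norm_mul, norm_step C hi, one_mul]
  have h4 : ‖-((Real.sqrt (1 - 100 * e ^ 2) : ℝ) : ℂ) + 10 * (e : ℂ) * I‖ ^ 2 = 1 := by
    rw [← normSq_eq_norm_sq, normSq_apply]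
    have r1 : (-((Real.sqrt (1 - 100 * e ^ 2) : ℝ) : ℂ) + 10 * (e : ℂ) * I).re =
        -Real.sqrt (1 - 100 * e ^ 2) := by
      simp
    have r2 : (-((Real.sqrt (1 - 100 * e ^ 2) : ℝ) : ℂ) + 10 * (e : ℂ) * I).im = 10 * e := by
      simp
    rw [r1, r2]
    have := Real.mul_self_sqrt h3
    nlinarith
  nlinarith [norm_nonneg (-((Real.sqrt (1 - 100 * e ^ 2) : ℝ) : ℂ) + 10 * (e : ℂ) * I)]

end cfg

end Run7.h690.UD
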