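import Pool.Agent.Run7.h690.UD.C0

/-!
# Piece C4 (helper690): closeness of the positions to the nominal ones
-/

set_option autoImplicit false
set_option linter.all false

namespace Run7.h690.UD

open Complex Run7.h840

theorem norm_rt_om (z : ℂ) (k : ℕ) : ‖z * om ^ k‖ = ‖z‖ := by
  rw [norm_mul, norm_pow, norm_om, one_pow, mul_one]

/-- a rim is close to its nominal position -/
theorem rim_close {z : ℂ} {a : V2} {δ t : ℝ} {k : ℕ} (hk : k < 6) (hz : ‖z‖ = 1)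
    (hza : ‖z - cu a‖ ≤ δ) (hδ : δ ≤ 1 / 1000) (ht0 : 0 ≤ t) (ht : t ≤ 1 / 10 ^ 10) :
    ‖((1 - t : ℝ) : ℂ) * (z * om ^ k) - cS (rt a k)‖ ≤ δ + 1 / 10 ^ 5 := by
  have e1 : ((1 - t : ℝ) : ℂ) * (z * om ^ k) - cS (rt a k) =
      -((t : ℝ) : ℂ) * (z * om ^ k) + (z - cu a) * om ^ k + (cu a * om ^ k - cS (rt a k)) := by
    push_cast
    ring
  have h1 : ‖-((t : ℝ) : ℂ) * (z * om ^ k)‖ ≤ 1 / 10 ^ 10 := by
    rw [norm_mul, norm_neg, norm_rt_om, hz, mul_one, norm_real, Real.norm_eq_abs, abs_of_nonneg ht0]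
    exact ht
  have h2 : ‖(z - cu a) * om ^ k‖ ≤ δ := by
    rw [norm_rt_om]; exact hza
  have h3 : ‖cu a‖ ≤ 1.1 := by
    have e : cu a = z - (z - cu a) := by ring
    rw [e]
    refine (norm_sub_le _ _).trans ?_
    rw [hz]
    linarith
  have h4 := rt_close h3 hk
  rw [e1]
  refine (norm_add_le _ _).trans ?_
  have h5 := norm_add_le (-((t : ℝ) : ℂ) * (z * om ^ k)) ((z - cu a) * om ^ k)
  linarith

section cfg

variable {σ : ℕ → ℕ → Bool} {mB nL : ℕ} {q : Par} (C : Cfg σ mB nL q)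
include C

theorem off_tiny (b : Bool) {s : ℝ} (hs0 : 0 ≤ s) (hs : s ≤ 1 / 10 ^ 20) :
    ‖Par.sg b * (s : ℂ) * cu nui‖ ≤ 1 / 10 ^ 10 := by
  refine (norm_off b hs0).trans ?_
  linarith

theorem kap_bd (i : ℕ) : 0 ≤ q.kap i ∧ q.kap i ≤ 1 / 10 ^ 10 ∧ q.kap i ≤ q.e 0 := by
  have h1 := C.epos (q.iend - i)
  have h2 := e_le C (q.iend - i)
  have h3 : q.e (q.iend - i) ≤ q.e 0 := by
    rcases Nat.eq_zero_or_pos (q.iend - i) with h | h
    · rw [h]
    · have := e_small C h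
      have := C.epos 0
      linarith
  have h4 : q.e (q.iend - i) ^ 3 ≤ q.e (q.iend - i) ^ 1 :=
    pow_le_pow_of_le_one h1.le (h2.trans (by norm_num)) (by norm_num)
  have h5 : q.e (q.iend - i) ^ 2 ≤ q.e (q.iend - i) ^ 1 :=
    pow_le_pow_of_le_one h1.le (h2.trans (by norm_num)) (by norm_num)
  rw [pow_one] at h4 h5
  have h6 : (1 : ℝ) / 10 ^ 20 ≤ 1 / 10 ^ 10 := by norm_num
  rw [Par.kap]
  split_ifs
  · exact ⟨by positivity, by linarith, by linarith⟩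
  · exact ⟨by positivity, by linarith, by linarith⟩

theorem esq_bd (n : ℕ) : 0 ≤ q.e n ^ 2 ∧ q.e n ^ 2 ≤ 1 / 10 ^ 10 := by
  have h1 := C.epos n
  have h2 := e_le C n
  have h5 : q.e n ^ 2 ≤ q.e n ^ 1 :=
    pow_le_pow_of_le_one h1.le (h2.trans (by norm_num)) (by norm_num)
  rw [pow_one] at h5
  exact ⟨by positivity, by linarith [show (1 : ℝ) / 10 ^ 20 ≤ 1 / 10 ^ 10 by norm_num]⟩

/-- the shrinking factor of the hexagons `a` -/
theorem sqrt_bd (n : ℕ) : ∃ t : ℝ, 0 ≤ t ∧ t ≤ 1 / 10 ^ 10 ∧ t ≤ q.e 0 ∧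
    Real.sqrt (1 - q.e n ^ 2 / 2) = 1 - t := by
  have h1 := esq_bd C n
  have h0 := C.epos n
  have h2 := e_le C n
  have h3 : q.e n ≤ q.e 0 := by
    rcases Nat.eq_zero_or_pos n with h | h
    · rw [h]
    · have := e_small C h
      have := C.epos 0
      linarith
  have h4 : Real.sqrt (1 - q.e n ^ 2 / 2) ≤ 1 := by
    rw [Real.sqrt_le_one]
    linarith
  have h5 : 1 - q.e n ^ 2 ≤ Real.sqrt (1 - q.e n ^ 2 / 2) := by
    apply Real.le_sqrt_of_sq_le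
    nlinarith
  have h6 : q.e n ^ 2 ≤ q.e n := by
    have : q.e n ^ 2 ≤ q.e n ^ 1 :=
      pow_le_pow_of_le_one h0.le (h2.trans (by norm_num)) (by norm_num)
    rwa [pow_one] at this
  exact ⟨1 - Real.sqrt (1 - q.e n ^ 2 / 2), by linarith, by linarith, by linarith, by ring⟩

end cfg

theorem NY_zero : cS (NY 0) = 0 := by
  have : NY 0 = (0, 0) := by decide
  rw [this]
  apply Complex.ext <;> simp [cS]

theorem norm_thi {j : ℕ} (hj : j < 3) : ‖cu (thi j)‖ ≤ 1.1 := by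
  interval_cases j
  · exact norm_cu_le (by decide)
  · exact norm_cu_le (by decide)
  · exact norm_cu_le (by decide)

theorem rt_zero (a : V2) : rt a 0 = vm S2 a := by
  simp only [rt, omi, vm, S2]
  ext <;> ring

/-- **C4** -/
theorem close : S_close := by
  intro σ mB nL q C x hx hw
  have eps : (1 : ℝ) / 10 ^ 20 ≤ 1 / 10 ^ 10 := by norm_num
  have n1 : (2 : ℝ) / 10 ^ 6 + 1 / 10 ^ 10 + 1 / 10 ^ 8 ≤ 5 / 10 ^ 4 := by norm_num
  cases x with
  | g l i b =>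
    simp only [Par.pos, Vx.site, Site.N]
    rw [cS_va]
    have e1 : q.X i + q.Y l + Par.sg b * (q.ge l i : ℂ) * cu nui - (cS (NX i) + cS (NY l)) =
        (q.X i - cS (NX i)) + (q.Y l - cS (NY l)) + Par.sg b * (q.ge l i : ℂ) * cu nui := by ring
    rw [e1]
    refine (norm_add_le _ _).trans ?_
    have h1 := norm_add_le (q.X i - cS (NX i)) (q.Y l - cS (NY l))
    have h2 := C.Xc i
    have h3 := C.Yc l
    have h4 := off_tiny C b (ge_pos C l i).le (ge_small C l i)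
    linarith
  | gp l i b =>
    obtain ⟨x1, x2, x3⟩ := hx
    simp only [Par.pos, Vx.site, Site.N]
    rw [cS_va]
    have e1 : q.X i + q.Y l + q.vpo i + Par.sg b * ((q.e (q.iend + q.Lr + l + i + 4) : ℝ) : ℂ) * cu nui -
        (cS (NX i) + cS (NY l)) = (q.X i - cS (NX i)) + (q.Y l - cS (NY l)) + (q.vpo i +
          Par.sg b * ((q.e (q.iend + q.Lr + l + i + 4) : ℝ) : ℂ) * cu nui) := by ring
    rw [e1]
    refine (norm_add_le _ _).trans ?_
    have h1 := norm_add_le (q.X i - cS (NX i)) (q.Y l - cS (NY l))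
    have h2 := C.Xc i
    have h3 := C.Yc l
    have h4 := off_tiny C b (C.epos (q.iend + q.Lr + l + i + 4)).le (e_le C _)
    have h5 := norm_vpo C (i := i) (by omega)
    have h6 := e_le C (q.iend - i)
    have h7 := norm_add_le (q.vpo i) (Par.sg b * ((q.e (q.iend + q.Lr + l + i + 4) : ℝ) : ℂ) * cu nui)
    have h8 : 11 * ((1 : ℝ) / 10 ^ 20) ≤ 1 / 10 ^ 8 := by norm_num
    linarith
  | m i j =>
    simp only [Par.pos, Vx.site, Site.N]
    rw [cS_va, NY_zero, add_zero]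
    have e1 : q.X i + ((q.e (q.iend - i) : ℝ) : ℂ) * (I * cu psii * om ^ j) - cS (NX i) =
        (q.X i - cS (NX i)) + ((q.e (q.iend - i) : ℝ) : ℂ) * (I * cu psii * om ^ j) := by ring
    rw [e1]
    refine (norm_add_le _ _).trans ?_
    have h2 := C.Xc i
    have h3 := C.epos (q.iend - i)
    have h4 := e_le C (q.iend - i)
    rw [norm_mul ((q.e (q.iend - i) : ℝ) : ℂ), norm_real, Real.norm_eq_abs, abs_of_pos h3]
    have h5 := norm_mdir j
    have h6 : q.e (q.iend - i) * ‖I * cu psii * om ^ j‖ ≤ (1 / 10 ^ 20) * 1.001 :=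
      mul_le_mul h4 h5 (norm_nonneg _) (by norm_num)
    have h7 : ((1 : ℝ) / 10 ^ 20) * 1.001 ≤ 1 / 10 ^ 8 := by norm_num
    linarith
  | a i k =>
    obtain ⟨x1, x2, x3⟩ := hx
    simp only [Par.pos, Vx.site, Site.N]
    rw [cS_va]
    obtain ⟨t, t0, t1, -, t2⟩ := sqrt_bd C (q.iend - i)
    rw [t2]
    have e1 : q.X i + ((1 - t : ℝ) : ℂ) * (cu psii * om ^ k) - (cS (NX i) + cS (rt psii k)) =
        (q.X i - cS (NX i)) + (((1 - t : ℝ) : ℂ) * (cu psii * om ^ k) - cS (rt psii k)) := by ring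
    rw [e1]
    refine (norm_add_le _ _).trans ?_
    have h2 := C.Xc i
    have e2 : ((1 - t : ℝ) : ℂ) * (cu psii * om ^ k) - cS (rt psii k) =
        -((t : ℝ) : ℂ) * (cu psii * om ^ k) + (cu psii * om ^ k - cS (rt psii k)) := by
      push_cast
      ring
    rw [e2]
    have h3 := norm_add_le (-((t : ℝ) : ℂ) * (cu psii * om ^ k)) (cu psii * om ^ k - cS (rt psii k))
    have h4 := rt_close (norm_psi.trans (by norm_num)) x3
    have h5 : ‖-((t : ℝ) : ℂ) * (cu psii * om ^ k)‖ ≤ 1 / 10 ^ 9 := by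
      rw [norm_mul, norm_neg, norm_rt_om, norm_real, Real.norm_eq_abs, abs_of_nonneg t0]
      have := norm_psi
      nlinarith [norm_nonneg (cu psii)]
    have h6 : (1 : ℝ) / 10 ^ 6 + (1 / 10 ^ 9 + 1 / 10 ^ 6) ≤ 5 / 10 ^ 4 := by norm_num
    linarith
  | t i j =>
    obtain ⟨x1, x2, x3⟩ := hx
    simp only [Par.pos, Vx.site, Site.N]
    rw [cS_va, cS_vm]
    have e1 : q.X i + ((1 + 2 * q.e (q.iend - i) : ℝ) : ℂ) * cu (thi j) - (cS (NX i) + cu (thi j)) =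
        (q.X i - cS (NX i)) + ((2 * q.e (q.iend - i) : ℝ) : ℂ) * cu (thi j) := by
      push_cast
      ring
    rw [e1]
    refine (norm_add_le _ _).trans ?_
    have h2 := C.Xc i
    have h3 := C.epos (q.iend - i)
    have h4 := e_le C (q.iend - i)
    rw [norm_mul, norm_real, Real.norm_eq_abs, abs_of_pos (by linarith)]
    have h5 := norm_thi x3
    have h6 : 2 * q.e (q.iend - i) * ‖cu (thi j)‖ ≤ 2 * (1 / 10 ^ 20) * 1.1 :=
      mul_le_mul (by linarith) h5 (norm_nonneg _) (by norm_num)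
    have h7 : 2 * ((1 : ℝ) / 10 ^ 20) * 1.1 ≤ 1 / 10 ^ 8 := by norm_num
    linarith
  | bd i k =>
    obtain ⟨x1, x2, x3, x4⟩ := hx
    simp only [Par.pos, Vx.site, Site.N]
    rw [cS_va]
    have e1 : q.X i + ((1 - q.kap i : ℝ) : ℂ) * ((q.X (i - 1) - q.X i) * om ^ k) -
        (cS (NX i) + cS (rt (vn (stX (i - 1))) k)) = (q.X i - cS (NX i)) +
          (((1 - q.kap i : ℝ) : ℂ) * ((q.X (i - 1) - q.X i) * om ^ k) -
            cS (rt (vn (stX (i - 1))) k)) := by ring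
    rw [e1]
    refine (norm_add_le _ _).trans ?_
    have h2 := C.Xc i
    obtain ⟨k1, k2, -⟩ := kap_bd C i
    have h3 : ‖(q.X (i - 1) - q.X i) - cu (vn (stX (i - 1)))‖ ≤ 2 / 10 ^ 6 := by
      obtain ⟨i, rfl⟩ : ∃ i', i = i' + 1 := ⟨i - 1, by omega⟩
      rw [Nat.add_sub_cancel]
      have e : q.X i - q.X (i + 1) - cu (vn (stX i)) = -((q.X (i + 1) - q.X i) - cu (stX i)) := by
        rw [cu_vn]; ring
      rw [e, norm_neg]
      exact dX_close C i
    have h4 := rim_close (k := k) (by omega) (norm_step C x1) h3 (by norm_num) k1 k2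
    have h6 : (1 : ℝ) / 10 ^ 6 + (2 / 10 ^ 6 + 1 / 10 ^ 5) ≤ 5 / 10 ^ 4 := by norm_num
    linarith
  | kd l k =>
    obtain ⟨x1, x2, x3⟩ := hx
    simp only [Par.pos, Vx.site, Site.N]
    rw [cS_va]
    have e1 : q.Y l + ((1 - q.e (q.rk l 0) ^ 2 : ℝ) : ℂ) * ((q.Y (l + 1) - q.Y l) * om ^ k) -
        (cS (NY l) + cS (rt (stY l) k)) = (q.Y l - cS (NY l)) +
          (((1 - q.e (q.rk l 0) ^ 2 : ℝ) : ℂ) * ((q.Y (l + 1) - q.Y l) * om ^ k) -
            cS (rt (stY l) k)) := by ring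
    rw [e1]
    refine (norm_add_le _ _).trans ?_
    have h2 := C.Yc l
    obtain ⟨k1, k2⟩ := esq_bd C (q.rk l 0)
    have h4 := rim_close (k := k) (by omega) (C.Yu l) (dY_close C l) (by norm_num) k1 k2
    have h6 : (1 : ℝ) / 10 ^ 6 + (2 / 10 ^ 6 + 1 / 10 ^ 5) ≤ 5 / 10 ^ 4 := by norm_num
    linarith
  | h i b =>
    obtain ⟨x1, x2⟩ := hx
    simp only [Par.pos, Vx.site, Site.N]
    rw [cS_va, cS_va, rt_zero, cS_vm]
    have e1 : q.X i + q.Y 2 + q.yv i + Par.sg b * ((q.e (q.iend + q.Lr + i + 4) : ℝ) : ℂ) * cu nui -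
        (cS (NX i) + cS (NY 2) + cu yi) = ((q.X i - cS (NX i)) + (q.Y 2 - cS (NY 2))) +
          ((q.yv i - cu yi) + Par.sg b * ((q.e (q.iend + q.Lr + i + 4) : ℝ) : ℂ) * cu nui) := by ring
    rw [e1]
    refine (norm_add_le _ _).trans ?_
    have h1 := norm_add_le (q.X i - cS (NX i)) (q.Y 2 - cS (NY 2))
    have h2 := C.Xc i
    have h3 := C.Yc 2
    have h4 := off_tiny C b (C.epos (q.iend + q.Lr + i + 4)).le (e_le C _)
    have h5 := norm_add_le (q.yv i - cu yi)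
      (Par.sg b * ((q.e (q.iend + q.Lr + i + 4) : ℝ) : ℂ) * cu nui)
    have h6 := (C.yu i x1 x2).2.2
    have h7 : (2 : ℝ) / 10 ^ 6 + (4 / 10 ^ 4 + 1 / 10 ^ 10) ≤ 5 / 10 ^ 4 := by norm_num
    linarith
  | hd i k =>
    obtain ⟨x1, x2, x3, x4⟩ := hx
    simp only [Par.pos, Vx.site, Site.N]
    rw [cS_va, cS_va]
    have e1 : q.X i + q.Y 2 + ((1 - q.e (q.rk 2 i) ^ 2 : ℝ) : ℂ) * (q.yv i * om ^ k) -
        (cS (NX i) + cS (NY 2) + cS (rt yi k)) = ((q.X i - cS (NX i)) + (q.Y 2 - cS (NY 2))) +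
          (((1 - q.e (q.rk 2 i) ^ 2 : ℝ) : ℂ) * (q.yv i * om ^ k) - cS (rt yi k)) := by ring
    rw [e1]
    refine (norm_add_le _ _).trans ?_
    have h1 := norm_add_le (q.X i - cS (NX i)) (q.Y 2 - cS (NY 2))
    have h2 := C.Xc i
    have h3 := C.Yc 2
    obtain ⟨y1, -, y3⟩ := C.yu i x1 x2
    obtain ⟨k1, k2⟩ := esq_bd C (q.rk 2 i)
    have h4 := rim_close (k := k) (by omega) y1 y3 (by norm_num) k1 k2
    have h7 : (2 : ℝ) / 10 ^ 6 + (4 / 10 ^ 4 + 1 / 10 ^ 5) ≤ 5 / 10 ^ 4 := by norm_num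
    linarith
  | w k => exact absurd rfl (hw k)

end Run7.h690.UD
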