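import Pool.Agent.Run7.h690.UD.C0

/-!
# Piece C5a (helper690): grid nodes, primed nodes, satellites, tests
-/

set_option autoImplicit false
set_option linter.all false

namespace Run7.h690.UD

open Complex Run7.h840

theorem margX (i : ℕ) : S1 ^ 2 ≤ 50 * |idot (stX i) nui| := by
  rw [stX_mod]
  have h : i % 4 < 4 := Nat.mod_lt _ (by norm_num)
  interval_cases (i % 4) <;> decide

theorem margY (l : ℕ) : S1 ^ 2 ≤ 50 * |idot (stY l) nui| := by
  rw [stY_mod]
  have h : l % 8 < 8 := Nat.mod_lt _ (by norm_num)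
  interval_cases (l % 8) <;> decide

theorem idot_vn (a b : V2) : idot (vn a) b = -idot a b := by
  simp only [idot, vn]; ring

theorem margX' (i : ℕ) : S1 ^ 2 ≤ 50 * |idot (vn (stX i)) nui| := by
  rw [idot_vn, abs_neg]
  exact margX i

theorem margYv (l : ℕ) : S1 ^ 2 ≤ 50 * |idot (stY l) vpi| := by
  rw [stY_mod]
  have h : l % 8 < 8 := Nat.mod_lt _ (by norm_num)
  interval_cases (l % 8) <;> decide

theorem norm_vpi : ‖cu vpi‖ ≤ 1.001 := norm_cu_le2 (by decide)

theorem norm_ten : ‖(10 : ℂ)‖ = 10 := by simp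

/-- real form of a margin -/
theorem marg_real {t : ℤ} (h : S1 ^ 2 ≤ 50 * |t|) :
    (0 < t → 1 / 50 ≤ (t : ℝ) / (S1 : ℝ) ^ 2) ∧ (¬ 0 < t → (t : ℝ) / (S1 : ℝ) ^ 2 ≤ -(1 / 50)) := by
  have h2 : (0 : ℝ) < (S1 : ℝ) ^ 2 := by norm_num [S1]
  constructor
  · intro h1
    rw [abs_of_pos h1] at h
    have h3 : (S1 : ℝ) ^ 2 ≤ 50 * (t : ℝ) := by exact_mod_cast h
    rw [div_le_div_iff₀ (by norm_num) h2]
    linarith
  · intro h1
    rw [abs_of_nonpos (not_lt.1 h1)] at h
    have h3 : (S1 : ℝ) ^ 2 ≤ 50 * (-(t : ℝ)) := by exact_mod_cast h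
    rw [← neg_div, div_le_div_iff₀ h2 (by norm_num)]
    linarith

/-- real form of a margin, other scale -/
theorem marg_real' {t : ℤ} (h : S1 * SS ≤ 50 * |t|) :
    (0 < t → 1 / 50 ≤ (t : ℝ) / ((S1 : ℝ) * SS)) ∧ (¬ 0 < t → (t : ℝ) / ((S1 : ℝ) * SS) ≤ -(1 / 50)) := by
  have h2 : (0 : ℝ) < (S1 : ℝ) * SS := by norm_num [S1, SS]
  constructor
  · intro h1
    rw [abs_of_pos h1] at h
    have h3 : (S1 : ℝ) * SS ≤ 50 * (t : ℝ) := by exact_mod_cast h
    rw [div_le_div_iff₀ (by norm_num) h2]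
    linarith
  · intro h1
    rw [abs_of_nonpos (not_lt.1 h1)] at h
    have h3 : (S1 : ℝ) * SS ≤ 50 * (-(t : ℝ)) := by exact_mod_cast h
    rw [← neg_div, div_le_div_iff₀ h2 (by norm_num)]
    linarith

section cfg

variable {σ : ℕ → ℕ → Bool} {mB nL : ℕ} {q : Par} (C : Cfg σ mB nL q)
include C

theorem ir_le : irOf mB ≤ q.iend := by
  have := C.hm
  rw [C.hi, irOf, iendOf]
  omega

theorem small4 (n : ℕ) : q.e n ≤ 1 / 10 ^ 4 := (e_le C n).trans (by norm_num)

theorem ge_small4 (l i : ℕ) : q.ge l i ≤ 1 / 10 ^ 4 := (ge_small C l i).trans (by norm_num)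

/-- an offset with a larger rank is small against the thickness -/
theorem off_ge {l i m : ℕ} (h : q.rk l i < m) (b : Bool) {s : ℝ} (hs0 : 0 ≤ s) (hs : s ≤ q.e m) :
    ‖Par.sg b * (s : ℂ) * cu nui‖ ≤ q.ge l i / 10 ^ 5 := by
  refine (norm_off b hs0).trans ?_
  have h1 := ge_dom C h
  have h2 := ge_pos C l i
  linarith

/-- an offset with a larger rank is small against a scale -/
theorem off_e {n m : ℕ} (h : n < m) (b : Bool) {s : ℝ} (hs0 : 0 ≤ s) (hs : s ≤ q.e m) :
    ‖Par.sg b * (s : ℂ) * cu nui‖ ≤ q.e n / 10 ^ 10 := by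
  refine (norm_off b hs0).trans ?_
  have h1 := e_small C h
  have h2 := C.epos n
  linarith

/-- the thickness of a node of a primed column is small against its scale -/
theorem ge_col {l i : ℕ} (hi : i % 4 = 2) : q.ge l i ≤ q.e (q.iend - i) / 10 ^ 15 := by
  have h1 := C.epos (q.iend - i)
  have h2 := e_le C (q.iend - i)
  rw [Par.ge]
  split_ifs with h
  · have h3 : q.e (q.iend - i) ^ 2 ≤ q.e (q.iend - i) * (1 / 10 ^ 20) := by
      rw [pow_two]
      exact mul_le_mul_of_nonneg_left h2 h1.le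
    linarith
  · have h3 : q.iend - i < q.rk l i := by
      rw [Par.rk]
      split_ifs with h4 h5
      · exact absurd ⟨h4, hi⟩ h
      · omega
      · omega
    have h4 := e_small C h3
    linarith

theorem off_ge_col {l i : ℕ} (hi : i % 4 = 2) (b : Bool) :
    ‖Par.sg b * (q.ge l i : ℂ) * cu nui‖ ≤ q.e (q.iend - i) / 10 ^ 10 := by
  refine (norm_off b (ge_pos C l i).le).trans ?_
  have h1 := ge_col C (l := l) hi
  have h2 := C.epos (q.iend - i)
  linarith

/-! ### The cases -/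

/-- bottom spine -/
theorem c1a {i : ℕ} (hi : i + 1 ≤ q.iend) (b b' : Bool) :
    pol b (vn (stX i)) = true ↔ ‖q.pos (.g 0 (i + 1) b) - q.pos (.g 0 i b')‖ ≤ 1 := by
  refine pol_case (U := q.X i - q.X (i + 1)) (r := Par.sg b' * (q.ge 0 i : ℂ) * cu nui)
    (s := q.ge 0 (i + 1)) ?_ ?_ ?_ (margX' i) (ge_pos C _ _) (ge_small4 C _ _) ?_
  · simp only [Par.pos]; ring
  · rw [norm_sub_rev]; exact C.Xu i
  · have e : q.X i - q.X (i + 1) - cu (vn (stX i)) = -((q.X (i + 1) - q.X i) - cu (stX i)) := by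
      rw [cu_vn]; ring
    rw [e, norm_neg]
    exact (dX_close C i).trans (by norm_num)
  · have h1 : q.rk 0 (i + 1) < q.rk 0 i := by
      simp only [Par.rk, if_true]; omega
    refine (off_ge C h1 b' (ge_pos C 0 i).le (ge_le C 0 i)).trans ?_
    have := ge_pos C 0 (i + 1)
    linarith

/-- rows -/
theorem c1b {l i : ℕ} (hl : 0 < l) (b b' : Bool) :
    pol b (stX i) = true ↔ ‖q.pos (.g l i b) - q.pos (.g l (i + 1) b')‖ ≤ 1 := by
  refine pol_case (U := q.X (i + 1) - q.X i) (r := Par.sg b' * (q.ge l (i + 1) : ℂ) * cu nui)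
    (s := q.ge l i) ?_ (C.Xu i) ((dX_close C i).trans (by norm_num)) (margX i) (ge_pos C _ _)
    (ge_small4 C _ _) ?_
  · simp only [Par.pos]; ring
  · have h1 : q.rk l i < q.rk l (i + 1) := by
      simp only [Par.rk]
      rw [if_neg hl.ne', if_neg hl.ne', if_neg (Nat.succ_ne_zero i)]
      split_ifs <;> omega
    refine (off_ge C h1 b' (ge_pos C l (i + 1)).le (ge_le C l (i + 1))).trans ?_
    have := ge_pos C l i
    linarith

theorem rk_col (l i : ℕ) : q.rk l i < q.rk (l + 1) i := by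
  simp only [Par.rk]
  rw [if_neg (Nat.succ_ne_zero l)]
  split_ifs <;> omega

/-- columns -/
theorem c1c (l i : ℕ) (b b' : Bool) :
    pol b (stY l) = true ↔ ‖q.pos (.g l i b) - q.pos (.g (l + 1) i b')‖ ≤ 1 := by
  refine pol_case (U := q.Y (l + 1) - q.Y l) (r := Par.sg b' * (q.ge (l + 1) i : ℂ) * cu nui)
    (s := q.ge l i) ?_ (C.Yu l) ((dY_close C l).trans (by norm_num)) (margY l) (ge_pos C _ _)
    (ge_small4 C _ _) ?_
  · simp only [Par.pos]; ring
  · refine (off_ge C (rk_col C l i) b' (ge_pos C (l + 1) i).le (ge_le C (l + 1) i)).trans ?_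
    have := ge_pos C l i
    linarith

/-- from the left to a primed node -/
theorem c2a {l i : ℕ} (hi : (i + 1) % 4 = 2) (b b' : Bool) :
    pol b (stX i) = true ↔ ‖q.pos (.g l i b) - q.pos (.gp l (i + 1) b')‖ ≤ 1 := by
  have h1 := unit_vpo C (i := i + 1) (by omega)
  rw [Nat.add_sub_cancel] at h1
  refine pol_case (U := q.X (i + 1) + q.vpo (i + 1) - q.X i)
    (r := Par.sg b' * ((q.e (q.iend + q.Lr + l + (i + 1) + 4) : ℝ) : ℂ) * cu nui)
    (s := q.ge l i) ?_ h1 ?_ (margX i) (ge_pos C _ _) (ge_small4 C _ _) ?_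
  · simp only [Par.pos]; ring
  · have e : q.X (i + 1) + q.vpo (i + 1) - q.X i - cu (stX i) =
        ((q.X (i + 1) - q.X i) - cu (stX i)) + q.vpo (i + 1) := by ring
    rw [e]
    refine (norm_add_le _ _).trans ?_
    have h2 := norm_vpo C (i := i + 1) (by omega)
    have h3 := e_le C (q.iend - (i + 1))
    have h4 := dX_close C i
    have h5 : (1 : ℝ) / 10 ^ 20 ≤ 1 / 10 ^ 7 := by norm_num
    linarith
  · have h2 : q.rk l i < q.iend + q.Lr + l + (i + 1) + 4 := by
      simp only [Par.rk]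
      split_ifs <;> omega
    refine (off_ge C h2 b' (C.epos _).le le_rfl).trans ?_
    have := ge_pos C l i
    linarith

/-- from a primed node of the bottom to the right -/
theorem c2b0 {i : ℕ} (hi : i % 4 = 2) (hie : i + 1 ≤ q.iend) (b b' : Bool) :
    pol b (vn (stX i)) = true ↔ ‖q.pos (.g 0 (i + 1) b) - q.pos (.gp 0 i b')‖ ≤ 1 := by
  refine pol_case (U := q.X i - q.X (i + 1))
    (r := q.vpo i + Par.sg b' * ((q.e (q.iend + q.Lr + 0 + i + 4) : ℝ) : ℂ) * cu nui)
    (s := q.ge 0 (i + 1)) ?_ ?_ ?_ (margX' i) (ge_pos C _ _) (ge_small4 C _ _) ?_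
  · simp only [Par.pos]; ring
  · rw [norm_sub_rev]; exact C.Xu i
  · have e : q.X i - q.X (i + 1) - cu (vn (stX i)) = -((q.X (i + 1) - q.X i) - cu (stX i)) := by
      rw [cu_vn]; ring
    rw [e, norm_neg]
    exact (dX_close C i).trans (by norm_num)
  · have h1 : q.rk 0 (i + 1) < q.iend - i := by
      simp only [Par.rk, if_true]; omega
    have h2 : q.rk 0 (i + 1) < q.iend + q.Lr + 0 + i + 4 := by omega
    refine (norm_add_le _ _).trans ?_
    have h3 := off_ge C h2 b' (C.epos _).le le_rfl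
    have h4 := norm_vpo C (i := i) (by omega)
    have h5 := ge_dom C h1
    have := ge_pos C 0 (i + 1)
    linarith

/-- the displacement dominates -/
theorem vpo_case {x y U r : ℂ} {u : V2} {v : Bool} {i : ℕ} (hi : i % 4 = 2)
    (hxy : y - x = U + (q.vpo i + r)) (hU : ‖U‖ = 1) (hUu : ‖U - cu u‖ ≤ 2 / 10 ^ 5)
    (hm : S1 ^ 2 ≤ 50 * |idot u vpi|) (hr : ‖r‖ ≤ 2 * q.e (q.iend - i) / 10 ^ 10)
    (hv : v = true ↔ idot u vpi < 0) : v = true ↔ ‖x - y‖ ≤ 1 := by
  have h1 := marg_real hm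
  have hne : idot u vpi ≠ 0 := by
    intro h
    rw [h] at hm
    norm_num [S1] at hm
  have hdt : dt (cu u) (10 * cu vpi) = 10 * ((idot u vpi : ℝ) / (S1 : ℝ) ^ 2) := by
    have : dt (cu u) ((10 : ℝ) * cu vpi) = 10 * dt (cu u) (cu vpi) := dt_smul_right _ _ _
    rw [dt_cu] at this
    rw [← this]
    norm_num
  refine dir_case (d := 10 * (I * (q.X (i - 1) - q.X i))) (d0 := 10 * cu vpi)
    (r := (q.X (i - 1) - q.X i) * (1 - ((Real.sqrt (1 - 100 * q.e (q.iend - i) ^ 2) : ℝ) : ℂ)) + r)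
    (s := q.e (q.iend - i)) ?_ hU hUu ((vp_close C hi).trans (by norm_num)) ?_ (C.epos _)
    (small4 C _) ?_ ?_ ?_
  · rw [hxy, vpo_eq C i]; ring
  · rw [norm_mul, norm_ten]
    have := norm_vpi
    linarith
  · refine (norm_add_le _ _).trans ?_
    have h3 := vpo_rest C (i := i) (by omega)
    have h4 := C.epos (q.iend - i)
    linarith
  · intro hvt
    have h3 := h1.2 (not_lt.2 (hv.1 hvt).le)
    rw [hdt]
    linarith
  · intro hvf
    have h3 : 0 < idot u vpi := by
      rcases lt_trichotomy (idot u vpi) 0 with h | h | h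
      · rw [hv.2 h] at hvf
        exact absurd hvf (by simp)
      · exact absurd h hne
      · exact h
    have h4 := h1.1 h3
    rw [hdt]
    linarith

theorem margXv : S1 ^ 2 ≤ 50 * |idot (vn (stX 2)) vpi| := by decide

/-- from a primed node to the right -/
theorem c2b {l i : ℕ} (hl : l ≠ 0) (hi : i % 4 = 2) (b b' : Bool) :
    decide (0 < idot (stX i) vpi) = true ↔ ‖q.pos (.g l (i + 1) b) - q.pos (.gp l i b')‖ ≤ 1 := by
  have hstX : stX i = stX 2 := by
    rw [stX_mod i, hi]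
  refine vpo_case C hi (U := q.X i - q.X (i + 1)) (u := vn (stX i))
    (r := Par.sg b' * ((q.e (q.iend + q.Lr + l + i + 4) : ℝ) : ℂ) * cu nui -
      Par.sg b * (q.ge l (i + 1) : ℂ) * cu nui) ?_ ?_ ?_ ?_ ?_ ?_
  · simp only [Par.pos]; ring
  · rw [norm_sub_rev]; exact C.Xu i
  · have e : q.X i - q.X (i + 1) - cu (vn (stX i)) = -((q.X (i + 1) - q.X i) - cu (stX i)) := by
      rw [cu_vn]; ring
    rw [e, norm_neg]
    exact (dX_close C i).trans (by norm_num)
  · rw [hstX]; exact margXv C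
  · refine (norm_sub_le _ _).trans ?_
    have h1 := off_e C (n := q.iend - i) (m := q.iend + q.Lr + l + i + 4) (by omega) b' (C.epos _).le le_rfl
    have h2 := off_e C (n := q.iend - i) (m := q.rk l (i + 1)) (by
      simp only [Par.rk]
      rw [if_neg hl, if_neg (Nat.succ_ne_zero i)]
      omega) b (ge_pos C l (i + 1)).le (ge_le C l (i + 1))
    linarith
  · rw [idot_vn, decide_eq_true_iff]
    omega

/-- upwards to a primed node -/
theorem c2c {l i : ℕ} (hi : i % 4 = 2) (b b' : Bool) :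
    decide (idot (stY l) vpi < 0) = true ↔ ‖q.pos (.g l i b) - q.pos (.gp (l + 1) i b')‖ ≤ 1 := by
  refine vpo_case C hi (U := q.Y (l + 1) - q.Y l) (u := stY l)
    (r := Par.sg b' * ((q.e (q.iend + q.Lr + (l + 1) + i + 4) : ℝ) : ℂ) * cu nui -
      Par.sg b * (q.ge l i : ℂ) * cu nui) ?_ (C.Yu l) ((dY_close C l).trans (by norm_num))
      (margYv l) ?_ ?_
  · simp only [Par.pos]; ring
  · refine (norm_sub_le _ _).trans ?_
    have h1 := off_e C (n := q.iend - i) (m := q.iend + q.Lr + (l + 1) + i + 4) (by omega) b'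
      (C.epos _).le le_rfl
    have h2 := off_ge_col C (l := l) hi b
    linarith
  · rw [decide_eq_true_iff]

/-- upwards from a primed node -/
theorem c2d {l i : ℕ} (hi : i % 4 = 2) (b b' : Bool) :
    decide (0 < idot (stY l) vpi) = true ↔ ‖q.pos (.g (l + 1) i b) - q.pos (.gp l i b')‖ ≤ 1 := by
  refine vpo_case C hi (U := q.Y l - q.Y (l + 1)) (u := vn (stY l))
    (r := Par.sg b' * ((q.e (q.iend + q.Lr + l + i + 4) : ℝ) : ℂ) * cu nui -
      Par.sg b * (q.ge (l + 1) i : ℂ) * cu nui) ?_ ?_ ?_ ?_ ?_ ?_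
  · simp only [Par.pos]; ring
  · rw [norm_sub_rev]; exact C.Yu l
  · have e : q.Y l - q.Y (l + 1) - cu (vn (stY l)) = -((q.Y (l + 1) - q.Y l) - cu (stY l)) := by
      rw [cu_vn]; ring
    rw [e, norm_neg]
    exact (dY_close C l).trans (by norm_num)
  · rw [idot_vn, abs_neg]
    exact margYv l
  · refine (norm_sub_le _ _).trans ?_
    have h1 := off_e C (n := q.iend - i) (m := q.iend + q.Lr + l + i + 4) (by omega) b'
      (C.epos _).le le_rfl
    have h2 := off_ge_col C (l := l + 1) hi b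
    linarith
  · rw [decide_eq_true_iff, idot_vn]
    omega

/-- two primed nodes -/
theorem c3 (l i : ℕ) (b b' : Bool) :
    pol b (stY l) = true ↔ ‖q.pos (.gp l i b) - q.pos (.gp (l + 1) i b')‖ ≤ 1 := by
  refine pol_case (U := q.Y (l + 1) - q.Y l)
    (r := Par.sg b' * ((q.e (q.iend + q.Lr + (l + 1) + i + 4) : ℝ) : ℂ) * cu nui)
    (s := q.e (q.iend + q.Lr + l + i + 4)) ?_ (C.Yu l) ((dY_close C l).trans (by norm_num))
    (margY l) (C.epos _) (small4 C _) ?_
  · simp only [Par.pos]; ring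
  · refine (off_e C (n := q.iend + q.Lr + l + i + 4) (by omega) b' (C.epos _).le le_rfl).trans ?_
    have := C.epos (q.iend + q.Lr + l + i + 4)
    linarith

/-- the satellite direction dominates -/
theorem m_case {x y U r : ℂ} {u : V2} {v : Bool} {s : ℝ} {j : ℕ} (hj : j < 3)
    (hxy : y - x = U + (-((s : ℂ) * (I * cu psii * om ^ j)) + r)) (hU : ‖U‖ = 1)
    (hUu : ‖U - cu u‖ ≤ 2 / 10 ^ 5) (hm : S1 * SS ≤ 50 * |idot u (mdir j)|) (hs : 0 < s)
    (hs1 : s ≤ 1 / 10 ^ 4) (hr : ‖r‖ ≤ s / 1000)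
    (hv : v = true ↔ 0 < idot u (mdir j)) : v = true ↔ ‖x - y‖ ≤ 1 := by
  have h1 := marg_real' hm
  have hdt : dt (cu u) (-cS (mdir j)) = -((idot u (mdir j) : ℝ) / ((S1 : ℝ) * SS)) := by
    rw [dt_neg_right, dt_cu_cS]
  have h2 := mdir_close hj
  have h3 := norm_mdir j
  refine dir_case (d := -(I * cu psii * om ^ j)) (d0 := -cS (mdir j)) (r := r) (s := s) ?_ hU hUu
    ?_ ?_ hs hs1 hr ?_ ?_
  · rw [hxy]; ring
  · have e : -(I * cu psii * om ^ j) - -cS (mdir j) = -(I * cu psii * om ^ j - cS (mdir j)) := by ring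
    rw [e, norm_neg]
    exact h2.trans (by norm_num)
  · rw [norm_neg]
    have e : cS (mdir j) = I * cu psii * om ^ j - (I * cu psii * om ^ j - cS (mdir j)) := by ring
    rw [e]
    refine (norm_sub_le _ _).trans ?_
    have : (1 : ℝ) / 10 ^ 6 ≤ 0.1 := by norm_num
    linarith
  · intro hvt
    have h4 := h1.1 (hv.1 hvt)
    rw [hdt]
    linarith
  · intro hvf
    have h4 : ¬ 0 < idot u (mdir j) := fun h => by
      rw [hv.2 h] at hvf
      exact absurd hvf (by simp)
    have h5 := h1.2 h4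
    rw [hdt]
    linarith

theorem margM1 {j : ℕ} (hj : j < 3) : S1 * SS ≤ 50 * |idot (vn (stX 1)) (mdir j)| := by
  interval_cases j <;> decide

theorem margM2 {j : ℕ} (hj : j < 3) : S1 * SS ≤ 50 * |idot (stY 0) (mdir j)| := by
  interval_cases j <;> decide

/-- satellites to the left -/
theorem c4a {i j : ℕ} (hj : j < 3) (hi : (i + 1) % 4 = 2) (hie : i + 1 ≤ q.iend) (b' : Bool) :
    decide (0 < idot (vn (stX i)) (mdir j)) = true ↔
      ‖q.pos (.m (i + 1) j) - q.pos (.g 0 i b')‖ ≤ 1 := by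
  have hstX : stX i = stX 1 := by
    have : i % 4 = 1 := by omega
    rw [stX_mod i, this]
  refine m_case C hj (U := q.X i - q.X (i + 1)) (u := vn (stX i)) (s := q.e (q.iend - (i + 1)))
    (r := Par.sg b' * (q.ge 0 i : ℂ) * cu nui) ?_ ?_ ?_ ?_ (C.epos _) (small4 C _) ?_
    (by rw [decide_eq_true_iff])
  · simp only [Par.pos]
    rw [C.Y0]
    ring
  · rw [norm_sub_rev]; exact C.Xu i
  · have e : q.X i - q.X (i + 1) - cu (vn (stX i)) = -((q.X (i + 1) - q.X i) - cu (stX i)) := by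
      rw [cu_vn]; ring
    rw [e, norm_neg]
    exact (dX_close C i).trans (by norm_num)
  · rw [hstX]; exact margM1 C hj
  · have h1 := off_e C (n := q.iend - (i + 1)) (m := q.rk 0 i) (by
      simp only [Par.rk, if_true]; omega) b' (ge_pos C 0 i).le (ge_le C 0 i)
    have := C.epos (q.iend - (i + 1))
    linarith

/-- satellites to the right -/
theorem c4b {i j : ℕ} (hie : i + 1 ≤ q.iend) (b' : Bool) :
    pol b' (vn (stX i)) = true ↔ ‖q.pos (.m i j) - q.pos (.g 0 (i + 1) b')‖ ≤ 1 := by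
  rw [norm_sub_rev]
  refine pol_case (U := q.X i - q.X (i + 1))
    (r := ((q.e (q.iend - i) : ℝ) : ℂ) * (I * cu psii * om ^ j))
    (s := q.ge 0 (i + 1)) ?_ ?_ ?_ (margX' i) (ge_pos C _ _) (ge_small4 C _ _) ?_
  · simp only [Par.pos]
    rw [C.Y0]
    ring
  · rw [norm_sub_rev]; exact C.Xu i
  · have e : q.X i - q.X (i + 1) - cu (vn (stX i)) = -((q.X (i + 1) - q.X i) - cu (stX i)) := by
      rw [cu_vn]; ring
    rw [e, norm_neg]
    exact (dX_close C i).trans (by norm_num)
  · have h1 : q.rk 0 (i + 1) < q.iend - i := by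
      simp only [Par.rk, if_true]; omega
    have h2 := ge_dom C h1
    have h3 := C.epos (q.iend - i)
    rw [norm_mul, norm_real, Real.norm_eq_abs, abs_of_pos h3]
    have h4 := norm_mdir j
    have := ge_pos C 0 (i + 1)
    nlinarith

/-- satellites upwards -/
theorem c4c {i j : ℕ} (hj : j < 3) (hi : i % 4 = 2) (b' : Bool) :
    decide (0 < idot (stY 0) (mdir j)) = true ↔ ‖q.pos (.m i j) - q.pos (.g 1 i b')‖ ≤ 1 := by
  refine m_case C hj (U := q.Y (0 + 1) - q.Y 0) (u := stY 0) (s := q.e (q.iend - i))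
    (r := Par.sg b' * (q.ge 1 i : ℂ) * cu nui) ?_ (C.Yu 0) ((dY_close C 0).trans (by norm_num))
    (margM2 C hj) (C.epos _) (small4 C _) ?_ (by rw [decide_eq_true_iff])
  · simp only [Par.pos]
    rw [C.Y0]
    ring
  · have h1 := off_ge_col C (l := 1) hi b'
    have := C.epos (q.iend - i)
    linarith

theorem margM3 {j : ℕ} (hj : j < 3) : idot (stY 0) vpi < 0 ∧
    S1 * SS ≤ 50 * (-(10 * S2 * idot (stY 0) vpi - idot (stY 0) (mdir j))) ∨
    0 < idot (stY 0) vpi ∧ S1 * SS ≤ 50 * (10 * S2 * idot (stY 0) vpi - idot (stY 0) (mdir j)) := by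
  interval_cases j <;> decide

/-- satellites and a primed node -/
theorem c5 {i j : ℕ} (hj : j < 3) (hi : i % 4 = 2) (b' : Bool) :
    decide (idot (stY 0) vpi < 0) = true ↔ ‖q.pos (.m i j) - q.pos (.gp 1 i b')‖ ≤ 1 := by
  have h2 := mdir_close hj
  have h3 := norm_mdir j
  have hSS : (0 : ℝ) < (S1 : ℝ) * SS := by norm_num [S1, SS]
  have hdt : dt (cu (stY 0)) (10 * cu vpi - cS (mdir j)) =
      ((10 * S2 * idot (stY 0) vpi - idot (stY 0) (mdir j) : ℤ) : ℝ) / ((S1 : ℝ) * SS) := by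
    have e : dt (cu (stY 0)) ((10 : ℝ) * cu vpi) = 10 * dt (cu (stY 0)) (cu vpi) := dt_smul_right _ _ _
    have e' : ((10 : ℝ) : ℂ) = 10 := by norm_num
    rw [e', dt_cu] at e
    rw [dt_sub_right, e, dt_cu_cS]
    simp only [S1, S2, SS]
    push_cast
    ring
  refine dir_case (U := q.Y (0 + 1) - q.Y 0) (u := stY 0)
    (d := 10 * (I * (q.X (i - 1) - q.X i)) - I * cu psii * om ^ j) (d0 := 10 * cu vpi - cS (mdir j))
    (r := (q.X (i - 1) - q.X i) * (1 - ((Real.sqrt (1 - 100 * q.e (q.iend - i) ^ 2) : ℝ) : ℂ)) +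
      Par.sg b' * ((q.e (q.iend + q.Lr + 1 + i + 4) : ℝ) : ℂ) * cu nui)
    (s := q.e (q.iend - i)) ?_ (C.Yu 0) ((dY_close C 0).trans (by norm_num)) ?_ ?_ (C.epos _)
    (small4 C _) ?_ ?_ ?_
  · simp only [Par.pos]
    rw [C.Y0, vpo_eq C i]
    ring
  · have e : 10 * (I * (q.X (i - 1) - q.X i)) - I * cu psii * om ^ j - (10 * cu vpi - cS (mdir j)) =
        (10 * (I * (q.X (i - 1) - q.X i)) - 10 * cu vpi) - (I * cu psii * om ^ j - cS (mdir j)) := by
      ring
    rw [e]
    refine (norm_sub_le _ _).trans ?_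
    have := vp_close C hi
    have h5 : (2 : ℝ) / 10 ^ 5 + 1 / 10 ^ 6 ≤ 1 / 10 ^ 4 := by norm_num
    linarith
  · have e : cS (mdir j) = I * cu psii * om ^ j - (I * cu psii * om ^ j - cS (mdir j)) := by ring
    have h4 : ‖cS (mdir j)‖ ≤ 1.1 := by
      rw [e]
      refine (norm_sub_le _ _).trans ?_
      have : (1 : ℝ) / 10 ^ 6 ≤ 0.01 := by norm_num
      linarith
    refine (norm_sub_le _ _).trans ?_
    rw [norm_mul, norm_ten]
    have := norm_vpi
    linarith
  · refine (norm_add_le _ _).trans ?_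
    have h4 := vpo_rest C (i := i) (by omega)
    have h5 := off_e C (n := q.iend - i) (m := q.iend + q.Lr + 1 + i + 4) (by omega) b'
      (C.epos _).le le_rfl
    have h6 := C.epos (q.iend - i)
    linarith
  · intro hv
    rw [decide_eq_true_iff] at hv
    rw [hdt]
    rcases margM3 C hj with h | h
    · have h7 : (S1 : ℝ) * SS ≤ 50 * (-((10 * S2 * idot (stY 0) vpi - idot (stY 0) (mdir j) : ℤ) : ℝ)) := by
        exact_mod_cast h.2
      rw [← neg_div, div_le_div_iff₀ hSS (by norm_num)]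
      linarith
    · omega
  · intro hv
    rw [decide_eq_false_iff_not] at hv
    rw [hdt]
    rcases margM3 C hj with h | h
    · omega
    · have h7 : (S1 : ℝ) * SS ≤ 50 * ((10 * S2 * idot (stY 0) vpi - idot (stY 0) (mdir j) : ℤ) : ℝ) := by
        exact_mod_cast h.2
      rw [div_le_div_iff₀ (by norm_num) hSS]
      linarith

/-! ### Tests -/

theorem off0 (b : Bool) {s : ℝ} (hs0 : 0 ≤ s) (hs : s ≤ q.e 0) :
    ‖Par.sg b * (s : ℂ) * cu nui‖ ≤ 2 * q.e 0 := by
  refine (norm_off b hs0).trans ?_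
  linarith

theorem e_le0 (n : ℕ) : q.e n ≤ q.e 0 := by
  induction n with
  | zero => exact le_rfl
  | succ n ih => exact (e_dec C n).trans ih

/-- the two test pairs, with errors -/
theorem test_core {l i l' : ℕ} {w : ℂ} (ht : isTest l i l' (i + 2) = true)
    (hl' : l' < 8 * nL) (hi' : i + 2 ≤ irOf mB) (hw : ‖w‖ ≤ 50 * q.e 0) :
    tval σ l i = true ↔ ‖(q.X (i + 2) + q.Y l' - (q.X i + q.Y l)) + w‖ ≤ 1 := by
  have he := C.epos 0
  rw [isTest, decide_eq_true_iff] at ht
  obtain ⟨h1, -, h2⟩ := ht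
  have hm := C.hm
  obtain ⟨p, rfl⟩ : ∃ p, i = 4 * p := ⟨i / 4, by omega⟩
  have hp : p < mB := by
    rw [irOf] at hi'
    omega
  have hp4 : 4 * p / 4 = p := by omega
  -- from the two inequalities
  have key : ∀ z : ℂ, ‖z‖ ≤ 1 - 100 * q.e 0 → ‖z + w‖ ≤ 1 := fun z hz => by
    refine (norm_add_le _ _).trans ?_
    linarith
  have key2 : ∀ z : ℂ, 1 + 100 * q.e 0 ≤ ‖z‖ → 1 < ‖z + w‖ := fun z hz => by
    have h3 : ‖z‖ ≤ ‖z + w‖ + ‖w‖ := by
      have := norm_sub_le (z + w) w
      rwa [add_sub_cancel_right] at this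
    linarith
  rcases h2 with ⟨h3, h4⟩ | ⟨h3, h4⟩
  · obtain ⟨j, rfl⟩ : ∃ j, l' = 8 * j + 3 := ⟨l' / 8, by omega⟩
    have hl : l = 8 * j + 6 := by omega
    subst hl
    have hj : j < nL := by omega
    have hj8 : (8 * j + 6) / 8 = j := by omega
    obtain ⟨t1, t2⟩ := C.tst p hp j hj
    have hv : tval σ (8 * j + 6) (4 * p) = σ p j := by
      rw [tval, if_pos h3, hp4, hj8]
    rw [hv]
    constructor
    · intro h
      exact key _ (t1 h).1
    · intro h
      by_contra hc
      have hc' : σ p j = false := by simpa using hc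
      exact absurd h (not_le.2 (key2 _ (t2 hc').2))
  · obtain ⟨j, rfl⟩ : ∃ j, l = 8 * j := ⟨l / 8, by omega⟩
    subst h4
    have hj : j < nL := by omega
    have hj8 : 8 * j / 8 = j := by omega
    obtain ⟨t1, t2⟩ := C.tst p hp j hj
    have hv : tval σ (8 * j) (4 * p) = !σ p j := by
      rw [tval, if_neg (by omega), hp4, hj8]
    rw [hv]
    constructor
    · intro h
      have hc' : σ p j = false := by simpa using h
      exact key _ (t2 hc').1
    · intro h
      by_contra hc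
      have hc' : σ p j = true := by simpa using hc
      exact absurd h (not_le.2 (key2 _ (t1 hc').2))

theorem c1d {l i l' : ℕ} (ht : isTest l i l' (i + 2) = true) (hl' : l' < 8 * nL)
    (hi' : i + 2 ≤ irOf mB) (b b' : Bool) :
    tval σ l i = true ↔ ‖q.pos (.g l i b) - q.pos (.g l' (i + 2) b')‖ ≤ 1 := by
  rw [norm_sub_rev]
  have e : q.pos (.g l' (i + 2) b') - q.pos (.g l i b) =
      (q.X (i + 2) + q.Y l' - (q.X i + q.Y l)) +
        (Par.sg b' * (q.ge l' (i + 2) : ℂ) * cu nui - Par.sg b * (q.ge l i : ℂ) * cu nui) := by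
    simp only [Par.pos]; ring
  rw [e]
  refine test_core C ht hl' hi' ((norm_sub_le _ _).trans ?_)
  have h1 := off0 C b' (ge_pos C l' (i + 2)).le ((ge_le C l' (i + 2)).trans (e_le0 C _))
  have h2 := off0 C b (ge_pos C l i).le ((ge_le C l i).trans (e_le0 C _))
  have := C.epos 0
  linarith

theorem c2e {l i l' : ℕ} (ht : isTest l i l' (i + 2) = true) (hl' : l' < 8 * nL)
    (hi' : i + 2 ≤ irOf mB) (b b' : Bool) :
    tval σ l i = true ↔ ‖q.pos (.g l i b) - q.pos (.gp l' (i + 2) b')‖ ≤ 1 := by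
  rw [norm_sub_rev]
  have e : q.pos (.gp l' (i + 2) b') - q.pos (.g l i b) =
      (q.X (i + 2) + q.Y l' - (q.X i + q.Y l)) +
        (q.vpo (i + 2) + Par.sg b' * ((q.e (q.iend + q.Lr + l' + (i + 2) + 4) : ℝ) : ℂ) * cu nui -
          Par.sg b * (q.ge l i : ℂ) * cu nui) := by
    simp only [Par.pos]; ring
  rw [e]
  refine test_core C ht hl' hi' ((norm_sub_le _ _).trans ?_)
  have h0 := norm_add_le (q.vpo (i + 2))
    (Par.sg b' * ((q.e (q.iend + q.Lr + l' + (i + 2) + 4) : ℝ) : ℂ) * cu nui)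
  have h1 := off0 C b' (C.epos (q.iend + q.Lr + l' + (i + 2) + 4)).le (e_le0 C _)
  have h2 := off0 C b (ge_pos C l i).le ((ge_le C l i).trans (e_le0 C _))
  have h3 := norm_vpo C (i := i + 2) (by omega)
  have h4 := e_le0 C (q.iend - (i + 2))
  have := C.epos 0
  linarith

end cfg

theorem isTest_i {l i l' i' : ℕ} (h : isTest l i l' i' = true) : i' = i + 2 ∧ 0 < l' := by
  rw [isTest, decide_eq_true_iff] at h
  omega

/-- **C5a** -/
theorem C5a : S_C5a := by
  intro σ mB nL q C x y K hx hy v hv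
  have hir := ir_le C
  cases x with
  | g l i b =>
    cases y with
    | g l' i' b' =>
      simp only [rule] at hv
      split_ifs at hv with h1 h2 h3 h4
      · obtain ⟨rfl, rfl, rfl⟩ := h1
        cases hv
        refine c1a C ?_ b b'
        rcases hx with h | h
        · have := C.hi; omega
        · omega
      · obtain ⟨rfl, h5, rfl⟩ := h2
        cases hv
        exact c1b C h5 b b'
      · obtain ⟨rfl, rfl⟩ := h3
        cases hv
        exact c1c C l i b b'
      · cases hv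
        obtain ⟨rfl, h5⟩ := isTest_i h4
        rcases hy with h | h
        · omega
        · exact c1d C h4 h.1 h.2 b b'
    | gp l' i' b' =>
      simp only [rule] at hv
      obtain ⟨y1, y2, y3⟩ := hy
      split_ifs at hv with h1 h2 h3 h4 h5 h6
      · obtain ⟨rfl, rfl⟩ := h1
        cases hv
        exact c2a C y1 b b'
      · obtain ⟨rfl, rfl⟩ := h2
        subst h3
        cases hv
        refine c2b0 C y1 ?_ b b'
        rcases hx with h | h
        · have := C.hi; omega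
        · omega
      · obtain ⟨rfl, rfl⟩ := h2
        cases hv
        exact c2b C h3 y1 b b'
      · obtain ⟨rfl, rfl⟩ := h4
        cases hv
        exact c2c C y1 b b'
      · obtain ⟨rfl, rfl⟩ := h5
        cases hv
        exact c2d C y1 b b'
      · cases hv
        obtain ⟨rfl, h7⟩ := isTest_i h6
        exact c2e C h6 y3 y2 b b'
    | m i' j => simp [rule] at hv
    | a i' k => simp [kn] at K
    | t i' k => simp [kn] at K
    | bd i' k => simp [kn] at K
    | kd i' k => simp [kn] at K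
    | h i' k => simp [kn] at K
    | hd i' k => simp [kn] at K
    | w k => simp [kn] at K
  | gp l i b =>
    cases y with
    | g l' i' b' => simp [rule] at hv
    | gp l' i' b' =>
      simp only [rule] at hv
      split_ifs at hv with h1
      obtain ⟨rfl, rfl⟩ := h1
      cases hv
      exact c3 C l i b b'
    | m i' j => simp [rule] at hv
    | a i' k => simp [kn] at K
    | t i' k => simp [kn] at K
    | bd i' k => simp [kn] at K
    | kd i' k => simp [kn] at K
    | h i' k => simp [kn] at K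
    | hd i' k => simp [kn] at K
    | w k => simp [kn] at K
  | m i j =>
    obtain ⟨x1, x2, x3⟩ := hx
    cases y with
    | g l' i' b' =>
      simp only [rule] at hv
      split_ifs at hv with h1 h2 h3
      · obtain ⟨rfl, rfl⟩ := h1
        cases hv
        exact c4a C x3 x1 (by have := C.hi; omega) b'
      · obtain ⟨rfl, rfl⟩ := h2
        cases hv
        refine c4b C ?_ b'
        rcases hy with h | h
        · have := C.hi; omega
        · omega
      · obtain ⟨rfl, rfl⟩ := h3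
        cases hv
        exact c4c C x3 x1 b'
    | gp l' i' b' =>
      simp only [rule] at hv
      split_ifs at hv with h1
      obtain ⟨rfl, rfl⟩ := h1
      cases hv
      exact c5 C x3 x1 b'
    | m i' j' => simp [rule] at hv
    | a i' k => simp [kn] at K
    | t i' k => simp [kn] at K
    | bd i' k => simp [kn] at K
    | kd i' k => simp [kn] at K
    | h i' k => simp [kn] at K
    | hd i' k => simp [kn] at K
    | w k => simp [kn] at K
  | a i' k => simp [kn] at K
  | t i' k => simp [kn] at K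
  | bd i' k => simp [kn] at K
  | kd i' k => simp [kn] at K
  | h i' k => simp [kn] at K
  | hd i' k => simp [kn] at K
  | w k => simp [kn] at K

end Run7.h690.UD
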