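import Pool.Agent.Run7.h690.UD.C4

/-!
# Piece C6c (helper690): the ring against the other vertices
-/

set_option autoImplicit false
set_option linter.all false

namespace Run7.h690.UD

open Complex Run7.h840

theorem norm_rp {u0 : ℂ} (hu : ‖u0‖ = 1) (k : ℕ) : ‖rp u0 k‖ = 1 - 1 / (4 * (MR : ℝ)) := by
  have e : (2 * (Real.pi : ℂ) * I * k / (6 * MR) : ℂ) = ((2 * Real.pi * k / (6 * MR) : ℝ) : ℂ) * I := by
    push_cast
    ring
  rw [rp, e, norm_mul, norm_mul, norm_exp_ofReal_mul_I, hu, norm_real, Real.norm_eq_abs]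
  rw [abs_of_nonneg]
  · ring
  · norm_num [MR]

/-- the first coordinates -/
theorem rt_fst {a : V2} (h1 : |a.1| ≤ 320500000) (h2 : |a.2| ≤ 320500000) (k : ℕ) :
    (rt a k).1 ≤ 2 * SS := by
  obtain ⟨l1, u1⟩ := abs_le.1 h1
  obtain ⟨l2, u2⟩ := abs_le.1 h2
  rcases k with _ | _ | _ | _ | _ | k <;> simp only [rt, omi, SS] <;> nlinarith

theorem stX_bd (i : ℕ) : |(vn (stX i)).1| ≤ 320500000 ∧ |(vn (stX i)).2| ≤ 320500000 := by
  rw [stX_mod]
  have h : i % 4 < 4 := Nat.mod_lt _ (by norm_num)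
  interval_cases (i % 4) <;> decide

theorem stY_bd (l : ℕ) : |(stY l).1| ≤ 320500000 ∧ |(stY l).2| ≤ 320500000 := by
  rw [stY_mod]
  have h : l % 8 < 8 := Nat.mod_lt _ (by norm_num)
  interval_cases (l % 8) <;> decide

/-- upper bound of the first coordinate of a column -/
theorem NX_up (i : ℕ) : (NX i).1 ≤ S2 * ((i / 4 : ℕ) * 635470000 + 320190082) := by
  have h : (Xo (i % 4)).1 ≤ 320190082 := by
    have h : i % 4 < 4 := Nat.mod_lt _ (by norm_num)
    interval_cases (i % 4) <;> decide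
  have e : (NX i).1 = S2 * ((i / 4 : ℕ) * 635470000 + (Xo (i % 4)).1) := by
    simp only [NX, vm, va, Pc, Z0i, s1i, s2i]
    norm_num
  rw [e]
  apply mul_le_mul_of_nonneg_left _ (by norm_num [S2])
  linarith

/-- the columns far to the left of the root -/
theorem NX_far {M i : ℕ} (hi : i + 12 < 4 * M + 2) :
    (NX i).1 + 4 * SS + SS / 2 ≤ S2 * ((M : ℤ) * 635470000 - 210000) := by
  have e : (NX i).1 = S2 * ((i / 4 : ℕ) * 635470000 + (Xo (i % 4)).1) := by
    simp only [NX, vm, va, Pc, Z0i, s1i, s2i]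
    norm_num
  have h4 : i % 4 < 4 := Nat.mod_lt _ (by norm_num)
  have hX : (Xo (i % 4)).1 ≤ 320190082 := by
    interval_cases (i % 4) <;> decide
  rw [e]
  have h1 : i / 4 + 3 ≤ M := by omega
  have h1' : ((i / 4 : ℕ) : ℤ) + 3 ≤ M := by exact_mod_cast h1
  simp only [S2, SS]
  norm_num
  linarith

theorem NY_up (l : ℕ) : (NY l).1 ≤ S2 * ((l / 8 : ℕ) * 45850000 + 145180000) := by
  have h : (Yo (l % 8)).1 ≤ 145180000 := by
    have h : l % 8 < 8 := Nat.mod_lt _ (by norm_num)
    interval_cases (l % 8) <;> decide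
  have e : (NY l).1 = S2 * ((l / 8 : ℕ) * 45850000 + (Yo (l % 8)).1) := by
    simp only [NY, vm, va, Pr, n0i, g6i, g7i]
    norm_num
  rw [e]
  apply mul_le_mul_of_nonneg_left _ (by norm_num [S2])
  linarith

theorem NX_root (M : ℕ) : (NX (4 * M + 2)).1 = S2 * ((M : ℤ) * 635470000 - 210000) := by
  have h1 : (4 * M + 2) / 4 = M := by omega
  have h2 : (4 * M + 2) % 4 = 2 := by omega
  simp only [NX, h1, h2, vm, va, Pc, Z0i, s1i, s2i, Xo]
  ring_nf

/-- the vertices in the rows -/
theorem row_far {mB nL l i : ℕ} (hm : 1 ≤ mB) (hn : 1 ≤ nL) (hl : l < 8 * nL) (hi : i ≤ irOf mB) :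
    (NX i).1 + (NY l).1 + 5 * SS ≤ (NX (iendOf mB nL)).1 := by
  have h1 := NX_up i
  have h2 := NY_up l
  rw [iendOf, NX_root]
  have h3 : i / 4 ≤ mB - 1 := by
    rw [irOf] at hi
    omega
  have h4 : l / 8 ≤ nL - 1 := by omega
  have h3' : ((i / 4 : ℕ) : ℤ) ≤ (mB : ℤ) - 1 := by
    have : ((i / 4 : ℕ) : ℤ) ≤ ((mB - 1 : ℕ) : ℤ) := by exact_mod_cast h3
    rwa [Nat.cast_sub hm, Nat.cast_one] at this
  have h4' : ((l / 8 : ℕ) : ℤ) ≤ (nL : ℤ) - 1 := by
    have : ((l / 8 : ℕ) : ℤ) ≤ ((nL - 1 : ℕ) : ℤ) := by exact_mod_cast h4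
    rwa [Nat.cast_sub hn, Nat.cast_one] at this
  have h5 : ((mB + nXof mB nL - 1 : ℕ) : ℤ) = mB + 100 * (mB + nL + 1) - 1 := by
    rw [Nat.cast_sub (by omega), nXof]
    push_cast
    ring
  rw [h5]
  have hm' : (1 : ℤ) ≤ mB := by exact_mod_cast hm
  have hn' : (1 : ℤ) ≤ nL := by exact_mod_cast hn
  simp only [S2, SS] at *
  nlinarith

section cfg

variable {σ : ℕ → ℕ → Bool} {mB nL : ℕ} {q : Par} (C : Cfg σ mB nL q)
include C

theorem e_le0' (n : ℕ) : q.e n ≤ q.e 0 := by
  induction n with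
  | zero => exact le_rfl
  | succ n ih => exact (e_dec C n).trans ih

/-- far vertices are not adjacent to the ring -/
theorem far_case {x : Vx} (hx : Val mB nL x) (hw : ∀ k, x ≠ .w k) (k : ℕ)
    (hfar : (x.site.N).1 + 2 * SS + SS / 2 ≤ (NX q.iend).1) :
    1 < ‖q.pos (.w k) - q.pos x‖ := by
  have h1 := close σ mB nL q C x hx hw
  have h2 := C.Xc q.iend
  have h3 := norm_rp C.u0 k
  have h4 : (cS (x.site.N)).re + 2.5 ≤ (cS (NX q.iend)).re := by
    simp only [cS]
    have hSS : (0 : ℝ) < (SS : ℝ) := by norm_num [SS]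
    have h5 : 2 * (x.site.N).1 + 5 * SS ≤ 2 * (NX q.iend).1 := by
      have : SS / 2 * 2 = SS := by decide
      omega
    have h6 : 2 * ((x.site.N).1 : ℝ) + 5 * (SS : ℝ) ≤ 2 * ((NX q.iend).1 : ℝ) := by exact_mod_cast h5
    have h7 : ((x.site.N).1 : ℝ) / SS + 2.5 = (((x.site.N).1 : ℝ) + 2.5 * SS) / SS := by
      field_simp
    rw [h7]
    apply div_le_div_of_nonneg_right _ hSS.le
    linarith
  have h5 : (q.pos x).re ≤ (cS (x.site.N)).re + 5 / 10 ^ 4 := by
    have := (abs_re_le_norm _).trans h1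
    rw [sub_re] at this
    linarith [(abs_le.1 this).2]
  have h6 : (cS (NX q.iend)).re - 1 / 10 ^ 6 ≤ (q.X q.iend).re := by
    have := (abs_re_le_norm _).trans h2
    rw [sub_re] at this
    linarith [(abs_le.1 this).1]
  have h7 : 2.4 ≤ ‖q.X q.iend - q.pos x‖ := by
    refine le_trans ?_ (re_le_norm _)
    rw [sub_re]
    have : (5 : ℝ) / 10 ^ 4 + 1 / 10 ^ 6 ≤ 0.1 := by norm_num
    linarith
  have h8 : q.pos (.w k) - q.pos x = (q.X q.iend - q.pos x) + rp q.u0 k := by
    simp only [Par.pos]; ring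
  rw [h8]
  have h9 : ‖q.X q.iend - q.pos x‖ ≤ ‖(q.X q.iend - q.pos x) + rp q.u0 k‖ + ‖rp q.u0 k‖ := by
    have := norm_sub_le ((q.X q.iend - q.pos x) + rp q.u0 k) (rp q.u0 k)
    rwa [add_sub_cancel_right] at this
  rw [h3] at h9
  have : 0 < 1 / (4 * (MR : ℝ)) := by norm_num [MR]
  linarith

/-- vertices near the root -/
theorem near_case {x : Vx} {s : Site} {k : ℕ} (hk : k < 6 * MR) (hs : RS s)
    (hpos : ‖q.pos x - (q.X q.iend + rpos s)‖ ≤ 3 * q.e 0) :
    (decide (s = .G 0 14) || rtabOf q.u0 k s) = true ↔ ‖q.pos (.w k) - q.pos x‖ ≤ 1 := by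
  have he := C.epos 0
  have h8 : q.pos (.w k) - q.pos x = (rp q.u0 k - rpos s) - (q.pos x - (q.X q.iend + rpos s)) := by
    simp only [Par.pos]; ring
  by_cases h0 : s = .G 0 14
  · subst h0
    have h1 : rpos (.G 0 14) = 0 := by simp [rpos]
    have h2 : ‖q.pos (.w k) - q.pos x‖ ≤ 1 := by
      rw [h8]
      refine (norm_sub_le _ _).trans ?_
      rw [h1, sub_zero, norm_rp C.u0 k]
      rw [h1] at hpos
      have h3 := C.e0
      have h4 : 3 * ((1 : ℝ) / 10 ^ 20) ≤ 1 / (4 * (MR : ℝ)) := by norm_num [MR]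
      linarith
    simp [h2]
  · have h1 : (decide (s = .G 0 14) || rtabOf q.u0 k s) = rtabOf q.u0 k s := by
      rw [decide_eq_false h0, Bool.false_or]
    rw [h1, rtabOf, decide_eq_true_iff]
    have h2 := C.rg k hk s hs
    have h3 : ‖rp q.u0 k - rpos s‖ = ‖rpos s - rp q.u0 k‖ := norm_sub_rev _ _
    rw [h8]
    constructor
    · intro h
      rw [abs_of_nonpos (by linarith)] at h2
      refine (norm_sub_le _ _).trans ?_
      rw [h3]
      linarith
    · intro h
      by_contra hc
      push Not at hc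
      rw [abs_of_pos (by linarith)] at h2
      have h4 : ‖rp q.u0 k - rpos s‖ ≤
          ‖(rp q.u0 k - rpos s) - (q.pos x - (q.X q.iend + rpos s))‖ +
            ‖q.pos x - (q.X q.iend + rpos s)‖ := by
        have := norm_add_le ((rp q.u0 k - rpos s) - (q.pos x - (q.X q.iend + rpos s)))
          (q.pos x - (q.X q.iend + rpos s))
        rwa [sub_add_cancel] at this
      rw [h3] at h4
      linarith

theorem off_le0 (b : Bool) {s : ℝ} (hs0 : 0 ≤ s) (hs : s ≤ q.e 0) :
    ‖Par.sg b * (s : ℂ) * cu nui‖ ≤ 2 * q.e 0 := by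
  refine (norm_off b hs0).trans ?_
  linarith

/-- the columns near the root -/
theorem X_near {i : ℕ} (h1 : i ≤ q.iend) (h2 : q.iend ≤ i + 13) :
    q.X i = q.X q.iend + (Xr (i + 14 - q.iend) - Xr 14) := by
  rw [← C.Xe i h1 h2]; ring

end cfg

/-- **C6c** -/
theorem C6c : S_C6c := by
  intro σ mB nL q C x hx hw k hk
  have he := C.epos 0
  have hm := C.hm
  have hn := C.hn
  have hsb : 4 * SS + SS / 2 = 2 * SS + SS / 2 + 2 * SS := by ring
  have hfar : ∀ i, i + 12 < q.iend → (NX i).1 + 4 * SS + SS / 2 ≤ (NX q.iend).1 := by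
    intro i hi
    rw [C.hi, iendOf, NX_root]
    rw [C.hi, iendOf] at hi
    exact NX_far hi
  have hrow : ∀ l i, l < 8 * nL → i ≤ irOf mB → (NX i).1 + (NY l).1 + 5 * SS ≤ (NX q.iend).1 := by
    intro l i hl hi
    rw [C.hi]
    exact row_far hm hn hl hi
  have hNY0 : (NY 0).1 = 0 := by decide
  have hNX0 : (NX 0).1 = 0 := by decide
  have hSS0 : 0 < SS := by decide
  have hSS2 : SS / 2 * 2 = SS := by decide
  have none_case : ∀ {x : Vx} (hx : Val mB nL x) (hw : ∀ k, x ≠ .w k),
      (x.site.N).1 + 2 * SS + SS / 2 ≤ (NX q.iend).1 →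
      (false = true ↔ ‖q.pos (.w k) - q.pos x‖ ≤ 1) := by
    intro x hx hw h
    have := far_case C hx hw k h
    constructor
    · intro h'; exact absurd h' (by simp)
    · intro h'; exact absurd h' (not_le.2 this)
  have hx0 := hx
  cases x with
  | g l i b =>
    by_cases hc : l = 0 ∧ q.iend ≤ i + 12 ∧ i ≤ q.iend
    · have hr : rsite q.iend (.g l i b) = some (.G 0 (i + 14 - q.iend)) := by
        simp only [rsite]; rw [if_pos hc]
      rw [radj, hr]
      obtain ⟨rfl, c1, c2⟩ := hc
      refine near_case C hk ⟨rfl, by omega, by omega⟩ ?_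
      simp only [Par.pos, rpos]
      rw [X_near C c2 (by omega), C.Y0]
      have e : q.X q.iend + (Xr (i + 14 - q.iend) - Xr 14) + 0 + Par.sg b * (q.ge 0 i : ℂ) * cu nui -
          (q.X q.iend + (Xr (i + 14 - q.iend) - Xr 14)) = Par.sg b * (q.ge 0 i : ℂ) * cu nui := by ring
      rw [e]
      have := off_le0 C b (ge_pos C 0 i).le ((ge_le C 0 i).trans (e_le0' C _))
      linarith
    · have hr : rsite q.iend (.g l i b) = none := by
        simp only [rsite]; rw [if_neg hc]
      rw [radj, hr]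
      apply none_case hx hw
      simp only [Vx.site, Site.N, va]
      rcases hx with h | h
      · have h1 := hfar i (by rw [← C.hi] at h; omega)
        rw [h.1, hNY0]
        linarith
      · have := hrow l i h.1 h.2
        linarith
  | gp l i b =>
    have hr : rsite q.iend (.gp l i b) = none := rfl
    rw [radj, hr]
    apply none_case hx hw
    simp only [Vx.site, Site.N, va]
    have := hrow l i hx.2.2 hx.2.1
    linarith
  | m i j =>
    obtain ⟨x1, x2, x3⟩ := hx
    rw [← C.hi] at x2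
    by_cases hc : q.iend ≤ i + 12 ∧ i ≤ q.iend
    · have hr : rsite q.iend (.m i j) = some (.G 0 (i + 14 - q.iend)) := by
        simp only [rsite]; rw [if_pos hc]
      rw [radj, hr]
      obtain ⟨c1, c2⟩ := hc
      refine near_case C hk ⟨rfl, by omega, by omega⟩ ?_
      simp only [Par.pos, rpos]
      rw [X_near C c2 (by omega)]
      have e : q.X q.iend + (Xr (i + 14 - q.iend) - Xr 14) +
          ((q.e (q.iend - i) : ℝ) : ℂ) * (I * cu psii * om ^ j) -
          (q.X q.iend + (Xr (i + 14 - q.iend) - Xr 14)) =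
          ((q.e (q.iend - i) : ℝ) : ℂ) * (I * cu psii * om ^ j) := by ring
      rw [e, norm_mul, norm_real, Real.norm_eq_abs, abs_of_pos (C.epos _)]
      have h1 := e_le0' C (q.iend - i)
      have h2 := norm_mdir j
      have h3 : q.e (q.iend - i) * ‖I * cu psii * om ^ j‖ ≤ q.e 0 * 1.001 :=
        mul_le_mul h1 h2 (norm_nonneg _) he.le
      linarith
    · have hr : rsite q.iend (.m i j) = none := by
        simp only [rsite]; rw [if_neg hc]
      rw [radj, hr]
      apply none_case hx0 hw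
      simp only [Vx.site, Site.N, va]
      have h1 := hfar i (by omega)
      rw [hNY0]
      linarith
  | a i k' =>
    obtain ⟨x1, x2, x3⟩ := hx
    rw [← C.hi] at x2
    by_cases hc : q.iend ≤ i + 12 ∧ i ≤ q.iend
    · have hr : rsite q.iend (.a i k') = some (.A (i + 14 - q.iend) k') := by
        simp only [rsite]; rw [if_pos hc]
      rw [radj, hr]
      obtain ⟨c1, c2⟩ := hc
      refine near_case C hk ⟨by omega, by omega, x3⟩ ?_
      simp only [Par.pos, rpos]
      rw [X_near C c2 (by omega)]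
      obtain ⟨t, t0, -, t1, t2⟩ := sqrt_bd C (q.iend - i)
      rw [t2]
      have e : q.X q.iend + (Xr (i + 14 - q.iend) - Xr 14) +
          ((1 - t : ℝ) : ℂ) * (cu psii * om ^ k') -
          (q.X q.iend + (Xr (i + 14 - q.iend) - Xr 14 + cu psii * om ^ k')) =
          -((t : ℝ) : ℂ) * (cu psii * om ^ k') := by
        push_cast
        ring
      rw [e, norm_mul, norm_neg, norm_rt_om, norm_real, Real.norm_eq_abs, abs_of_nonneg t0]
      have h2 := norm_psi
      have h3 : t * ‖cu psii‖ ≤ q.e 0 * 1.001 := mul_le_mul t1 h2 (norm_nonneg _) he.le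
      linarith
    · have hr : rsite q.iend (.a i k') = none := by
        simp only [rsite]; rw [if_neg hc]
      rw [radj, hr]
      apply none_case hx0 hw
      simp only [Vx.site, Site.N, va]
      have h1 := hfar i (by omega)
      have h2 := rt_fst (a := psii) (by decide) (by decide) k'
      linarith
  | t i j =>
    obtain ⟨x1, x2, x3⟩ := hx
    have hr : rsite q.iend (.t i j) = none := rfl
    rw [radj, hr]
    apply none_case hx0 hw
    simp only [Vx.site, Site.N, va]
    have h1 := hrow 0 i (by omega) x2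
    have h2 : (vm S2 (thi j)).1 ≤ 2 * SS := by interval_cases j <;> decide
    rw [hNY0] at h1
    linarith
  | bd i k' =>
    obtain ⟨x1, x2, x3, x4⟩ := hx
    rw [← C.hi] at x2
    by_cases hc : q.iend ≤ i + 12 ∧ i ≤ q.iend
    · have hr : rsite q.iend (.bd i k') = some (.Bd (i + 14 - q.iend) k') := by
        simp only [rsite]; rw [if_pos hc]
      rw [radj, hr]
      obtain ⟨c1, c2⟩ := hc
      refine near_case C hk ⟨by omega, by omega, by omega⟩ ?_
      simp only [Par.pos, rpos]
      have f1 := X_near C c2 (by omega)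
      have f2 := X_near C (i := i - 1) (by omega) (by omega)
      have f3 : i - 1 + 14 - q.iend = i + 14 - q.iend - 1 := by omega
      rw [f3] at f2
      obtain ⟨k0, -, k1⟩ := kap_bd C i
      have e : q.X i + ((1 - q.kap i : ℝ) : ℂ) * ((q.X (i - 1) - q.X i) * om ^ k') -
          (q.X q.iend + (Xr (i + 14 - q.iend) - Xr 14 +
            (Xr (i + 14 - q.iend - 1) - Xr (i + 14 - q.iend)) * om ^ k')) =
          -((q.kap i : ℝ) : ℂ) * ((q.X (i - 1) - q.X i) * om ^ k') := by
        rw [f1, f2]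
        push_cast
        ring
      rw [e, norm_mul, norm_neg, norm_rt_om, norm_step C x1, norm_real, Real.norm_eq_abs,
        abs_of_nonneg k0]
      linarith
    · have hr : rsite q.iend (.bd i k') = none := by
        simp only [rsite]; rw [if_neg hc]
      rw [radj, hr]
      apply none_case hx0 hw
      simp only [Vx.site, Site.N, va]
      have h1 := hfar i (by omega)
      have h2 := rt_fst (stX_bd (i - 1)).1 (stX_bd (i - 1)).2 k'
      linarith
  | kd l k' =>
    obtain ⟨x1, x2, x3⟩ := hx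
    have hr : rsite q.iend (.kd l k') = none := rfl
    rw [radj, hr]
    apply none_case hx0 hw
    simp only [Vx.site, Site.N, va]
    have h1 := hrow l 0 (by omega) (Nat.zero_le _)
    have h2 := rt_fst (stY_bd l).1 (stY_bd l).2 k'
    rw [hNX0] at h1
    linarith
  | h i b =>
    obtain ⟨x1, x2⟩ := hx
    have hr : rsite q.iend (.h i b) = none := rfl
    rw [radj, hr]
    apply none_case hx0 hw
    simp only [Vx.site, Site.N, va]
    have h1 := hrow 2 i (by omega) (by omega)
    have h2 := rt_fst (a := yi) (by decide) (by decide) 0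
    linarith
  | hd i k' =>
    obtain ⟨x1, x2, x3, x4⟩ := hx
    have hr : rsite q.iend (.hd i k') = none := rfl
    rw [radj, hr]
    apply none_case hx0 hw
    simp only [Vx.site, Site.N, va]
    have h1 := hrow 2 i (by omega) (by omega)
    have h2 := rt_fst (a := yi) (by decide) (by decide) k'
    linarith
  | w k' => exact absurd rfl (hw k')

end Run7.h690.UD
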